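import Mathlib

/-!
# Hamiltonian cycle on graphs without two disjoint long-H subgraphs: definitions
-/

namespace H87.HC

/-- The ten edges of the long-`H`. The two branch vertices are `0` and `2`, the vertex `1`
subdivides the edge between them, the pendant paths at `0` are `0 - 3 - 4` and `0 - 5 - 6`,
those at `2` are `2 - 7 - 8` and `2 - 9 - 10`. -/
def longHEdges : List (Fin 11 × Fin 11) :=
  [(0, 1), (1, 2), (0, 3), (3, 4), (0, 5), (5, 6), (2, 7), (7, 8), (2, 9), (9, 10)]

/-- The long-`H`: the tree obtained from the `H`-shaped tree on six vertices by subdividing each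
of its five edges exactly once. -/
def longH : SimpleGraph (Fin 11) where
  Adj a b := (a, b) ∈ longHEdges ∨ (b, a) ∈ longHEdges
  symm := ⟨fun _ _ h => h.symm⟩
  loopless := ⟨fun a => by revert a; decide⟩

open Classical in
/-- The word that presents a graph `G` on the vertex set `{0, ..., n - 1}`: the number `n` in
unary, a separator, and the adjacency matrix of `G` row by row. -/
noncomputable def encode {n : ℕ} (G : SimpleGraph (Fin n)) : List Bool :=
  List.replicate n true ++ false ::
    List.ofFn (fun k : Fin (n * n) =>
      decide (G.Adj ⟨k / n, Nat.div_lt_of_lt_mul k.2⟩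
        ⟨k % n, Nat.mod_lt _ (Nat.pos_of_ne_zero (by rintro rfl; exact absurd k.2 (by simp)))⟩))

/-- `G` has a Hamiltonian cycle: a closed walk which is a cycle through all vertices. -/
def HasHamiltonianCycle {V : Type} [DecidableEq V] (G : SimpleGraph V) : Prop :=
  ∃ (a : V) (p : G.Walk a a), p.IsHamiltonianCycle

/-- The words that present a graph which contains no two vertex-disjoint long-`H`s (as
subgraphs, not necessarily induced) and which has a Hamiltonian cycle. -/
def HamTwoLongHFree : Set (List Bool) :=
  {w | ∃ (n : ℕ) (G : SimpleGraph (Fin n)),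
    w = encode G ∧ (longH ⊕g longH).Free G ∧ HasHamiltonianCycle G}

end H87.HC
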