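import Mathlib
import Pool.Agent.H87.HC.Defs

/-!
# Merging the cycles of a spanning two-regular subgraph
-/

namespace H87.HC

open SimpleGraph

variable {V : Type} {G F : SimpleGraph V}

/-- The vertex `w` has exactly two neighbours. -/
def TwoN (F : SimpleGraph V) (w : V) : Prop := ∃ p q, p ≠ q ∧ ∀ u, F.Adj w u ↔ u = p ∨ u = q

/-- The vertex `w` has exactly one neighbour. -/
def OneN (F : SimpleGraph V) (w : V) : Prop := ∃ p, ∀ u, F.Adj w u ↔ u = p

/-- A set `K` which meets the rest of the graph in four vertices, with two ways to join them. -/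
structure Gad (G : SimpleGraph V) (K : Set V) (s : Fin 4 → V) (P1 P2 : SimpleGraph V) :
    Prop where
  mem : ∀ i, s i ∈ K
  out1 : ∀ i, ∃ o, o ∉ K ∧ ∀ u, u ∉ K → (G.Adj (s i) u ↔ u = o)
  out0 : ∀ w ∈ K, (∀ i, w ≠ s i) → ∀ u, u ∉ K → ¬ G.Adj w u
  deg2 : ∀ w ∈ K, ∀ u, u ∉ K → G.Adj w u → TwoN G u
  le1 : P1 ≤ G
  le2 : P2 ≤ G
  in1 : ∀ a b, P1.Adj a b → a ∈ K
  in2 : ∀ a b, P2.Adj a b → a ∈ K
  one1 : ∀ i, OneN P1 (s i)
  one2 : ∀ i, OneN P2 (s i)
  two1 : ∀ w ∈ K, (∀ i, w ≠ s i) → TwoN P1 w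
  two2 : ∀ w ∈ K, (∀ i, w ≠ s i) → TwoN P2 w
  conn1 : ∀ (α : Type) (g : V → α), (∀ a b, P1.Adj a b → g a = g b) →
    (g (s 0) = g (s 2) ∨ g (s 0) = g (s 3)) → ∀ w ∈ K, g (s 0) = g w
  conn2 : ∀ (α : Type) (g : V → α), (∀ a b, P2.Adj a b → g a = g b) →
    g (s 0) = g (s 1) → ∀ w ∈ K, g (s 0) = g w

theorem TwoN.full (hle : F ≤ G) {w : V} (h1 : TwoN F w) (h2 : TwoN G w) {u : V}
    (h : G.Adj w u) : F.Adj w u := by
  obtain ⟨p, q, hpq, hF⟩ := h1
  obtain ⟨p', q', hpq', hG⟩ := h2
  have hp : G.Adj w p := hle ((hF p).2 (Or.inl rfl))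
  have hq : G.Adj w q := hle ((hF q).2 (Or.inr rfl))
  rw [hG] at hp hq h
  rw [hF]
  grind

/-- Remove the edges inside `K`. -/
def rest (F : SimpleGraph V) (K : Set V) : SimpleGraph V where
  Adj a b := F.Adj a b ∧ ¬ (a ∈ K ∧ b ∈ K)
  symm := ⟨fun _ _ h => ⟨h.1.symm, fun h' => h.2 ⟨h'.2, h'.1⟩⟩⟩
  loopless := ⟨fun a h => F.loopless.irrefl a h.1⟩

theorem rest_adj {K : Set V} {a b : V} :
    (rest F K).Adj a b ↔ F.Adj a b ∧ ¬ (a ∈ K ∧ b ∈ K) := Iff.rfl

/-- All edges at vertices of degree two are present in `F`. -/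
def Full (G F : SimpleGraph V) : Prop := ∀ u w, TwoN G u → G.Adj u w → F.Adj u w

variable {K : Set V} {s : Fin 4 → V} {P1 P2 P : SimpleGraph V}

theorem rest_out (hle : F ≤ G) (hfull : Full G F) (hdeg : ∀ w ∈ K, ∀ u, u ∉ K → G.Adj w u → TwoN G u)
    {w u : V} (hw : w ∈ K) : (rest F K).Adj w u ↔ (G.Adj w u ∧ u ∉ K) := by
  rw [rest_adj]
  constructor
  · rintro ⟨h1, h2⟩
    exact ⟨hle h1, fun hu => h2 ⟨hw, hu⟩⟩
  · rintro ⟨h1, h2⟩
    exact ⟨(hfull u w (hdeg w hw u h2 h1) h1.symm).symm, fun h => h2 h.2⟩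

/-- The properties of the replacement. -/
theorem replace (hle : F ≤ G) (hfull : Full G F)
    (out1 : ∀ i, ∃ o, o ∉ K ∧ ∀ u, u ∉ K → (G.Adj (s i) u ↔ u = o))
    (out0 : ∀ w ∈ K, (∀ i, w ≠ s i) → ∀ u, u ∉ K → ¬ G.Adj w u)
    (deg2 : ∀ w ∈ K, ∀ u, u ∉ K → G.Adj w u → TwoN G u)
    (le : P ≤ G) (inn : ∀ a b, P.Adj a b → a ∈ K) (one : ∀ i, OneN P (s i))
    (two : ∀ w ∈ K, (∀ i, w ≠ s i) → TwoN P w) :
    rest F K ⊔ P ≤ G ∧ (∀ w ∈ K, TwoN (rest F K ⊔ P) w) ∧
      (∀ w, w ∉ K → ∀ u, (rest F K ⊔ P).Adj w u ↔ F.Adj w u) := by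
  refine ⟨sup_le (fun a b h => hle h.1) le, ?_, ?_⟩
  · intro w hw
    by_cases hs : ∃ i, w = s i
    · obtain ⟨i, rfl⟩ := hs
      obtain ⟨o, ho1, ho2⟩ := out1 i
      obtain ⟨p, hp⟩ := one i
      have hpK : p ∈ K := inn _ _ ((hp p).2 rfl).symm
      refine ⟨o, p, fun h => ho1 (h ▸ hpK), fun u => ?_⟩
      rw [sup_adj, rest_out hle hfull deg2 hw, hp]
      constructor
      · rintro (⟨h1, h2⟩ | h)
        · exact Or.inl ((ho2 u h2).1 h1)
        · exact Or.inr h
      · rintro (rfl | h)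
        · exact Or.inl ⟨(ho2 u ho1).2 rfl, ho1⟩
        · exact Or.inr h
    · push Not at hs
      obtain ⟨p, q, hpq, h⟩ := two w hw hs
      refine ⟨p, q, hpq, fun u => ?_⟩
      rw [sup_adj, rest_out hle hfull deg2 hw, h]
      constructor
      · rintro (⟨h1, h2⟩ | h)
        · exact absurd h1 (out0 w hw hs u h2)
        · exact h
      · exact Or.inr
  · intro w hw u
    rw [sup_adj, rest_adj]
    constructor
    · rintro (h | h)
      · exact h.1
      · exact absurd (inn _ _ h) hw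
    · intro h
      exact Or.inl ⟨h, fun h' => hw h'.1⟩

theorem full_of_two (hle : F ≤ G) (h : ∀ v, TwoN F v) : Full G F :=
  fun u _ hu huw => TwoN.full hle (h u) hu huw

/-- Existence of a spanning two-regular subgraph. -/
theorem exists_two [Finite V]
    (hT : ∀ v, TwoN G v ∨ ∃ K s P1 P2, Gad G K s P1 P2 ∧ v ∈ K) :
    ∃ F ≤ G, ∀ v, TwoN F v := by
  classical
  have key : ∀ (m : ℕ) (F : SimpleGraph V), F ≤ G →
      (∀ v, TwoN F v ∨ ∀ u, F.Adj v u ↔ G.Adj v u) → {v | ¬ TwoN F v}.ncard = m →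
      ∃ F ≤ G, ∀ v, TwoN F v := by
    intro m
    induction m using Nat.strong_induction_on with
    | _ m ih =>
      intro F hle hgood hm
      by_cases hall : ∀ v, TwoN F v
      · exact ⟨F, hle, hall⟩
      push Not at hall
      obtain ⟨v, hv⟩ := hall
      have hfull : Full G F := by
        intro u w hu huw
        rcases hgood u with h | h
        · exact TwoN.full hle h hu huw
        · exact (h w).2 huw
      have hvG : ¬ TwoN G v := by
        intro h
        apply hv
        rcases hgood v with h' | h'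
        · exact h'
        · obtain ⟨p, q, hpq, hG⟩ := h
          exact ⟨p, q, hpq, fun u => by rw [h', hG]⟩
      obtain ⟨K, s, P1, P2, hK, hvK⟩ := (hT v).resolve_left hvG
      obtain ⟨r1, r2, r3⟩ := replace hle hfull hK.out1 hK.out0 hK.deg2 hK.le1 hK.in1
        hK.one1 hK.two1
      refine ih _ ?_ (rest F K ⊔ P1) r1 ?_ rfl
      · rw [← hm]
        apply Set.ncard_lt_ncard _ (Set.toFinite _)
        refine ⟨?_, ?_⟩
        · intro w hw
          simp only [Set.mem_ofPred_eq] at hw ⊢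
          intro hF
          apply hw
          by_cases hwK : w ∈ K
          · exact r2 w hwK
          · obtain ⟨p, q, hpq, h⟩ := hF
            exact ⟨p, q, hpq, fun u => by rw [r3 w hwK, h]⟩
        · intro hsub
          exact hsub (show v ∈ {v | ¬ TwoN F v} from hv) (r2 v hvK)
      · intro w
        by_cases hwK : w ∈ K
        · exact Or.inl (r2 w hwK)
        · rcases hgood w with h | h
          · left
            obtain ⟨p, q, hpq, h⟩ := h
            exact ⟨p, q, hpq, fun u => by rw [r3 w hwK, h]⟩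
          · right
            intro u
            rw [r3 w hwK, h]
  exact key _ G le_rfl (fun v => Or.inr fun u => Iff.rfl) rfl

theorem degree_two {w : V} [Fintype (F.neighborSet w)] (h : TwoN F w) : F.degree w = 2 := by
  classical
  obtain ⟨p, q, hpq, h⟩ := h
  rw [← card_neighborFinset_eq_degree]
  have : F.neighborFinset w = {p, q} := by
    ext u
    rw [mem_neighborFinset, h]
    simp
  rw [this, Finset.card_pair hpq]

theorem degree_one {w : V} [Fintype (F.neighborSet w)] (h : OneN F w) : F.degree w = 1 := by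
  classical
  obtain ⟨p, h⟩ := h
  rw [← card_neighborFinset_eq_degree]
  have : F.neighborFinset w = {p} := by
    ext u
    rw [mem_neighborFinset, h]
    simp
  rw [this, Finset.card_singleton]

/-- Some other terminal is reachable from the first one outside `K`. -/
theorem parity [Finite V] (hle : F ≤ G) (htwo : ∀ v, TwoN F v) (hK : Gad G K s P1 P2) :
    ∃ i, i ≠ 0 ∧ (rest F K).Reachable (s 0) (s i) := by
  classical
  have : Fintype V := Fintype.ofFinite V
  have hfull := full_of_two hle htwo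
  let H' : SimpleGraph V :=
    { Adj := fun a b => (rest F K).Adj a b ∧ (rest F K).Reachable (s 0) a
      symm := ⟨fun a b h => ⟨h.1.symm, h.2.trans h.1.reachable⟩⟩
      loopless := ⟨fun a h => (rest F K).loopless.irrefl a h.1⟩ }
  have hH : ∀ a b, H'.Adj a b ↔ (rest F K).Adj a b ∧ (rest F K).Reachable (s 0) a :=
    fun a b => Iff.rfl
  have h0 : Odd (H'.degree (s 0)) := by
    rw [degree_one]
    · exact odd_one
    · obtain ⟨o, ho1, ho2⟩ := hK.out1 0
      refine ⟨o, fun u => ?_⟩
      rw [hH, rest_out hle hfull hK.deg2 (hK.mem 0)]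
      constructor
      · rintro ⟨⟨h1, h2⟩, _⟩
        exact (ho2 u h2).1 h1
      · rintro rfl
        exact ⟨⟨(ho2 _ ho1).2 rfl, ho1⟩, Reachable.refl _⟩
  obtain ⟨w, hw0, hw⟩ := H'.exists_ne_odd_degree_of_exists_odd_degree (s 0) h0
  have hr : (rest F K).Reachable (s 0) w := by
    by_contra hr
    have : H'.degree w = 0 := by
      rw [← card_neighborFinset_eq_degree, Finset.card_eq_zero]
      ext u
      rw [mem_neighborFinset, hH]
      simp [hr]
    rw [this] at hw
    simp at hw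
  have hwK : w ∈ K := by
    by_contra hwK
    have : H'.degree w = 2 := by
      apply degree_two
      obtain ⟨p, q, hpq, h⟩ := htwo w
      refine ⟨p, q, hpq, fun u => ?_⟩
      rw [hH, rest_adj, ← h]
      constructor
      · exact fun h => h.1.1
      · exact fun h => ⟨⟨h, fun h' => hwK h'.1⟩, hr⟩
    rw [this] at hw
    exact absurd hw (by decide)
  by_cases hs : ∃ i, w = s i
  · obtain ⟨i, rfl⟩ := hs
    exact ⟨i, fun h => hw0 (by rw [h]), hr⟩
  · push Not at hs
    exfalso
    have : H'.degree w = 0 := by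
      rw [← card_neighborFinset_eq_degree, Finset.card_eq_zero]
      ext u
      rw [mem_neighborFinset, hH, rest_out hle hfull hK.deg2 hwK]
      simp only [Finset.notMem_empty, iff_false, not_and]
      rintro ⟨h1, h2⟩
      exact absurd h1 (hK.out0 w hwK hs u h2)
    rw [this] at hw
    simp at hw

/-- The improvement step. -/
theorem improve [Finite V] (hle : F ≤ G) (htwo : ∀ v, TwoN F v) (hK : Gad G K s P1 P2) :
    ∃ F' ≤ G, (∀ v, TwoN F' v) ∧ (∀ w ∈ K, F'.Reachable (s 0) w) ∧
      ∀ a b, F.Reachable a b → F'.Reachable a b := by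
  have hfull := full_of_two hle htwo
  obtain ⟨i, hi, hr⟩ := parity hle htwo hK
  have fin : ∀ P : SimpleGraph V, P ≤ G → (∀ a b, P.Adj a b → a ∈ K) → (∀ i, OneN P (s i)) →
      (∀ w ∈ K, (∀ i, w ≠ s i) → TwoN P w) →
      (∀ w ∈ K, (rest F K ⊔ P).Reachable (s 0) w) →
      ∃ F' ≤ G, (∀ v, TwoN F' v) ∧ (∀ w ∈ K, F'.Reachable (s 0) w) ∧
      ∀ a b, F.Reachable a b → F'.Reachable a b := by
    intro P hP1 hP2 hP3 hP4 hP5
    obtain ⟨r1, r2, r3⟩ := replace hle hfull hK.out1 hK.out0 hK.deg2 hP1 hP2 hP3 hP4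
    refine ⟨rest F K ⊔ P, r1, ?_, hP5, ?_⟩
    · intro v
      by_cases hv : v ∈ K
      · exact r2 v hv
      · obtain ⟨p, q, hpq, h⟩ := htwo v
        exact ⟨p, q, hpq, fun u => by rw [r3 v hv, h]⟩
    · rintro a b ⟨w⟩
      induction w with
      | nil => exact Reachable.refl _
      | cons hadj _ ih =>
        refine Reachable.trans ?_ ih
        rename_i x y z _
        by_cases hxy : x ∈ K ∧ y ∈ K
        · exact (hP5 x hxy.1).symm.trans (hP5 y hxy.2)
        · exact Adj.reachable (Or.inl ⟨hadj, hxy⟩)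
  by_cases h1 : i = 1
  · subst h1
    refine fin P2 hK.le2 hK.in2 hK.one2 hK.two2 ?_
    intro w hw
    have := hK.conn2 _ (rest F K ⊔ P2).connectedComponentMk (fun a b h =>
      ConnectedComponent.sound (Adj.reachable (Or.inr h)))
      (ConnectedComponent.sound (hr.mono le_sup_left)) w hw
    exact ConnectedComponent.exact this
  · refine fin P1 hK.le1 hK.in1 hK.one1 hK.two1 ?_
    intro w hw
    have := hK.conn1 _ (rest F K ⊔ P1).connectedComponentMk (fun a b h =>
      ConnectedComponent.sound (Adj.reachable (Or.inr h))) (by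
        have h23 : i = 2 ∨ i = 3 := by
          fin_cases i <;> simp_all
        rcases h23 with rfl | rfl
        · exact Or.inl (ConnectedComponent.sound (hr.mono le_sup_left))
        · exact Or.inr (ConnectedComponent.sound (hr.mono le_sup_left))) w hw
    exact ConnectedComponent.exact this

/-- The vertices of degree other than two lie in gadgets. -/
def Covered (G : SimpleGraph V) : Prop :=
  ∀ v, TwoN G v ∨ ∃ K s P1 P2, Gad G K s P1 P2 ∧ v ∈ K

/-- A connected spanning two-regular subgraph exists. -/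
theorem exists_conn [Finite V] (hconn : G.Preconnected) (hT : Covered G) :
    ∃ F ≤ G, (∀ v, TwoN F v) ∧ F.Preconnected := by
  classical
  obtain ⟨F0, hF0, hF0'⟩ := exists_two hT
  obtain ⟨F, ⟨hle, htwo⟩, hmax⟩ := Set.exists_max_image {F : SimpleGraph V | F ≤ G ∧ ∀ v, TwoN F v}
    (fun F => Set.ncard {p : V × V | F.Reachable p.1 p.2}) (Set.toFinite _) ⟨F0, hF0, hF0'⟩
  refine ⟨F, hle, htwo, ?_⟩
  by_contra hcon
  have hex : ∃ u v, G.Adj u v ∧ ¬ F.Reachable u v := by
    by_contra hex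
    push Not at hex
    apply hcon
    intro a b
    obtain ⟨w⟩ := hconn a b
    induction w with
    | nil => exact Reachable.refl _
    | cons hadj _ ih => exact (hex _ _ hadj).trans ih
  obtain ⟨u, v, huv, hnr⟩ := hex
  have hfull := full_of_two hle htwo
  have hu : ¬ TwoN G u := fun h => hnr (Adj.reachable (hfull u v h huv))
  obtain ⟨K, s, P1, P2, hK, huK⟩ := (hT u).resolve_left hu
  have hvK : v ∈ K := by
    by_contra hvK
    have := hK.deg2 u huK v hvK huv
    exact hnr (Adj.reachable (hfull v u this huv.symm)).symm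
  obtain ⟨F', h1, h2, h3, h4⟩ := improve hle htwo hK
  have h5 := hmax F' ⟨h1, h2⟩
  have h6 : {p : V × V | F.Reachable p.1 p.2}.ncard < {p : V × V | F'.Reachable p.1 p.2}.ncard := by
    apply Set.ncard_lt_ncard _ (Set.toFinite _)
    refine ⟨fun p hp => h4 _ _ hp, fun hsub => ?_⟩
    exact hnr (hsub (show (u, v) ∈ {p : V × V | F'.Reachable p.1 p.2} from
      (h3 u huK).symm.trans (h3 v hvK)))
  omega

/-- A connected graph in which each vertex has two neighbours or lies in a gadget has a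
Hamiltonian cycle. -/
theorem hamiltonian_of_covered [Finite V] [DecidableEq V] [Nonempty V] (hconn : G.Preconnected)
    (hT : Covered G) : HasHamiltonianCycle G := by
  obtain ⟨F, hle, htwo, hF⟩ := exists_conn hconn hT
  have hcyc : F.IsCycles := by
    intro v _
    obtain ⟨p, q, hpq, h⟩ := htwo v
    have : F.neighborSet v = {p, q} := by
      ext u
      rw [mem_neighborSet, h]
      simp
    rw [this, Set.ncard_pair hpq]
  obtain ⟨v⟩ := ‹Nonempty V›
  obtain ⟨p, q, hpq, h⟩ := htwo v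
  obtain ⟨w, hw1, hw2⟩ := hcyc.exists_cycle_toSubgraph_verts_eq_connectedComponentSupp
    (v := v) (c := F.connectedComponentMk v) (by simp) ⟨p, (h p).2 (Or.inl rfl)⟩
  have hsupp : ∀ u, u ∈ w.support := by
    intro u
    have : u ∈ w.toSubgraph.verts := by
      rw [hw2]
      exact ConnectedComponent.sound (hF u v)
    simpa using this
  refine ⟨v, w.mapLe hle, ?_⟩
  have : Fintype V := Fintype.ofFinite V
  have hham : w.IsHamiltonianCycle := by
    refine ⟨hw1, ?_⟩
    apply hw1.isPath_tail.isHamiltonian_of_mem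
    intro u
    have hu := hsupp u
    rw [← Walk.cons_support_tail hw1.not_nil] at hu
    rcases List.mem_cons.1 hu with rfl | hu
    · exact Walk.end_mem_support _
    · exact hu
  exact hham.map (f := Hom.ofLE hle) Function.bijective_id

end H87.HC
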