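import Mathlib
import Pool.Agent.H87.HC.Merge

/-!
# The three kinds of gadgets
-/

namespace H87.HC

open SimpleGraph

variable {V : Type} {G F : SimpleGraph V}

/-- A kind of gadget: the number of vertices, the edges of the two patterns, the four terminals
and the inner vertices. -/
structure GType where
  k : ℕ
  p1 : List (ℕ × ℕ)
  p2 : List (ℕ × ℕ)
  ts : List ℕ
  is : List ℕ

/-- Two paths with two vertices each. -/
def tyA : GType := ⟨4, [(0, 1), (2, 3)], [(0, 2), (1, 3)], [0, 1, 2, 3], []⟩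

/-- A path with three vertices and a path with two. -/
def tyB : GType := ⟨5, [(0, 1), (1, 2), (3, 4)], [(0, 3), (1, 4), (1, 2)], [0, 2, 3, 4], [1]⟩

/-- Two paths with three vertices each. -/
def tyC : GType := ⟨6, [(0, 1), (1, 2), (3, 4), (4, 5)], [(0, 4), (4, 5), (1, 3), (1, 2)],
  [0, 2, 3, 5], [1, 4]⟩

/-- The vertices `f 0, ..., f (k - 1)` form a gadget of kind `τ` in `G`. -/
def IsG (G : SimpleGraph V) (τ : GType) (f : ℕ → V) : Prop :=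
  (∀ a < τ.k, ∀ b < τ.k, f a = f b → a = b) ∧
  (∀ e ∈ τ.p1, G.Adj (f e.1) (f e.2)) ∧
  (∀ e ∈ τ.p2, G.Adj (f e.1) (f e.2)) ∧
  (∀ a ∈ τ.ts, ∃ o, (∀ b < τ.k, o ≠ f b) ∧ TwoN G o ∧
    ∀ u, (∀ b < τ.k, u ≠ f b) → (G.Adj (f a) u ↔ u = o)) ∧
  (∀ a ∈ τ.is, ∀ u, (∀ b < τ.k, u ≠ f b) → ¬ G.Adj (f a) u)

/-- The graph with the given edges. -/
def patt (f : ℕ → V) (p : List (ℕ × ℕ)) : SimpleGraph V where
  Adj u v := u ≠ v ∧ ∃ e ∈ p, (u = f e.1 ∧ v = f e.2) ∨ (u = f e.2 ∧ v = f e.1)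
  symm := ⟨fun _ _ h => ⟨h.1.symm, by
    obtain ⟨_, e, he, h⟩ := h
    exact ⟨e, he, by tauto⟩⟩⟩
  loopless := ⟨fun _ h => h.1 rfl⟩

/-- The neighbours of `a`. -/
def nbrs (p : List (ℕ × ℕ)) (a : ℕ) : List ℕ :=
  p.flatMap (fun e => if e.1 = a then [e.2] else if e.2 = a then [e.1] else [])

theorem patt_adj {f : ℕ → V} {k : ℕ} (hinj : ∀ a < k, ∀ b < k, f a = f b → a = b)
    {p : List (ℕ × ℕ)} (hp : ∀ e ∈ p, e.1 < k ∧ e.2 < k ∧ e.1 ≠ e.2) {a : ℕ} (ha : a < k)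
    {u : V} : (patt f p).Adj (f a) u ↔ ∃ b ∈ nbrs p a, u = f b := by
  constructor
  · rintro ⟨h1, e, he, ⟨h2, h3⟩ | ⟨h2, h3⟩⟩
    · have := hinj _ ha _ (hp e he).1 h2
      refine ⟨e.2, ?_, h3⟩
      rw [nbrs, List.mem_flatMap]
      exact ⟨e, he, by rw [if_pos this.symm]; simp⟩
    · have := hinj _ ha _ (hp e he).2.1 h2
      refine ⟨e.1, ?_, h3⟩
      rw [nbrs, List.mem_flatMap]
      refine ⟨e, he, ?_⟩
      rw [if_neg (fun h => (hp e he).2.2 (h.trans this)), if_pos this.symm]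
      simp
  · rintro ⟨b, hb, rfl⟩
    rw [nbrs, List.mem_flatMap] at hb
    obtain ⟨e, he, hb⟩ := hb
    obtain ⟨h1, h2, h3⟩ := hp e he
    split_ifs at hb with h4 h5
    · rw [List.mem_singleton] at hb
      subst hb h4
      exact ⟨fun h => h3 (hinj _ h1 _ h2 h), e, he, Or.inl ⟨rfl, rfl⟩⟩
    · rw [List.mem_singleton] at hb
      subst hb h5
      exact ⟨fun h => h3 (hinj _ h2 _ h1 h).symm, e, he, Or.inr ⟨rfl, rfl⟩⟩
    · simp at hb

/-- The decidable conditions on a kind of gadget. -/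
def GType.WF (τ : GType) : Prop :=
  τ.ts.length = 4 ∧ (∀ a < τ.k, a ∈ τ.ts ∨ a ∈ τ.is) ∧
  (∀ e ∈ τ.p1, e.1 < τ.k ∧ e.2 < τ.k ∧ e.1 ≠ e.2) ∧
  (∀ e ∈ τ.p2, e.1 < τ.k ∧ e.2 < τ.k ∧ e.1 ≠ e.2) ∧
  (∀ a ∈ τ.ts, a < τ.k ∧ (nbrs τ.p1 a).length = 1 ∧ (nbrs τ.p2 a).length = 1) ∧
  (∀ a ∈ τ.is, a < τ.k ∧ (nbrs τ.p1 a).length = 2 ∧ (nbrs τ.p2 a).length = 2 ∧
    (nbrs τ.p1 a).Nodup ∧ (nbrs τ.p2 a).Nodup ∧
    (∀ b ∈ nbrs τ.p1 a, b < τ.k) ∧ (∀ b ∈ nbrs τ.p2 a, b < τ.k))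

instance (τ : GType) : Decidable τ.WF := by unfold GType.WF; infer_instance

theorem wfA : tyA.WF := by decide
theorem wfB : tyB.WF := by decide
theorem wfC : tyC.WF := by decide

theorem oneN_patt {f : ℕ → V} {k : ℕ} (hinj : ∀ a < k, ∀ b < k, f a = f b → a = b)
    {p : List (ℕ × ℕ)} (hp : ∀ e ∈ p, e.1 < k ∧ e.2 < k ∧ e.1 ≠ e.2) {a : ℕ} (ha : a < k)
    (h : (nbrs p a).length = 1) : OneN (patt f p) (f a) := by
  obtain ⟨b, hb⟩ := List.length_eq_one_iff.1 h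
  refine ⟨f b, fun u => ?_⟩
  rw [patt_adj hinj hp ha, hb]
  simp

theorem twoN_patt {f : ℕ → V} {k : ℕ} (hinj : ∀ a < k, ∀ b < k, f a = f b → a = b)
    {p : List (ℕ × ℕ)} (hp : ∀ e ∈ p, e.1 < k ∧ e.2 < k ∧ e.1 ≠ e.2) {a : ℕ} (ha : a < k)
    (h : (nbrs p a).length = 2) (hnd : (nbrs p a).Nodup) (hb : ∀ b ∈ nbrs p a, b < k) :
    TwoN (patt f p) (f a) := by
  obtain ⟨b, b', hbb⟩ := List.length_eq_two.1 h
  rw [hbb] at hnd hb
  refine ⟨f b, f b', fun h => ?_, fun u => ?_⟩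
  · have := hinj _ (hb b (by simp)) _ (hb b' (by simp)) h
    simp [this] at hnd
  · rw [patt_adj hinj hp ha, hbb]
    simp

theorem patt_le {f : ℕ → V} {p : List (ℕ × ℕ)} (h : ∀ e ∈ p, G.Adj (f e.1) (f e.2)) :
    patt f p ≤ G := by
  rintro u v ⟨_, e, he, ⟨rfl, rfl⟩ | ⟨rfl, rfl⟩⟩
  · exact h e he
  · exact (h e he).symm

theorem gad_of_isG {τ : GType} (wf : τ.WF) {f : ℕ → V} (hG : IsG G τ f)
    (conn1 : ∀ (α : Type) (g : ℕ → α), (∀ e ∈ τ.p1, g e.1 = g e.2) →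
      (g (τ.ts.getD 0 0) = g (τ.ts.getD 2 0) ∨ g (τ.ts.getD 0 0) = g (τ.ts.getD 3 0)) →
        ∀ a < τ.k, g (τ.ts.getD 0 0) = g a)
    (conn2 : ∀ (α : Type) (g : ℕ → α), (∀ e ∈ τ.p2, g e.1 = g e.2) →
      g (τ.ts.getD 0 0) = g (τ.ts.getD 1 0) → ∀ a < τ.k, g (τ.ts.getD 0 0) = g a) :
    ∃ K s P1 P2, Gad G K s P1 P2 ∧ ∀ a < τ.k, f a ∈ K := by
  obtain ⟨w1, w2, w3, w4, w5, w6⟩ := wf
  obtain ⟨g1, g2, g3, g4, g5⟩ := hG
  have hts : ∀ i : Fin 4, τ.ts.getD i 0 ∈ τ.ts := by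
    intro i
    rw [List.getD_eq_getElem _ _ (by rw [w1]; exact i.2)]
    exact List.getElem_mem _
  have hcov : ∀ w ∈ {v | ∃ a < τ.k, v = f a}, (∀ i : Fin 4, w ≠ f (τ.ts.getD i 0)) →
      ∃ a ∈ τ.is, w = f a := by
    rintro w ⟨a, ha, rfl⟩ h
    rcases w2 a ha with h' | h'
    · exfalso
      obtain ⟨j, hj, hj'⟩ := List.mem_iff_getElem.1 h'
      refine h ⟨j, by omega⟩ ?_
      show f a = f (τ.ts.getD j 0)
      rw [List.getD_eq_getElem _ _ hj, hj']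
    · exact ⟨a, h', rfl⟩
  refine ⟨{v | ∃ a < τ.k, v = f a}, fun i => f (τ.ts.getD i 0), patt f τ.p1, patt f τ.p2,
    ⟨?_, ?_, ?_, ?_, ?_, ?_, ?_, ?_, ?_, ?_, ?_, ?_, ?_, ?_⟩, fun a ha => ⟨a, ha, rfl⟩⟩
  · intro i
    exact ⟨_, (w5 _ (hts i)).1, rfl⟩
  · intro i
    obtain ⟨o, h1, h2, h3⟩ := g4 _ (hts i)
    refine ⟨o, fun ⟨a, ha, h⟩ => h1 a ha h, fun u hu => h3 u fun b hb h => hu ⟨b, hb, h⟩⟩
  · intro w hw h u hu
    obtain ⟨a, ha, rfl⟩ := hcov w hw h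
    exact g5 a ha u fun b hb h => hu ⟨b, hb, h⟩
  · rintro w ⟨a, ha, rfl⟩ u hu hadj
    have hu' : ∀ b < τ.k, u ≠ f b := fun b hb h => hu ⟨b, hb, h⟩
    rcases w2 a ha with h | h
    · obtain ⟨o, h1, h2, h3⟩ := g4 a h
      rw [(h3 u hu').1 hadj]
      exact h2
    · exact absurd hadj (g5 a h u hu')
  · exact patt_le g2
  · exact patt_le g3
  · rintro a b ⟨_, e, he, ⟨rfl, rfl⟩ | ⟨rfl, rfl⟩⟩
    · exact ⟨_, (w3 e he).1, rfl⟩
    · exact ⟨_, (w3 e he).2.1, rfl⟩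
  · rintro a b ⟨_, e, he, ⟨rfl, rfl⟩ | ⟨rfl, rfl⟩⟩
    · exact ⟨_, (w4 e he).1, rfl⟩
    · exact ⟨_, (w4 e he).2.1, rfl⟩
  · intro i
    have := w5 _ (hts i)
    exact oneN_patt g1 w3 this.1 this.2.1
  · intro i
    have := w5 _ (hts i)
    exact oneN_patt g1 w4 this.1 this.2.2
  · intro w hw h
    obtain ⟨a, ha, rfl⟩ := hcov w hw h
    have := w6 a ha
    exact twoN_patt g1 w3 this.1 this.2.1 this.2.2.2.1 this.2.2.2.2.2.1
  · intro w hw h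
    obtain ⟨a, ha, rfl⟩ := hcov w hw h
    have := w6 a ha
    exact twoN_patt g1 w4 this.1 this.2.2.1 this.2.2.2.2.1 this.2.2.2.2.2.2
  · rintro α g hg h w ⟨a, ha, rfl⟩
    refine conn1 α (g ∘ f) (fun e he => ?_) h a ha
    by_cases hef : f e.1 = f e.2
    · simp only [Function.comp, hef]
    · exact hg _ _ ⟨hef, e, he, Or.inl ⟨rfl, rfl⟩⟩
  · rintro α g hg h w ⟨a, ha, rfl⟩
    refine conn2 α (g ∘ f) (fun e he => ?_) h a ha
    by_cases hef : f e.1 = f e.2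
    · simp only [Function.comp, hef]
    · exact hg _ _ ⟨hef, e, he, Or.inl ⟨rfl, rfl⟩⟩

theorem gadA {f : ℕ → V} (h : IsG G tyA f) :
    ∃ K s P1 P2, Gad G K s P1 P2 ∧ ∀ a < tyA.k, f a ∈ K := by
  refine gad_of_isG wfA h ?_ ?_
  · intro α g hg h a ha
    simp only [tyA, List.mem_cons, List.not_mem_nil, or_false, forall_eq_or_imp, forall_eq,
      List.getD_cons_zero, List.getD_cons_succ] at hg h ha ⊢
    interval_cases a <;> grind
  · intro α g hg h a ha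
    simp only [tyA, List.mem_cons, List.not_mem_nil, or_false, forall_eq_or_imp, forall_eq,
      List.getD_cons_zero, List.getD_cons_succ] at hg h ha ⊢
    interval_cases a <;> grind

theorem gadB {f : ℕ → V} (h : IsG G tyB f) :
    ∃ K s P1 P2, Gad G K s P1 P2 ∧ ∀ a < tyB.k, f a ∈ K := by
  refine gad_of_isG wfB h ?_ ?_
  · intro α g hg h a ha
    simp only [tyB, List.mem_cons, List.not_mem_nil, or_false, forall_eq_or_imp, forall_eq,
      List.getD_cons_zero, List.getD_cons_succ] at hg h ha ⊢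
    interval_cases a <;> grind
  · intro α g hg h a ha
    simp only [tyB, List.mem_cons, List.not_mem_nil, or_false, forall_eq_or_imp, forall_eq,
      List.getD_cons_zero, List.getD_cons_succ] at hg h ha ⊢
    interval_cases a <;> grind

theorem gadC {f : ℕ → V} (h : IsG G tyC f) :
    ∃ K s P1 P2, Gad G K s P1 P2 ∧ ∀ a < tyC.k, f a ∈ K := by
  refine gad_of_isG wfC h ?_ ?_
  · intro α g hg h a ha
    simp only [tyC, List.mem_cons, List.not_mem_nil, or_false, forall_eq_or_imp, forall_eq,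
      List.getD_cons_zero, List.getD_cons_succ] at hg h ha ⊢
    interval_cases a <;> grind
  · intro α g hg h a ha
    simp only [tyC, List.mem_cons, List.not_mem_nil, or_false, forall_eq_or_imp, forall_eq,
      List.getD_cons_zero, List.getD_cons_succ] at hg h ha ⊢
    interval_cases a <;> grind

/-- The condition which the algorithm tests: each vertex has two neighbours or lies in a
gadget. -/
def Tee (G : SimpleGraph V) : Prop :=
  ∀ v, TwoN G v ∨ ∃ τ ∈ [tyA, tyB, tyC], ∃ f : ℕ → V, IsG G τ f ∧ ∃ a < τ.k, v = f a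

theorem covered_of_tee (h : Tee G) : Covered G := by
  intro v
  rcases h v with h | ⟨τ, hτ, f, hf, a, ha, rfl⟩
  · exact Or.inl h
  · right
    simp only [List.mem_cons, List.not_mem_nil, or_false] at hτ
    rcases hτ with rfl | rfl | rfl
    · obtain ⟨K, s, P1, P2, h1, h2⟩ := gadA hf
      exact ⟨K, s, P1, P2, h1, h2 a ha⟩
    · obtain ⟨K, s, P1, P2, h1, h2⟩ := gadB hf
      exact ⟨K, s, P1, P2, h1, h2 a ha⟩
    · obtain ⟨K, s, P1, P2, h1, h2⟩ := gadC hf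
      exact ⟨K, s, P1, P2, h1, h2 a ha⟩

end H87.HC
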