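import Mathlib
import Pool.Agent.PPS.Bits
import Pool.Agent.H87.HC.Gadget

/-!
# The algorithm
-/

namespace H87.HC

open Pool.Agent.PPS

/-- Adjacency in the graph with edge list `E`. -/
def adj (E : List (ℕ × ℕ)) (a b : ℕ) : Bool :=
  !decide (a = b) && (decide ((a, b) ∈ E) || decide ((b, a) ∈ E))

/-- The list of neighbours. -/
def nb (n : ℕ) (E : List (ℕ × ℕ)) (v : ℕ) : List ℕ := (List.range n).filter (fun u => adj E v u)

/-- The vertex `v` has exactly two neighbours. -/
def two (n : ℕ) (E : List (ℕ × ℕ)) (v : ℕ) : Bool := decide ((nb n E v).length = 2)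

/-- All lists of length `k` with entries below `n`. -/
def tuples (n : ℕ) : ℕ → List (List ℕ)
  | 0 => [[]]
  | k + 1 => (tuples n k).flatMap (fun t => (List.range n).map (fun i => i :: t))

/-- The `i`-th entry. -/
def at' (t : List ℕ) (i : ℕ) : ℕ := t.getD i 0

/-- The first `k` entries are distinct. -/
def injB (k : ℕ) (t : List ℕ) : Bool :=
  (List.range k).all (fun x => (List.range k).all (fun y =>
    !decide (at' t x = at' t y) || decide (x = y)))

/-- Entries with the indices in `l` are adjacent. -/
def edgesB (l : List (ℕ × ℕ)) (E : List (ℕ × ℕ)) (t : List ℕ) : Bool :=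
  l.all (fun e => adj E (at' t e.1) (at' t e.2))

/-- The vertex `u` is one of the first `k` entries. -/
def inB (k : ℕ) (t : List ℕ) (u : ℕ) : Bool := (List.range k).any (fun y => decide (u = at' t y))

/-- Rule one. -/
def rem1B (n : ℕ) (E : List (ℕ × ℕ)) (a b : ℕ) : Bool :=
  (nb n E a).any (fun x => two n E x && !decide (b = x) &&
    (nb n E a).any (fun y => !decide (x = y) && two n E y && !decide (b = y)))

/-- The path condition of rule two. -/
def pathB (n : ℕ) (E : List (ℕ × ℕ)) (t : List ℕ) (k : ℕ) : Bool :=
  decide (2 ≤ k) && injB (k + 1) t &&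
    (List.range k).all (fun x => adj E (at' t x) (at' t (x + 1))) &&
    (List.range k).all (fun x => decide (x = 0) || (nb n E (at' t x)).all (inB (k + 1) t))

/-- The position condition of rule two. -/
def chordB (t : List ℕ) (k a b : ℕ) : Bool :=
  (List.range (k + 1)).any (fun i => (List.range (k + 1)).any (fun j => decide (i + 2 ≤ j) &&
    ((decide (a = at' t i) && decide (b = at' t j)) ||
      (decide (a = at' t j) && decide (b = at' t i)))))

/-- Rule two. -/
def rem2B (n : ℕ) (E : List (ℕ × ℕ)) (a b : ℕ) : Bool :=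
  (tuples n 9).any (fun t => (List.range 9).any (fun k => pathB n E t k && chordB t k a b))

/-- The edge may be removed. -/
def remB (n : ℕ) (E : List (ℕ × ℕ)) (e : ℕ × ℕ) : Bool :=
  rem1B n E e.1 e.2 || rem1B n E e.2 e.1 || rem2B n E e.1 e.2

/-- Remove an edge, given as the head of the first list. -/
def rmv (E : List (ℕ × ℕ)) : List (ℕ × ℕ) → List (ℕ × ℕ)
  | [] => E
  | e :: _ => E.filter (fun x => !decide (x = e) && !decide (x = (e.2, e.1)))

/-- One reduction step. -/
def step (n : ℕ) (E : List (ℕ × ℕ)) : List (ℕ × ℕ) := rmv E (E.filter (remB n E))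

/-- Reduce as long as possible. -/
def clean (n : ℕ) (E : List (ℕ × ℕ)) : List (ℕ × ℕ) := (step n)^[E.length] E

/-- The outside neighbour of a terminal. -/
def termB (n : ℕ) (E : List (ℕ × ℕ)) (k : ℕ) (t : List ℕ) (a : ℕ) : Bool :=
  (List.range n).any (fun o => !inB k t o && two n E o &&
    (List.range n).all (fun u => inB k t u || decide (adj E (at' t a) u = decide (u = o))))

/-- Inner vertices have no neighbours outside. -/
def innerB (n : ℕ) (E : List (ℕ × ℕ)) (k : ℕ) (t : List ℕ) (a : ℕ) : Bool :=
  (List.range n).all (fun u => inB k t u || !adj E (at' t a) u)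

/-- The entries form a gadget. -/
def gadB' (τ : GType) (n : ℕ) (E : List (ℕ × ℕ)) (t : List ℕ) : Bool :=
  injB τ.k t && edgesB τ.p1 E t && edgesB τ.p2 E t && τ.ts.all (termB n E τ.k t) &&
    τ.is.all (innerB n E τ.k t)

/-- The vertex `v` lies in a gadget. -/
def inGad (τ : GType) (n : ℕ) (E : List (ℕ × ℕ)) (v : ℕ) : Bool :=
  (tuples n 6).any (fun t => gadB' τ n E t && inB τ.k t v)

/-- Each vertex has two neighbours or lies in a gadget. -/
def teeB (n : ℕ) (E : List (ℕ × ℕ)) : Bool :=
  (List.range n).all (fun v => two n E v || inGad tyA n E v || inGad tyB n E v || inGad tyC n E v)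

/-- One step of the search from the vertex `0`. -/
def grow (n : ℕ) (E : List (ℕ × ℕ)) (S : List ℕ) : List ℕ :=
  (List.range n).filter (fun v => decide (v ∈ S) || S.any (fun u => adj E u v))

/-- The graph is connected. -/
def connB (n : ℕ) (E : List (ℕ × ℕ)) : Bool :=
  (List.range n).all (fun v => decide (v ∈ (grow n E)^[n] [0]))

/-- The vertices are consecutive on the `r`-th segment. -/
def consB (t : List ℕ) (r a b : ℕ) : Bool :=
  (List.range 6).any (fun i =>
    (decide (a = at' t (7 * r + i)) && decide (b = at' t (7 * r + (i + 1)))) ||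
      (decide (a = at' t (7 * r + (i + 1))) && decide (b = at' t (7 * r + i))))

/-- The vertex is an inner vertex of the `r`-th segment. -/
def innB (t : List ℕ) (r a : ℕ) : Bool :=
  (List.range 6).any (fun i => decide (1 ≤ i) && decide (a = at' t (7 * r + i)))

/-- The edge is kept. -/
def keepB (t : List ℕ) (e : ℕ × ℕ) : Bool :=
  (List.range 11).all (fun r => consB t r e.1 e.2 || (!innB t r e.1 && !innB t r e.2))

/-- The branching step. -/
def cut (t : List ℕ) (E : List (ℕ × ℕ)) : List (ℕ × ℕ) := E.filter (keepB t)

/-- The edges of two disjoint long-`H`s. -/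
def twoEdges : List (ℕ × ℕ) :=
  [(0, 1), (1, 2), (0, 3), (3, 4), (0, 5), (5, 6), (2, 7), (7, 8), (2, 9), (9, 10),
   (11, 12), (12, 13), (11, 14), (14, 15), (11, 16), (16, 17), (13, 18), (18, 19), (13, 20),
   (20, 21)]

/-- There are no two disjoint long-`H`s. -/
def freeB (n : ℕ) (E : List (ℕ × ℕ)) : Bool :=
  (tuples n 22).all (fun t => !(injB 22 t && edgesB twoEdges E t))

/-- The edges of the graph presented by the word. -/
def edgesOf (n : ℕ) (w : List Bool) : List (ℕ × ℕ) :=
  (List.range n).flatMap (fun a =>
    ((List.range n).filter (fun b => bitAt w (n + 1 + (a * n + b)))).map (fun b => (a, b)))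

/-- The word which presents the graph. -/
def encB (n : ℕ) (E : List (ℕ × ℕ)) : List Bool :=
  List.replicate n true ++
    (false :: (List.range n).flatMap (fun a => (List.range n).map (fun b => adj E a b)))

/-- The test for graphs with at least sixty vertices. -/
def bigB (n : ℕ) (E : List (ℕ × ℕ)) : Bool :=
  freeB n E && (tuples n 77).any (fun t => connB n (clean n (cut t E)) &&
    teeB n (clean n (cut t E)))

/-- The whole algorithm, with a list of the accepted words for small graphs. -/
def decB (small : List (List Bool)) (w : List Bool) : Bool :=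
  decide (w ∈ small) || (decide (60 ≤ lead w) && decide (w = encB (lead w) (edgesOf (lead w) w)) &&
    bigB (lead w) (edgesOf (lead w) w))

end H87.HC
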