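import Mathlib

/-!
# A checker for refutations of short chords

The vertices `0, ..., 40` stand for the positions `-20, ..., 20` on a Hamiltonian cycle, the
vertices `50, ..., 54` for the five positions around the far end of a chord.
-/

namespace H87.HC

/-- Refutation certificates. -/
inductive Cert : Type
  | nil : Cert
  | cons (h t : Cert) : Cert
  | H (w : ℕ) : Cert
  | ex : Cert
  | node (ty p q : ℕ) (ws : List ℕ) (gens : List (List ℕ)) (kids : Cert) : Cert

namespace Cert

/-- Membership of a natural number in a list. -/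
def memN (a : ℕ) : List ℕ → Bool
  | [] => false
  | b :: l => Nat.beq a b || memN a l

/-- Membership of an unordered pair in a list of pairs. -/
def memP (a b : ℕ) : List (ℕ × ℕ) → Bool
  | [] => false
  | x :: l => (Nat.beq a x.1 && Nat.beq b x.2) || (Nat.beq b x.1 && Nat.beq a x.2) || memP a b l

/-- The list has no repeated element and no element in the bit set `acc`. -/
def nodupN : List ℕ → ℕ → Bool
  | [], _ => true
  | a :: l, acc => Nat.beq (Nat.land acc (Nat.shiftLeft 1 a)) 0 &&
      nodupN l (Nat.lor acc (Nat.shiftLeft 1 a))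

/-- The bit set of the elements below `50`. -/
def mMask : List ℕ → ℕ
  | [] => 0
  | a :: l => bif Nat.ble 50 a then mMask l else Nat.lor (Nat.shiftLeft 1 a) (mMask l)

/-- The bit set of the elements from `50` on, shifted down by `50`. -/
def fMask : List ℕ → ℕ
  | [] => 0
  | a :: l => bif Nat.ble 50 a then Nat.lor (Nat.shiftLeft 1 (a - 50)) (fMask l) else fMask l

/-- The first `k` digits of `w` in base `64`. -/
def digs : ℕ → ℕ → List ℕ
  | 0, _ => []
  | k + 1, w => (w % 64) :: digs k (w / 64)

/-- The adjacencies a witness needs. -/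
def edgesOK (r : ℕ → ℕ → Bool) : List ℕ → Bool
  | [u, m, v, a, a', b, b', c, c', d, d'] =>
    r u m && r m v && r u a && r a a' && r u b && r b b' && r v c && r c c' && r v d && r d d'
  | _ => false

/-- Known adjacency in the main window. -/
def adjB (L : List (ℕ × ℕ)) (a b : ℕ) : Bool :=
  Nat.beq (a + 1) b || Nat.beq (b + 1) a || memP a b L

/-- Known adjacency in the main window and the far window, with the chord from `w` to the
far end. -/
def adjF (L : List (ℕ × ℕ)) (w a b : ℕ) : Bool :=
  (Nat.beq a w && Nat.beq b 52) || (Nat.beq b w && Nat.beq a 52) ||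
    (Nat.beq (a + 1) b && (Nat.ble b 35 || Nat.ble 50 a)) ||
    (Nat.beq (b + 1) a && (Nat.ble a 35 || Nat.ble 50 b)) ||
    (Nat.ble a 35 && Nat.ble b 35 && memP a b L)

/-- All elements of the list satisfy `r`. -/
def allN (r : ℕ → Bool) : List ℕ → Bool
  | [] => true
  | a :: l => r a && allN r l

/-- Some element of the list satisfies `r`. -/
def anyN (r : ℕ → Bool) : List ℕ → Bool
  | [] => false
  | a :: l => r a || anyN r l

/-- A direct witness. -/
def validH (L : List (ℕ × ℕ)) (w : ℕ) : Bool :=
  nodupN (digs 11 w) 0 && allN (fun a => Nat.ble a 40) (digs 11 w) && edgesOK (adjB L) (digs 11 w)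

/-- A generic witness. -/
def validF (L : List (ℕ × ℕ)) (w g : ℕ) : Bool :=
  nodupN (digs 11 g) 0 &&
    allN (fun a => (Nat.ble 5 a && Nat.ble a 35) || (Nat.ble 50 a && Nat.ble a 54)) (digs 11 g) &&
    edgesOK (adjF L w) (digs 11 g)

/-- The generic witness stays valid when the far end is at `t`. -/
def validS (t g : ℕ) : Bool :=
  Nat.beq (Nat.land (mMask (digs 11 g)) (Nat.shiftLeft (fMask (digs 11 g)) (t - 2))) 0

/-- The pairs which need not be considered. -/
def skip (M ty p q : ℕ) (X : List (ℕ × ℕ)) (w t : ℕ) : Bool :=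
  (Nat.ble t (w + 1) && Nat.ble w (t + 1)) || (Nat.blt t (w + M) && Nat.blt w (t + M)) ||
    (Nat.beq ty 0 && Nat.ble p t && Nat.ble t q) || memP w t X

/-- The pairs `(w, t)` that are left to the sub-certificates, for `t = 37, ..., 38 - k`. -/
def todoW (M ty p q : ℕ) (X : List (ℕ × ℕ)) (w : ℕ) (gens : List ℕ) (rest : List (ℕ × ℕ)) :
    ℕ → List (ℕ × ℕ)
  | 0 => rest
  | k + 1 =>
    bif skip M ty p q X w (37 - k) || anyN (validS (37 - k)) gens then
      todoW M ty p q X w gens rest k
    else (w, 37 - k) :: todoW M ty p q X w gens rest k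

/-- All pairs that are left to the sub-certificates. -/
def todo (M ty p q : ℕ) (X : List (ℕ × ℕ)) : List ℕ → List (List ℕ) → List (ℕ × ℕ)
  | w :: ws, g :: gs => todoW M ty p q X w g (todo M ty p q X ws gs) 35
  | _, _ => []

/-- The generic witnesses are valid. -/
def gensOK (L : List (ℕ × ℕ)) : List ℕ → List (List ℕ) → Bool
  | [], [] => true
  | w :: ws, g :: gs =>
    !g.isEmpty && Nat.ble 5 w && Nat.ble w 35 && allN (validF L w) g && gensOK L ws gs
  | _, _ => false

/-- Some known chord lies in `[p, q]`. -/
def chordIn (p q : ℕ) : List (ℕ × ℕ) → Bool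
  | [] => false
  | x :: l => (Nat.ble p x.1 && Nat.ble x.1 q && Nat.ble p x.2 && Nat.ble x.2 q &&
      (Nat.ble (x.1 + 2) x.2 || Nat.ble (x.2 + 2) x.1)) || chordIn p q l

/-- Some known chord ends in `p`. -/
def chordAt (p : ℕ) : List (ℕ × ℕ) → Bool
  | [] => false
  | x :: l => (Nat.ble x.1 40 && Nat.ble x.2 40 && (Nat.beq p x.1 || Nat.beq p x.2) &&
      (Nat.ble (x.1 + 2) x.2 || Nat.ble (x.2 + 2) x.1)) || chordAt p l

/-- The interval from `p + 1` on with `k` elements is covered by `ws`. -/
def covers (ty p : ℕ) (ws : List ℕ) : ℕ → Bool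
  | 0 => true
  | k + 1 => (memN (p + k + 1) ws ||
      (Nat.beq ty 2 && memN (p + k) ws && memN (p + k + 2) ws)) && covers ty p ws k

/-- The rule may be applied. -/
def ruleOK (L : List (ℕ × ℕ)) (ty p q : ℕ) (ws : List ℕ) : Bool :=
  bif Nat.beq ty 1 then Nat.ble 3 p && Nat.ble p 37 && chordAt p L && memN (p - 1) ws &&
    memN (p + 1) ws
  else Nat.ble (p + 2) q && Nat.ble q (p + 8) && Nat.ble 3 p && Nat.ble q 37 && chordIn p q L &&
    covers ty p ws (q - p - 1)

/-- The checker. In mode `none` it checks that the certificate refutes the state in which the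
chords `L` are present and those in `X` absent; in mode `some todo` that it refutes the presence
of each of the chords in `todo`. -/
def chk (M : ℕ) : Cert → Option (List (ℕ × ℕ)) → List (ℕ × ℕ) → List (ℕ × ℕ) → Bool
  | .nil, some [], _, _ => true
  | .cons h t, some (p :: todo), L, X => chk M h none (p :: L) X && chk M t (some todo) L (p :: X)
  | .ex, none, p :: _, X => memP p.1 p.2 X
  | .H w, none, L, _ => validH L w
  | .node ty p q ws gens kids, none, L, X =>
    ruleOK L ty p q ws && gensOK L ws gens && chk M kids (some (todo M ty p q X ws gens)) L X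
  | _, _, _, _ => false

end Cert

end H87.HC
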