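import Mathlib
import Pool.Agent.H87.HC.Defs

/-!
# Hamiltonian cycles as periodic sequences
-/

namespace H87.HC

open SimpleGraph

variable {V : Type}

/-- The sequence `c` of period `n` runs through a Hamiltonian cycle of `G`. -/
structure HamC (G : SimpleGraph V) (n : ℕ) (c : ℤ → V) : Prop where
  three : 3 ≤ n
  inj : ∀ i j, c i = c j ↔ (n : ℤ) ∣ i - j
  surj : Function.Surjective c
  adj : ∀ i, G.Adj (c i) (c (i + 1))

theorem HamC.mono {G G' : SimpleGraph V} {n : ℕ} {c : ℤ → V} (h : HamC G n c)
    (h' : ∀ i, G'.Adj (c i) (c (i + 1))) : HamC G' n c := ⟨h.three, h.inj, h.surj, h'⟩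

theorem HamC.shift {G : SimpleGraph V} {n : ℕ} {c : ℤ → V} (h : HamC G n c) (k : ℤ) :
    HamC G n (fun i => c (i + k)) where
  three := h.three
  inj i j := by
    show c (i + k) = c (j + k) ↔ _
    rw [h.inj]
    ring_nf
  surj v := by
    obtain ⟨i, hi⟩ := h.surj v
    exact ⟨i - k, by simpa using hi⟩
  adj i := by
    have := h.adj (i + k)
    show G.Adj (c (i + k)) (c (i + 1 + k))
    rwa [show i + 1 + k = i + k + 1 by ring]

theorem HamC.reflect {G : SimpleGraph V} {n : ℕ} {c : ℤ → V} (h : HamC G n c) :
    HamC G n (fun i => c (-i)) where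
  three := h.three
  inj i j := by
    show c (-i) = c (-j) ↔ _
    rw [h.inj, ← dvd_neg]
    ring_nf
  surj v := by
    obtain ⟨i, hi⟩ := h.surj v
    exact ⟨-i, by simpa using hi⟩
  adj i := by
    have := h.adj (-i - 1)
    show G.Adj (c (-i)) (c (-(i + 1)))
    rw [show -(i + 1) = -i - 1 by ring]
    rw [show -i - 1 + 1 = -i by ring] at this
    exact this.symm

theorem HamC.card [Fintype V] {G : SimpleGraph V} {n : ℕ} {c : ℤ → V} (h : HamC G n c) :
    Fintype.card V = n := by
  have h0 : (0 : ℤ) < n := by have := h.three; omega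
  rw [← Fintype.card_fin n]
  refine (Fintype.card_of_bijective (f := fun k : Fin n => c k) ⟨?_, ?_⟩).symm
  · intro a b hab
    have h1 : ((a : ℕ) : ℤ) = ((b : ℕ) : ℤ) := by
      have h2 := (h.inj _ _).1 hab
      have ha := a.2
      have hb := b.2
      have h3 := Int.eq_zero_of_abs_lt_dvd h2 (by rw [abs_lt]; constructor <;> omega)
      omega
    exact Fin.ext (by exact_mod_cast h1)
  · intro v
    obtain ⟨i, hi⟩ := h.surj v
    have h1 := Int.emod_nonneg i (ne_of_gt h0)
    have h2 := Int.emod_lt_of_pos i h0
    refine ⟨⟨(i % n).toNat, by omega⟩, ?_⟩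
    rw [← hi]
    show c (((i % n).toNat : ℕ) : ℤ) = c i
    rw [h.inj, Int.toNat_of_nonneg h1]
    exact ⟨-(i / n), by linarith [Int.emod_add_mul_ediv i n]⟩

/-- A Hamiltonian cycle in the sense of Mathlib gives a periodic sequence. -/
theorem exists_hamC [Fintype V] [DecidableEq V] {G : SimpleGraph V}
    (h : HasHamiltonianCycle G) : ∃ c, HamC G (Fintype.card V) c := by
  obtain ⟨a, p, hp⟩ := h
  set n := Fintype.card V with hn
  have hl : p.length = n := hp.length_eq
  have h3 : 3 ≤ n := by rw [← hl]; exact hp.isCycle.three_le_length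
  have h0 : (0 : ℤ) < n := by omega
  have hc : ∀ i : ℤ, ((i % n).toNat : ℤ) = i % n := fun i =>
    Int.toNat_of_nonneg (Int.emod_nonneg i (ne_of_gt h0))
  have hlt : ∀ i : ℤ, (i % n).toNat < n := fun i => by
    have := hc i
    have := Int.emod_lt_of_pos i h0
    omega
  have hinj : ∀ x y : ℕ, x < n → y < n → p.getVert x = p.getVert y → x = y := by
    intro x y hx hy hxy
    have := hp.isCycle.getVert_injOn'
    exact this (by simp only [Set.mem_ofPred_eq]; omega) (by simp only [Set.mem_ofPred_eq]; omega)
      hxy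
  refine ⟨fun i => p.getVert (i % n).toNat, h3, ?_, ?_, ?_⟩
  · intro i j
    show p.getVert (i % n).toNat = p.getVert (j % n).toNat ↔ _
    rw [← Int.emod_eq_emod_iff_emod_sub_eq_zero.trans (Int.dvd_iff_emod_eq_zero).symm]
    constructor
    · intro h
      have := hinj _ _ (hlt i) (hlt j) h
      rw [← hc i, ← hc j, this]
    · intro h
      rw [h]
  · intro v
    have := hp.mem_support v
    rw [Walk.mem_support_iff_exists_getVert] at this
    obtain ⟨k, hk, hkl⟩ := this
    by_cases hkn : k = n
    · refine ⟨0, ?_⟩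
      subst hkn
      have h1 : p.getVert p.length = a := p.getVert_length
      rw [hl] at h1
      rw [h1] at hk
      simpa using hk
    · refine ⟨k, ?_⟩
      have h1 : ((k : ℤ) % n).toNat = k := by
        rw [Int.emod_eq_of_lt (by omega) (by omega)]
        simp
      show p.getVert ((k : ℤ) % n).toNat = v
      rw [h1, hk]
  · intro i
    show G.Adj (p.getVert (i % n).toNat) (p.getVert ((i + 1) % n).toNat)
    have h1 := p.adj_getVert_succ (i := (i % n).toNat) (by rw [hl]; exact hlt i)
    by_cases h2 : (i % n).toNat + 1 = n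
    · have h4 : ((i + 1) % n).toNat = 0 := by
        have : (i + 1) % n = 0 := by
          rw [Int.add_emod, ← hc i]
          have : (1 : ℤ) % n = 1 := Int.emod_eq_of_lt (by omega) (by omega)
          rw [this]
          have : ((i % n).toNat : ℤ) + 1 = n := by exact_mod_cast h2
          rw [this, Int.emod_self]
        rw [this]; rfl
      rw [h4]
      have h5 : p.getVert n = a := by rw [← hl]; exact p.getVert_length
      rw [h2, h5] at h1
      simpa using h1
    · have h4 : ((i + 1) % n).toNat = (i % n).toNat + 1 := by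
        have : (i + 1) % n = (i % n).toNat + 1 := by
          rw [Int.add_emod, ← hc i]
          have : (1 : ℤ) % n = 1 := Int.emod_eq_of_lt (by omega) (by omega)
          rw [this]
          have := hlt i
          exact Int.emod_eq_of_lt (by omega) (by omega)
        rw [this]
        omega
      rwa [h4]

end H87.HC
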