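import Mathlib
import Pool.Agent.H87.HC.Cyc
import Pool.Agent.H87.HC.Check

/-!
# Soundness of the checker
-/

namespace H87.HC

open SimpleGraph Cert

variable {V : Type} {G : SimpleGraph V} {n : ℕ} {c : ℤ → V} {M : ℕ}

/-- Positions `i` and `j` are adjacent, but not consecutive. -/
def Ch (G : SimpleGraph V) (c : ℤ → V) (i j : ℤ) : Prop :=
  G.Adj (c i) (c j) ∧ c j ≠ c (i - 1) ∧ c j ≠ c (i + 1)

/-- Position `i` is the end of a chord. -/
def Fr (G : SimpleGraph V) (c : ℤ → V) (i : ℤ) : Prop := ∃ j, Ch G c i j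

/-- The standing assumptions, together with the absence of chords shorter than `M`. -/
structure Good (G : SimpleGraph V) (n : ℕ) (c : ℤ → V) (M : ℕ) : Prop where
  hc : HamC G n c
  hn : 60 ≤ n
  free : longH.Free G
  r1 : ∀ v, Fr G c v → Fr G c (v - 1) ∨ Fr G c (v + 1)
  r2 : ∀ p q i j : ℤ, p + 2 ≤ q → q ≤ p + 8 → p ≤ i → i + 2 ≤ j → j ≤ q → G.Adj (c i) (c j) →
    ∃ w t, p < w ∧ w < q ∧ G.Adj (c w) (c t) ∧ ∀ s, p ≤ s → s ≤ q → c s ≠ c t
  short : ∀ i j : ℤ, G.Adj (c i) (c j) → i + 2 ≤ j → i + M ≤ j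

theorem HamC.eq_of_lt (hc : HamC G n c) {i j : ℤ} (h : c i = c j) (h1 : i - j < n)
    (h2 : j - i < n) : i = j := by
  have h3 := (hc.inj _ _).1 h
  have h4 := Int.eq_zero_of_abs_lt_dvd h3 (by rw [abs_lt]; constructor <;> omega)
  omega

theorem free_false (hF : longH.Free G) (x : Fin 11 → V) (hx : Function.Injective x)
    (h : ∀ e ∈ longHEdges, G.Adj (x e.1) (x e.2)) : False :=
  hF ⟨⟨⟨x, fun {a b} hab => by
    rcases hab with hab | hab
    · exact h _ hab
    · exact (h _ hab).symm⟩, hx⟩⟩

theorem memN_iff {a : ℕ} {l : List ℕ} : memN a l = true ↔ a ∈ l := by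
  induction l with
  | nil => simp [memN]
  | cons b l ih => simp [memN, ih, Nat.beq_eq]

theorem memP_iff {a b : ℕ} {l : List (ℕ × ℕ)} : memP a b l = true ↔ (a, b) ∈ l ∨ (b, a) ∈ l := by
  induction l with
  | nil => simp [memP]
  | cons x l ih =>
    obtain ⟨x1, x2⟩ := x
    simp only [memP, Bool.or_eq_true, Bool.and_eq_true, Nat.beq_eq, ih, List.mem_cons,
      Prod.mk.injEq]
    tauto

theorem allN_iff {r : ℕ → Bool} {l : List ℕ} : allN r l = true ↔ ∀ a ∈ l, r a = true := by
  induction l with
  | nil => simp [allN]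
  | cons b l ih => simp [allN, ih]

theorem anyN_iff {r : ℕ → Bool} {l : List ℕ} : anyN r l = true ↔ ∃ a ∈ l, r a = true := by
  induction l with
  | nil => simp [anyN]
  | cons b l ih => simp [anyN, ih]

theorem land_one_shift {x a : ℕ} : Nat.land x (Nat.shiftLeft 1 a) = 0 ↔ x.testBit a = false := by
  show x &&& (1 <<< a) = 0 ↔ _
  constructor
  · intro h
    have h1 : (x &&& (1 <<< a)).testBit a = false := by rw [h]; simp
    simpa using h1
  · intro h
    apply Nat.eq_of_testBit_eq
    intro i
    by_cases hi : i = a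
    · subst hi; simp [h]
    · simp only [Nat.testBit_and, Nat.zero_testBit, Bool.and_eq_false_iff]
      right
      rw [Nat.one_shiftLeft, Nat.testBit_two_pow]
      simp [Ne.symm hi]

theorem testBit_lor_shift {x a i : ℕ} : (Nat.lor x (Nat.shiftLeft 1 a)).testBit i = true ↔
    x.testBit i = true ∨ i = a := by
  show (x ||| (1 <<< a)).testBit i = true ↔ _
  rw [Nat.testBit_or, Nat.one_shiftLeft, Nat.testBit_two_pow, Bool.or_eq_true,
    decide_eq_true_iff, @eq_comm _ a i]

theorem nodupN_spec {l : List ℕ} {acc : ℕ} (h : nodupN l acc = true) :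
    l.Nodup ∧ ∀ a ∈ l, acc.testBit a = false := by
  induction l generalizing acc with
  | nil => simp
  | cons b l ih =>
    simp only [nodupN, Bool.and_eq_true, Nat.beq_eq] at h
    obtain ⟨h1, h2⟩ := h
    obtain ⟨h3, h4⟩ := ih h2
    rw [land_one_shift] at h1
    refine ⟨?_, ?_⟩
    · rw [List.nodup_cons]
      refine ⟨fun hb => ?_, h3⟩
      have := h4 b hb
      rw [← Bool.not_eq_true, testBit_lor_shift] at this
      simp at this
    · intro a ha
      rcases List.mem_cons.1 ha with rfl | ha
      · exact h1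
      · have := h4 a ha
        rw [← Bool.not_eq_true, testBit_lor_shift, not_or] at this
        simpa using this.1

theorem testBit_mMask {l : List ℕ} {i : ℕ} (hi : i < 50) (h : i ∈ l) :
    (mMask l).testBit i = true := by
  induction l with
  | nil => simp at h
  | cons b l ih =>
    rw [mMask]
    rcases List.mem_cons.1 h with rfl | h
    · rw [show Nat.ble 50 i = false by rw [← Bool.not_eq_true, Nat.ble_eq]; omega, cond_false]
      show ((1 <<< i) ||| mMask l).testBit i = true
      rw [Nat.testBit_or, Nat.one_shiftLeft, Nat.testBit_two_pow]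
      simp
    · cases hb : Nat.ble 50 b
      · rw [cond_false]
        show ((1 <<< b) ||| mMask l).testBit i = true
        rw [Nat.testBit_or, ih h, Bool.or_true]
      · rw [cond_true]
        exact ih h

theorem testBit_fMask {l : List ℕ} {i : ℕ} (hi : 50 ≤ i) (h : i ∈ l) :
    (fMask l).testBit (i - 50) = true := by
  induction l with
  | nil => simp at h
  | cons b l ih =>
    rw [fMask]
    rcases List.mem_cons.1 h with rfl | h
    · rw [show Nat.ble 50 i = true by rw [Nat.ble_eq]; omega, cond_true]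
      show ((1 <<< (i - 50)) ||| fMask l).testBit (i - 50) = true
      rw [Nat.testBit_or, Nat.one_shiftLeft, Nat.testBit_two_pow]
      simp
    · cases hb : Nat.ble 50 b
      · rw [cond_false]
        exact ih h
      · rw [cond_true]
        show ((1 <<< (b - 50)) ||| fMask l).testBit (i - 50) = true
        rw [Nat.testBit_or, ih h, Bool.or_true]

/-- If the two bit sets are disjoint, no main index equals a shifted far index. -/
theorem validS_spec {t g a b : ℕ} (h : validS t g = true) (ha : a ∈ digs 11 g) (ha' : a < 50)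
    (hb : b ∈ digs 11 g) (hb' : 50 ≤ b) : a ≠ (t - 2) + (b - 50) := by
  intro hab
  have h1 := testBit_mMask ha' ha
  have h2 := testBit_fMask hb' hb
  rw [validS, Nat.beq_eq] at h
  have h3 : (mMask (digs 11 g) &&& (fMask (digs 11 g) <<< (t - 2))).testBit a = false := by
    have : mMask (digs 11 g) &&& (fMask (digs 11 g) <<< (t - 2)) = 0 := h
    rw [this]
    simp
  rw [Nat.testBit_and, h1, Nat.testBit_shiftLeft] at h3
  have h4 : a - (t - 2) = b - 50 := by omega
  rw [h4, h2] at h3
  simp at h3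
  omega

theorem no_wit (hF : longH.Free G) {r : ℕ → ℕ → Bool} {l : List ℕ} (he : edgesOK r l = true)
    (hnd : l.Nodup) (φ : ℕ → V) (hφ : ∀ a ∈ l, ∀ b ∈ l, φ a = φ b → a = b)
    (hr : ∀ a ∈ l, ∀ b ∈ l, r a b = true → G.Adj (φ a) (φ b)) : False := by
  match l, he with
  | [u, m, v, a, a', b, b', e, e', d, d'], he =>
    simp only [edgesOK, Bool.and_eq_true] at he
    obtain ⟨⟨⟨⟨⟨⟨⟨⟨⟨h1, h2⟩, h3⟩, h4⟩, h5⟩, h6⟩, h7⟩, h8⟩, h9⟩, h10⟩ := he
    refine free_false hF (fun i : Fin 11 => φ ([u, m, v, a, a', b, b', e, e', d, d'].get i)) ?_ ?_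
    · intro i j hij
      have := hφ _ (List.get_mem [u, m, v, a, a', b, b', e, e', d, d'] i) _
        (List.get_mem [u, m, v, a, a', b, b', e, e', d, d'] j) hij
      exact List.nodup_iff_injective_get.1 hnd this
    · intro x hx
      simp only [longHEdges, List.mem_cons, List.not_mem_nil, or_false] at hx
      rcases hx with rfl | rfl | rfl | rfl | rfl | rfl | rfl | rfl | rfl | rfl
      · exact hr u (by simp) m (by simp) h1
      · exact hr m (by simp) v (by simp) h2
      · exact hr u (by simp) a (by simp) h3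
      · exact hr a (by simp) a' (by simp) h4
      · exact hr u (by simp) b (by simp) h5
      · exact hr b (by simp) b' (by simp) h6
      · exact hr v (by simp) e (by simp) h7
      · exact hr e (by simp) e' (by simp) h8
      · exact hr v (by simp) d (by simp) h9
      · exact hr d (by simp) d' (by simp) h10

/-- Adjacency of window indices. -/
def AW (G : SimpleGraph V) (c : ℤ → V) (a b : ℕ) : Prop :=
  G.Adj (c ((a : ℤ) - 20)) (c ((b : ℤ) - 20))

theorem AW_symm {a b : ℕ} (h : AW G c a b) : AW G c b a := G.symm.symm _ _ h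

theorem AW_memP {L : List (ℕ × ℕ)} (hL : ∀ p ∈ L, AW G c p.1 p.2) {a b : ℕ}
    (h : memP a b L = true) : AW G c a b := by
  rcases memP_iff.1 h with h | h
  · exact hL _ h
  · exact AW_symm (hL _ h)

theorem AW_succ (hc : HamC G n c) {a b : ℕ} (h : a + 1 = b) : AW G c a b := by
  subst h
  have := hc.adj ((a : ℤ) - 20)
  unfold AW
  rwa [show ((a + 1 : ℕ) : ℤ) - 20 = (a : ℤ) - 20 + 1 by push_cast; ring]

theorem validH_false (hG : Good G n c M) {L : List (ℕ × ℕ)} (hL : ∀ p ∈ L, AW G c p.1 p.2)
    {w : ℕ} (h : validH L w = true) : False := by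
  simp only [validH, Bool.and_eq_true] at h
  obtain ⟨⟨h1, h2⟩, h3⟩ := h
  rw [allN_iff] at h2
  refine no_wit hG.free h3 (nodupN_spec h1).1 (fun a => c ((a : ℤ) - 20)) ?_ ?_
  · intro a ha b hb hab
    have ha' := h2 a ha
    have hb' := h2 b hb
    rw [Nat.ble_eq] at ha' hb'
    have hn := hG.hn
    have := hG.hc.eq_of_lt hab (by omega) (by omega)
    omega
  · intro a ha b hb hab
    simp only [adjB, Bool.or_eq_true, Nat.beq_eq] at hab
    rcases hab with (hab | hab) | hab
    · exact AW_succ hG.hc hab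
    · exact AW_symm (AW_succ hG.hc hab)
    · exact AW_memP hL hab

/-- The position of an index when the far end is at `T`. -/
def posF (T : ℤ) (a : ℕ) : ℤ := if 50 ≤ a then T + ((a : ℤ) - 52) else (a : ℤ) - 20

theorem validF_false (hG : Good G n c M) {L : List (ℕ × ℕ)} (hL : ∀ p ∈ L, AW G c p.1 p.2)
    {w g : ℕ} {T : ℤ} (hw : w ≤ 35) (hT : G.Adj (c ((w : ℤ) - 20)) (c T))
    (h : validF L w g = true)
    (hd : ∀ a ∈ digs 11 g, ∀ b ∈ digs 11 g, 5 ≤ a → a ≤ 35 → 50 ≤ b → b ≤ 54 →
      c ((a : ℤ) - 20) ≠ c (T + ((b : ℤ) - 52))) : False := by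
  simp only [validF, Bool.and_eq_true] at h
  obtain ⟨⟨h1, h2⟩, h3⟩ := h
  rw [allN_iff] at h2
  have h2' : ∀ a ∈ digs 11 g, (5 ≤ a ∧ a ≤ 35) ∨ (50 ≤ a ∧ a ≤ 54) := by
    intro a ha
    have := h2 a ha
    simpa only [Bool.or_eq_true, Bool.and_eq_true, Nat.ble_eq] using this
  have hn := hG.hn
  refine no_wit hG.free h3 (nodupN_spec h1).1 (fun a => c (posF T a)) ?_ ?_
  · intro a ha b hb hab
    rcases h2' a ha with ha' | ha' <;> rcases h2' b hb with hb' | hb'
    · have hab' : c ((a : ℤ) - 20) = c ((b : ℤ) - 20) := by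
        simpa only [posF, if_neg (show ¬ 50 ≤ a by omega), if_neg (show ¬ 50 ≤ b by omega)]
          using hab
      have := hG.hc.eq_of_lt hab' (by omega) (by omega)
      omega
    · have hab' : c ((a : ℤ) - 20) = c (T + ((b : ℤ) - 52)) := by
        simpa only [posF, if_neg (show ¬ 50 ≤ a by omega), if_pos (show 50 ≤ b by omega)]
          using hab
      exact absurd hab' (hd a ha b hb ha'.1 ha'.2 hb'.1 hb'.2)
    · have hab' : c (T + ((a : ℤ) - 52)) = c ((b : ℤ) - 20) := by
        simpa only [posF, if_pos (show 50 ≤ a by omega), if_neg (show ¬ 50 ≤ b by omega)]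
          using hab
      exact absurd hab'.symm (hd b hb a ha hb'.1 hb'.2 ha'.1 ha'.2)
    · have hab' : c (T + ((a : ℤ) - 52)) = c (T + ((b : ℤ) - 52)) := by
        simpa only [posF, if_pos (show 50 ≤ a by omega), if_pos (show 50 ≤ b by omega)]
          using hab
      have := hG.hc.eq_of_lt hab' (by omega) (by omega)
      omega
  · intro a ha b hb hab
    show G.Adj (c (posF T a)) (c (posF T b))
    have hsucc : ∀ x y : ℕ, x + 1 = y → (y ≤ 35 ∨ 50 ≤ x) → G.Adj (c (posF T x)) (c (posF T y)) := by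
      intro x y hxy h
      have := hG.hc.adj (posF T x)
      rcases h with h | h
      · have e : posF T x + 1 = posF T y := by
          simp only [posF, if_neg (show ¬ 50 ≤ x by omega), if_neg (show ¬ 50 ≤ y by omega)]
          omega
        rwa [e] at this
      · have e : posF T x + 1 = posF T y := by
          simp only [posF, if_pos (show 50 ≤ x by omega), if_pos (show 50 ≤ y by omega)]
          omega
        rwa [e] at this
    have h52 : posF T 52 = T := by simp [posF]
    have hww : posF T w = (w : ℤ) - 20 := by simp only [posF, if_neg (show ¬ 50 ≤ w by omega)]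
    simp only [adjF, Bool.or_eq_true, Bool.and_eq_true, Nat.beq_eq, Nat.ble_eq] at hab
    rcases hab with (((⟨rfl, rfl⟩ | ⟨rfl, rfl⟩) | ⟨h, h'⟩) | ⟨h, h'⟩) | ⟨⟨h, h'⟩, h''⟩
    · rw [h52, hww]; exact hT
    · rw [h52, hww]; exact hT.symm
    · exact hsucc a b h h'
    · exact (hsucc b a h h').symm
    · have := AW_memP hL h''
      simpa only [AW, posF, if_neg (show ¬ 50 ≤ a by omega), if_neg (show ¬ 50 ≤ b by omega)]
        using this

theorem chordIn_spec {p q : ℕ} {L : List (ℕ × ℕ)} (hL : ∀ p ∈ L, AW G c p.1 p.2)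
    (h : chordIn p q L = true) : ∃ i j, p ≤ i ∧ i + 2 ≤ j ∧ j ≤ q ∧ AW G c i j := by
  induction L with
  | nil => simp [chordIn] at h
  | cons x L ih =>
    simp only [chordIn, Bool.or_eq_true, Bool.and_eq_true, Nat.ble_eq] at h
    rcases h with ⟨h, h' | h'⟩ | h
    · exact ⟨x.1, x.2, by omega, by omega, by omega, hL x (by simp)⟩
    · exact ⟨x.2, x.1, by omega, by omega, by omega, AW_symm (hL x (by simp))⟩
    · exact ih (fun p hp => hL p (List.mem_cons_of_mem _ hp)) h

theorem chordAt_spec {p : ℕ} {L : List (ℕ × ℕ)} (hL : ∀ p ∈ L, AW G c p.1 p.2)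
    (h : chordAt p L = true) : ∃ j, (p + 2 ≤ j ∨ j + 2 ≤ p) ∧ j ≤ 40 ∧ AW G c p j := by
  induction L with
  | nil => simp [chordAt] at h
  | cons x L ih =>
    simp only [chordAt, Bool.or_eq_true, Bool.and_eq_true, Nat.ble_eq, Nat.beq_eq] at h
    rcases h with ⟨⟨⟨h1, h2⟩, h' | h'⟩, h''⟩ | h
    · subst h'
      exact ⟨x.2, h'', h2, hL x (by simp)⟩
    · subst h'
      exact ⟨x.1, h''.symm, h1, AW_symm (hL x (by simp))⟩
    · exact ih (fun p hp => hL p (List.mem_cons_of_mem _ hp)) h

theorem covers_spec {ty p : ℕ} {ws : List ℕ} {k : ℕ} (h : covers ty p ws k = true) {w : ℕ}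
    (h1 : p < w) (h2 : w ≤ p + k) : w ∈ ws ∨ (ty = 2 ∧ w - 1 ∈ ws ∧ w + 1 ∈ ws) := by
  induction k with
  | zero => omega
  | succ k ih =>
    simp only [covers, Bool.or_eq_true, Bool.and_eq_true, Nat.beq_eq, memN_iff] at h
    by_cases hw : w = p + k + 1
    · subst hw
      rcases h.1 with h | h
      · exact Or.inl h
      · exact Or.inr ⟨h.1.1, h.1.2, h.2⟩
    · exact ih h.2 (by omega)

/-- Some chord exists, as the rule says. -/
theorem rule_spec (hG : Good G n c M) {L : List (ℕ × ℕ)} (hL : ∀ p ∈ L, AW G c p.1 p.2)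
    {ty p q : ℕ} {ws : List ℕ} (h : ruleOK L ty p q ws = true) :
    ∃ w ∈ ws, ∃ T, Ch G c ((w : ℤ) - 20) T ∧
      (ty = 0 → ∀ s : ℕ, p ≤ s → s ≤ q → c ((s : ℤ) - 20) ≠ c T) := by
  have hn := hG.hn
  rw [ruleOK] at h
  by_cases hty : ty = 1
  · subst hty
    simp only [show Nat.beq 1 1 = true from rfl, cond_true, Bool.and_eq_true, Nat.ble_eq,
      memN_iff] at h
    obtain ⟨⟨⟨⟨h1, h2⟩, h3⟩, h4⟩, h5⟩ := h
    obtain ⟨j, hj, hj', hA⟩ := chordAt_spec hL h3
    have hfr : Fr G c ((p : ℤ) - 20) := by
      refine ⟨_, hA, ?_, ?_⟩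
      · intro he
        have := hG.hc.eq_of_lt he (by omega) (by omega)
        omega
      · intro he
        have := hG.hc.eq_of_lt he (by omega) (by omega)
        omega
    rcases hG.r1 _ hfr with ⟨T, hT⟩ | ⟨T, hT⟩
    · refine ⟨p - 1, h4, T, ?_, by simp⟩
      rwa [show ((p - 1 : ℕ) : ℤ) - 20 = (p : ℤ) - 20 - 1 by omega]
    · refine ⟨p + 1, h5, T, ?_, by simp⟩
      rwa [show ((p + 1 : ℕ) : ℤ) - 20 = (p : ℤ) - 20 + 1 by omega]
  · have hb : Nat.beq ty 1 = false := by
      rw [← Bool.not_eq_true, Nat.beq_eq]; exact hty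
    simp only [hb, cond_false, Bool.and_eq_true, Nat.ble_eq] at h
    obtain ⟨⟨⟨⟨⟨h1, h2⟩, h3⟩, h4⟩, h5⟩, h6⟩ := h
    obtain ⟨i, j, hi, hij, hj, hA⟩ := chordIn_spec hL h5
    obtain ⟨w, T, hw1, hw2, hwT, hs⟩ := hG.r2 ((p : ℤ) - 20) ((q : ℤ) - 20) _ _ (by omega)
      (by omega) (by omega) (by omega) (by omega) hA
    obtain ⟨w', hw'⟩ : ∃ w' : ℕ, (w' : ℤ) - 20 = w := ⟨(w + 20).toNat, by omega⟩
    subst hw'
    have hch : Ch G c ((w' : ℤ) - 20) T :=
      ⟨hwT, fun h => hs ((w' : ℤ) - 20 - 1) (by omega) (by omega) h.symm,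
        fun h => hs ((w' : ℤ) - 20 + 1) (by omega) (by omega) h.symm⟩
    rcases covers_spec h6 (w := w') (by omega) (by omega) with h7 | h7
    · exact ⟨w', h7, T, hch, fun _ s hs1 hs2 => hs _ (by omega) (by omega)⟩
    · rcases hG.r1 _ ⟨T, hch⟩ with ⟨T', hT'⟩ | ⟨T', hT'⟩
      · refine ⟨w' - 1, h7.2.1, T', ?_, by omega⟩
        rwa [show ((w' - 1 : ℕ) : ℤ) - 20 = (w' : ℤ) - 20 - 1 by omega]
      · refine ⟨w' + 1, h7.2.2, T', ?_, by omega⟩
        rwa [show ((w' + 1 : ℕ) : ℤ) - 20 = (w' : ℤ) - 20 + 1 by omega]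

theorem mem_todoW {M ty p q : ℕ} {X : List (ℕ × ℕ)} {w : ℕ} {gens : List ℕ}
    {rest : List (ℕ × ℕ)} {k : ℕ} (hk : k ≤ 35) {x : ℕ × ℕ} :
    x ∈ todoW M ty p q X w gens rest k ↔ x ∈ rest ∨ (x.1 = w ∧ 38 - k ≤ x.2 ∧ x.2 ≤ 37 ∧
      skip M ty p q X w x.2 = false ∧ anyN (validS x.2) gens = false) := by
  induction k with
  | zero => simp only [todoW]; constructor
            · exact Or.inl
            · rintro (h | ⟨_, h1, h2, _⟩)
              · exact h
              · omega
  | succ k ih =>
    rw [todoW]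
    cases hs : (skip M ty p q X w (37 - k) || anyN (validS (37 - k)) gens)
    · rw [cond_false, List.mem_cons, ih (by omega)]
      rw [Bool.or_eq_false_iff] at hs
      constructor
      · rintro (rfl | h | ⟨h1, h2, h3⟩)
        · exact Or.inr ⟨rfl, by simp only; omega, by simp only; omega, hs.1, hs.2⟩
        · exact Or.inl h
        · exact Or.inr ⟨h1, by omega, h3⟩
      · rintro (h | ⟨h1, h2, h3⟩)
        · exact Or.inr (Or.inl h)
        · by_cases hx : x.2 = 37 - k
          · left
            exact Prod.ext h1 hx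
          · exact Or.inr (Or.inr ⟨h1, by omega, h3⟩)
    · rw [cond_true, ih (by omega)]
      rw [Bool.or_eq_true] at hs
      constructor
      · rintro (h | ⟨h1, h2, h3⟩)
        · exact Or.inl h
        · exact Or.inr ⟨h1, by omega, h3⟩
      · rintro (h | ⟨h1, h2, h3, h4, h5⟩)
        · exact Or.inl h
        · by_cases hx : x.2 = 37 - k
          · rw [hx] at h4 h5
            rw [h4, h5] at hs
            simp at hs
          · exact Or.inr ⟨h1, by omega, h3, h4, h5⟩

theorem exists_gens {L : List (ℕ × ℕ)} {ws : List ℕ} {gens : List (List ℕ)}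
    (h : gensOK L ws gens = true) {w : ℕ} (hw : w ∈ ws) :
    ∃ g, 5 ≤ w ∧ w ≤ 35 ∧ g ≠ [] ∧ (∀ x ∈ g, validF L w x = true) ∧
      ∀ M ty p q X t, 3 ≤ t → t ≤ 37 → skip M ty p q X w t = false →
        anyN (validS t) g = false → (w, t) ∈ todo M ty p q X ws gens := by
  induction ws generalizing gens with
  | nil => simp at hw
  | cons w' ws ih =>
    match gens, h with
    | g :: gs, h =>
      simp only [gensOK, Bool.and_eq_true, Bool.not_eq_true', Nat.ble_eq, allN_iff] at h
      obtain ⟨⟨⟨⟨h1, h2⟩, h3⟩, h4⟩, h5⟩ := h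
      rcases List.mem_cons.1 hw with rfl | hw
      · refine ⟨g, h2, h3, by simpa using h1, h4, ?_⟩
        intro M ty p q X t ht1 ht2 hs ha
        rw [todo, mem_todoW le_rfl]
        exact Or.inr ⟨rfl, ht1, ht2, hs, ha⟩
      · obtain ⟨g', a1, a2, a3, a4, a5⟩ := ih h5 hw
        refine ⟨g', a1, a2, a3, a4, ?_⟩
        intro M ty p q X t ht1 ht2 hs ha
        rw [todo, mem_todoW le_rfl]
        exact Or.inl (a5 M ty p q X t ht1 ht2 hs ha)

/-- The meaning of a successful check. -/
def Meaning (G : SimpleGraph V) (c : ℤ → V) : Option (List (ℕ × ℕ)) → Prop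
  | none => False
  | some todo => ∀ p ∈ todo, ¬ AW G c p.1 p.2

theorem chk_sound (hG : Good G n c M) (C : Cert) : ∀ (m : Option (List (ℕ × ℕ)))
    (L X : List (ℕ × ℕ)), chk M C m L X = true → (∀ p ∈ L, AW G c p.1 p.2) →
    (∀ p ∈ X, ¬ AW G c p.1 p.2) → Meaning G c m := by
  induction C with
  | nil =>
    intro m L X h hL hX
    match m, h with
    | some [], _ => intro p hp; simp at hp
  | cons a b iha ihb =>
    intro m L X h hL hX
    match m, h with
    | some (p :: todo), h =>
      simp only [chk, Bool.and_eq_true] at h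
      have h1 : ¬ AW G c p.1 p.2 := by
        intro hp
        exact iha none (p :: L) X h.1 (by
          intro x hx
          rcases List.mem_cons.1 hx with rfl | hx
          · exact hp
          · exact hL x hx) hX
      have h2 := ihb (some todo) L (p :: X) h.2 hL (by
          intro x hx
          rcases List.mem_cons.1 hx with rfl | hx
          · exact h1
          · exact hX x hx)
      intro x hx
      rcases List.mem_cons.1 hx with rfl | hx
      · exact h1
      · exact h2 x hx
  | H w =>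
    intro m L X h hL hX
    match m, h with
    | none, h => exact validH_false hG hL h
  | ex =>
    intro m L X h hL hX
    match m, L, h with
    | none, p :: L, h =>
      have hp := hL p (by simp)
      rcases memP_iff.1 h with h | h
      · exact hX _ h hp
      · exact hX _ h (AW_symm hp)
  | node ty p q ws gens kids ih =>
    intro m L X h hL hX
    match m, h with
    | none, h =>
      simp only [chk, Bool.and_eq_true] at h
      obtain ⟨⟨h1, h2⟩, h3⟩ := h
      have h4 := ih _ _ _ h3 hL hX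
      obtain ⟨w, hw, T, hT, hty⟩ := rule_spec hG hL h1
      obtain ⟨g, g1, g2, g3, g4, g5⟩ := exists_gens h2 hw
      have hn := hG.hn
      by_cases hfar : ∀ k : ℤ, -17 ≤ k → k ≤ 17 → c T ≠ c k
      · obtain ⟨x, hx⟩ := List.exists_mem_of_ne_nil g g3
        refine validF_false hG hL g2 hT.1 (g4 x hx) ?_
        intro a _ b _ ha1 ha2 hb1 hb2 he
        refine hfar ((a : ℤ) - 20 - ((b : ℤ) - 52)) (by omega) (by omega) ?_
        rw [hG.hc.inj] at he ⊢
        have : T - ((a : ℤ) - 20 - ((b : ℤ) - 52)) = -((a : ℤ) - 20 - (T + ((b : ℤ) - 52))) := by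
          ring
        rw [this, dvd_neg]
        exact he
      · push Not at hfar
        obtain ⟨k, hk1, hk2, hk⟩ := hfar
        obtain ⟨t, ht⟩ : ∃ t : ℕ, (t : ℤ) - 20 = k := ⟨(k + 20).toNat, by omega⟩
        subst ht
        have hA : AW G c w t := by
          have := hT.1
          rwa [hk] at this
        have hne1 : t ≠ w := by
          rintro rfl
          exact G.loopless.irrefl _ hA
        have hne2 : t + 1 ≠ w := by
          rintro rfl
          apply hT.2.1
          rw [hk]
          congr 1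
          push_cast; ring
        have hne3 : t ≠ w + 1 := by
          rintro rfl
          apply hT.2.2
          rw [hk]
          congr 1
          push_cast; ring
        have hsk : skip M ty p q X w t = false := by
          rw [← Bool.not_eq_true]
          intro hs
          simp only [skip, Bool.or_eq_true, Bool.and_eq_true, Nat.ble_eq, Nat.blt_eq,
            Nat.beq_eq] at hs
          rcases hs with ((hs | hs) | hs) | hs
          · omega
          · rcases lt_or_gt_of_ne hne1 with h | h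
            · have := hG.short _ _ (AW_symm hA) (by omega)
              omega
            · have := hG.short _ _ hA (by omega)
              omega
          · exact hty hs.1.1 t hs.1.2 hs.2 hk.symm
          · rcases memP_iff.1 hs with h | h
            · exact hX _ h hA
            · exact hX _ h (AW_symm hA)
        by_cases hany : anyN (validS t) g = true
        · obtain ⟨x, hx, hv⟩ := anyN_iff.1 hany
          refine validF_false hG hL g2 hA (g4 x hx) ?_
          intro a ha b hb ha1 ha2 hb1 hb2 he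
          have h5 := hG.hc.eq_of_lt he (by omega) (by omega)
          exact validS_spec hv ha (by omega) hb (by omega) (by omega)
        · exact h4 (w, t) (g5 M ty p q X t (by omega) (by omega) hsk (by simpa using hany)) hA

end H87.HC
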