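import Mathlib
import Pool.Agent.H87.HC.Sound
import Pool.Agent.H87.HC.Certs
import Pool.Agent.H87.HC.Certs2

/-!
# There are no chords of length at most five
-/

namespace H87.HC

open SimpleGraph Cert

variable {V : Type} {G : SimpleGraph V} {n : ℕ} {c : ℤ → V} {M : ℕ}

theorem Ch_shift {k i j : ℤ} : Ch G (fun x => c (x + k)) i j ↔ Ch G c (i + k) (j + k) := by
  unfold Ch
  show G.Adj (c (i + k)) (c (j + k)) ∧ c (j + k) ≠ c (i - 1 + k) ∧ c (j + k) ≠ c (i + 1 + k) ↔ _
  rw [show i - 1 + k = i + k - 1 by ring, show i + 1 + k = i + k + 1 by ring]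

theorem Ch_congr {i i' j j' : ℤ} (hc : HamC G n c) (h : Ch G c i j) (hi : c i = c i')
    (hj : c j = c j') : Ch G c i' j' := by
  have h1 : c (i - 1) = c (i' - 1) := by
    rw [hc.inj] at hi ⊢
    rwa [show i - 1 - (i' - 1) = i - i' by ring]
  have h2 : c (i + 1) = c (i' + 1) := by
    rw [hc.inj] at hi ⊢
    rwa [show i + 1 - (i' + 1) = i - i' by ring]
  unfold Ch at *
  rw [hi, hj, h1, h2] at h
  exact h

theorem Ch.symm (hc : HamC G n c) {i j : ℤ} (h : Ch G c i j) : Ch G c j i := by
  refine ⟨h.1.symm, fun h' => h.2.2 ?_, fun h' => h.2.1 ?_⟩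
  · rw [hc.inj] at h' ⊢
    rw [show j - (i + 1) = -(i - (j - 1)) by ring, dvd_neg]
    exact h'
  · rw [hc.inj] at h' ⊢
    rw [show j - (i - 1) = -(i - (j + 1)) by ring, dvd_neg]
    exact h'

theorem Fr_shift {k i : ℤ} : Fr G (fun x => c (x + k)) i ↔ Fr G c (i + k) := by
  constructor
  · rintro ⟨j, hj⟩
    exact ⟨j + k, Ch_shift.1 hj⟩
  · rintro ⟨j, hj⟩
    exact ⟨j - k, Ch_shift.2 (by rwa [sub_add_cancel])⟩

theorem Good.shift (hG : Good G n c M) (k : ℤ) : Good G n (fun x => c (x + k)) M where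
  hc := hG.hc.shift k
  hn := hG.hn
  free := hG.free
  r1 v h := by
    rw [Fr_shift] at h
    rcases hG.r1 _ h with h | h
    · left
      rw [Fr_shift]
      rwa [show v - 1 + k = v + k - 1 by ring]
    · right
      rw [Fr_shift]
      rwa [show v + 1 + k = v + k + 1 by ring]
  r2 p q i j h1 h2 h3 h4 h5 h6 := by
    obtain ⟨w, t, a1, a2, a3, a4⟩ := hG.r2 (p + k) (q + k) (i + k) (j + k) (by omega) (by omega)
      (by omega) (by omega) (by omega) h6
    refine ⟨w - k, t - k, by omega, by omega, ?_, ?_⟩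
    · show G.Adj (c (w - k + k)) (c (t - k + k))
      rwa [sub_add_cancel, sub_add_cancel]
    · intro s hs1 hs2
      show c (s + k) ≠ c (t - k + k)
      rw [sub_add_cancel]
      exact a4 _ (by omega) (by omega)
  short i j h h' := by
    have := hG.short (i + k) (j + k) h (by omega)
    omega

theorem Good.step (hG : Good G n c M) {C : Cert} (h : chk M C none [(20, 20 + M)] [] = true) :
    Good G n c (M + 1) := by
  refine ⟨hG.hc, hG.hn, hG.free, hG.r1, hG.r2, ?_⟩
  intro i j hA hij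
  have h1 := hG.short i j hA hij
  by_contra h2
  have h3 : j = i + M := by push_cast at h2; omega
  subst h3
  refine chk_sound (hG.shift i) C none _ _ h ?_ (by simp)
  intro p hp
  rw [List.mem_singleton] at hp
  subst hp
  show G.Adj (c (((20 : ℕ) : ℤ) - 20 + i)) (c (((20 + M : ℕ) : ℤ) - 20 + i))
  rw [show ((20 : ℕ) : ℤ) - 20 + i = i by push_cast; ring,
    show ((20 + M : ℕ) : ℤ) - 20 + i = i + M by push_cast; ring]
  exact hA

/-- There are no chords of length at most five. -/
theorem Good.six (hG : Good G n c 2) : Good G n c 6 :=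
  (((hG.step chk_cert2).step chk_cert3).step chk_cert4).step chk_cert5

/-- Normal form of the far end of a chord. -/
theorem Good.norm (hG : Good G n c 6) {i j : ℤ} (h : Ch G c i j) :
    ∃ j', c j' = c j ∧ i + 6 ≤ j' ∧ j' ≤ i + n - 6 := by
  have hn := hG.hn
  have h0 : (0 : ℤ) < n := by omega
  have e1 := Int.emod_nonneg (j - i) (ne_of_gt h0)
  have e2 := Int.emod_lt_of_pos (j - i) h0
  obtain ⟨r, hr⟩ : ∃ r, r = (j - i) % n := ⟨_, rfl⟩
  rw [← hr] at e1 e2
  have hj : c (i + r) = c j := by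
    rw [hG.hc.inj]
    exact ⟨-((j - i) / n), by
      have := Int.emod_add_mul_ediv (j - i) n
      rw [hr]
      linarith⟩
  have h' : Ch G c i (i + r) := Ch_congr hG.hc h rfl hj.symm
  have hr0 : r ≠ 0 := by
    rintro rfl
    rw [add_zero] at h'
    exact G.loopless.irrefl _ h'.1
  have hr1 : r ≠ 1 := by
    rintro rfl
    exact h'.2.2 rfl
  have hr2 : r ≠ n - 1 := by
    rintro rfl
    apply h'.2.1
    rw [hG.hc.inj]
    exact ⟨1, by ring⟩
  have h1 := hG.short i (i + r) h'.1 (by omega)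
  have h2 := hG.short (i + r) (i + n) (by
    have : c (i + n) = c i := by
      rw [hG.hc.inj]
      exact ⟨1, by ring⟩
    rw [this]
    exact h'.1.symm) (by omega)
  exact ⟨i + r, hj, by push_cast at h1; omega, by push_cast at h2; omega⟩

end H87.HC
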