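import Mathlib
import Pool.Agent.H87.HC.Short

/-!
# The structure of the chords
-/

namespace H87.HC

open SimpleGraph

variable {V : Type} {G : SimpleGraph V} {n : ℕ} {c : ℤ → V} {M : ℕ}

/-- There is no long-`H`, given by positions in an interval of length `n`. -/
theorem noH11 (hG : Good G n c M) (lo u m v a a' b b' e e' d d' : ℤ)
    (hlo : ∀ x ∈ [u, m, v, a, a', b, b', e, e', d, d'], lo ≤ x ∧ x < lo + n)
    (hnd : [u, m, v, a, a', b, b', e, e', d, d'].Nodup)
    (h1 : G.Adj (c u) (c m)) (h2 : G.Adj (c m) (c v))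
    (h3 : G.Adj (c u) (c a)) (h4 : G.Adj (c a) (c a'))
    (h5 : G.Adj (c u) (c b)) (h6 : G.Adj (c b) (c b'))
    (h7 : G.Adj (c v) (c e)) (h8 : G.Adj (c e) (c e'))
    (h9 : G.Adj (c v) (c d)) (h10 : G.Adj (c d) (c d')) : False := by
  refine free_false hG.free (fun i : Fin 11 => c ([u, m, v, a, a', b, b', e, e', d, d'].get i))
    ?_ ?_
  · intro i j hij
    have hi := hlo _ (List.get_mem [u, m, v, a, a', b, b', e, e', d, d'] i)
    have hj := hlo _ (List.get_mem [u, m, v, a, a', b, b', e, e', d, d'] j)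
    have := hG.hc.eq_of_lt hij (by omega) (by omega)
    exact List.nodup_iff_injective_get.1 hnd this
  · intro x hx
    simp only [longHEdges, List.mem_cons, List.not_mem_nil, or_false] at hx
    rcases hx with rfl | rfl | rfl | rfl | rfl | rfl | rfl | rfl | rfl | rfl <;> assumption

theorem HamC.adj' (hc : HamC G n c) {i j : ℤ} (h : i + 1 = j ∨ j + 1 = i) :
    G.Adj (c i) (c j) := by
  rcases h with rfl | rfl
  · exact hc.adj i
  · exact (hc.adj j).symm

/-- Chords at consecutive positions end at distance at most one. -/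
theorem c2_aux (hG : Good G n c 6) {y z : ℤ} (hy : Ch G c 0 y) (hz : Ch G c 1 z) (hy1 : 6 ≤ y)
    (hy2 : y ≤ n - 6) (hz1 : 7 ≤ z) (hz2 : z ≤ n - 5) : z = y - 1 ∨ z = y ∨ z = y + 1 := by
  have hn := hG.hn
  have A := fun {i j : ℤ} (h : i + 1 = j ∨ j + 1 = i) => hG.hc.adj' h
  by_contra hcon
  push Not at hcon
  by_cases h1 : z = y + 2
  · subst h1
    refine noH11 hG (-1) y (y + 1) (y + 2) 0 (-1) (y - 1) (y - 2) 1 2 (y + 3) (y + 4) ?_ ?_
      (A (by omega)) (A (by omega)) hy.1.symm (A (by omega)) (A (by omega)) (A (by omega))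
      hz.1.symm (A (by omega)) (A (by omega)) (A (by omega))
    · simp only [List.mem_cons, List.not_mem_nil, or_false, forall_eq_or_imp, forall_eq]
      omega
    · simp only [List.nodup_cons, List.mem_cons, List.not_mem_nil, or_false, not_or,
        List.nodup_nil, and_true, not_false_eq_true]
      omega
  by_cases h2 : z = y - 2
  · subst h2
    refine noH11 hG (-1) y (y - 1) (y - 2) 0 (-1) (y + 1) (y + 2) 1 2 (y - 3) (y - 4) ?_ ?_
      (A (by omega)) (A (by omega)) hy.1.symm (A (by omega)) (A (by omega)) (A (by omega))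
      hz.1.symm (A (by omega)) (A (by omega)) (A (by omega))
    · simp only [List.mem_cons, List.not_mem_nil, or_false, forall_eq_or_imp, forall_eq]
      omega
    · simp only [List.nodup_cons, List.mem_cons, List.not_mem_nil, or_false, not_or,
        List.nodup_nil, and_true, not_false_eq_true]
      omega
  by_cases h3 : y < z
  · refine noH11 hG (-1) 1 0 y 2 3 z (z + 1) (y + 1) (y + 2) (y - 1) (y - 2) ?_ ?_
      (A (by omega)) hy.1 (A (by omega)) (A (by omega)) hz.1 (A (by omega))
      (A (by omega)) (A (by omega)) (A (by omega)) (A (by omega))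
    · simp only [List.mem_cons, List.not_mem_nil, or_false, forall_eq_or_imp, forall_eq]
      omega
    · simp only [List.nodup_cons, List.mem_cons, List.not_mem_nil, or_false, not_or,
        List.nodup_nil, and_true, not_false_eq_true]
      omega
  · refine noH11 hG (-1) 1 0 y 2 3 z (z - 1) (y + 1) (y + 2) (y - 1) (y - 2) ?_ ?_
      (A (by omega)) hy.1 (A (by omega)) (A (by omega)) hz.1 (A (by omega))
      (A (by omega)) (A (by omega)) (A (by omega)) (A (by omega))
    · simp only [List.mem_cons, List.not_mem_nil, or_false, forall_eq_or_imp, forall_eq]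
      omega
    · simp only [List.nodup_cons, List.mem_cons, List.not_mem_nil, or_false, not_or,
        List.nodup_nil, and_true, not_false_eq_true]
      omega

/-- Chords at distance two end in the same vertex. -/
theorem c3_aux (hG : Good G n c 6) {y z : ℤ} (hy : Ch G c 0 y) (hz : Ch G c 2 z) (hy1 : 6 ≤ y)
    (hy2 : y ≤ n - 6) (hz1 : 8 ≤ z) (hz2 : z ≤ n - 4) : z = y := by
  have hn := hG.hn
  have A := fun {i j : ℤ} (h : i + 1 = j ∨ j + 1 = i) => hG.hc.adj' h
  by_contra hcon
  by_cases h3 : y < z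
  · refine noH11 hG (-2) 0 1 2 (-1) (-2) y (y - 1) 3 4 z (z + 1) ?_ ?_
      (A (by omega)) (A (by omega)) (A (by omega)) (A (by omega)) hy.1 (A (by omega))
      (A (by omega)) (A (by omega)) hz.1 (A (by omega))
    · simp only [List.mem_cons, List.not_mem_nil, or_false, forall_eq_or_imp, forall_eq]
      omega
    · simp only [List.nodup_cons, List.mem_cons, List.not_mem_nil, or_false, not_or,
        List.nodup_nil, and_true, not_false_eq_true]
      omega
  · refine noH11 hG (-2) 0 1 2 (-1) (-2) y (y + 1) 3 4 z (z - 1) ?_ ?_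
      (A (by omega)) (A (by omega)) (A (by omega)) (A (by omega)) hy.1 (A (by omega))
      (A (by omega)) (A (by omega)) hz.1 (A (by omega))
    · simp only [List.mem_cons, List.not_mem_nil, or_false, forall_eq_or_imp, forall_eq]
      omega
    · simp only [List.nodup_cons, List.mem_cons, List.not_mem_nil, or_false, not_or,
        List.nodup_nil, and_true, not_false_eq_true]
      omega

theorem HamC.add_eq (hc : HamC G n c) {i j : ℤ} (h : c i = c j) (k : ℤ) :
    c (i + k) = c (j + k) := by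
  rw [hc.inj] at h ⊢
  rwa [show i + k - (j + k) = i - j by ring]

theorem c2 (hG : Good G n c 6) {i y z : ℤ} (hy : Ch G c i y) (hz : Ch G c (i + 1) z) :
    c z = c (y - 1) ∨ c z = c y ∨ c z = c (y + 1) := by
  have hG' := hG.shift i
  have hy0 : Ch G (fun x => c (x + i)) 0 (y - i) := by
    rw [Ch_shift, zero_add, sub_add_cancel]; exact hy
  have hz0 : Ch G (fun x => c (x + i)) 1 (z - i) := by
    rw [Ch_shift, add_comm 1 i, sub_add_cancel]; exact hz
  obtain ⟨y', hy', hy1, hy2⟩ := hG'.norm hy0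
  obtain ⟨z', hz', hz1, hz2⟩ := hG'.norm hz0
  have := c2_aux hG' (Ch_congr hG'.hc hy0 rfl hy'.symm) (Ch_congr hG'.hc hz0 rfl hz'.symm)
    (by omega) (by omega) (by omega) (by omega)
  replace hy' : c (y' + i) = c y := by simpa using hy'
  replace hz' : c (z' + i) = c z := by simpa using hz'
  rcases this with rfl | rfl | rfl
  · left
    rw [← hz', sub_eq_add_neg y 1, ← hG.hc.add_eq hy' (-1)]
    congr 1; ring
  · right; left
    rw [← hz', ← hy']
  · right; right
    rw [← hz', ← hG.hc.add_eq hy' 1]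
    congr 1; ring

theorem c3 (hG : Good G n c 6) {i y z : ℤ} (hy : Ch G c i y) (hz : Ch G c (i + 2) z) :
    c z = c y := by
  have hG' := hG.shift i
  have hy0 : Ch G (fun x => c (x + i)) 0 (y - i) := by
    rw [Ch_shift, zero_add, sub_add_cancel]; exact hy
  have hz0 : Ch G (fun x => c (x + i)) 2 (z - i) := by
    rw [Ch_shift, add_comm 2 i, sub_add_cancel]; exact hz
  obtain ⟨y', hy', hy1, hy2⟩ := hG'.norm hy0
  obtain ⟨z', hz', hz1, hz2⟩ := hG'.norm hz0
  have := c3_aux hG' (Ch_congr hG'.hc hy0 rfl hy'.symm) (Ch_congr hG'.hc hz0 rfl hz'.symm)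
    (by omega) (by omega) (by omega) (by omega)
  replace hy' : c (y' + i) = c y := by simpa using hy'
  replace hz' : c (z' + i) = c z := by simpa using hz'
  rw [← hz', ← hy', this]

theorem c2' (hG : Good G n c 6) {i y z : ℤ} (hy : Ch G c i y) (hz : Ch G c (i + 1) z) :
    ∃ δ : ℤ, -1 ≤ δ ∧ δ ≤ 1 ∧ c z = c (y + δ) := by
  rcases c2 hG hy hz with h | h | h
  · exact ⟨-1, by norm_num, by norm_num, by rw [h, sub_eq_add_neg]⟩
  · exact ⟨0, by norm_num, by norm_num, by rw [h, add_zero]⟩
  · exact ⟨1, by norm_num, by norm_num, h⟩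

theorem no_four_aux (hG : Good G n c 6) (h0 : Fr G c 0) (h1 : Fr G c 1) (h2 : Fr G c 2)
    (h3 : Fr G c 3) : False := by
  have hn := hG.hn
  have A := fun {i j : ℤ} (h : i + 1 = j ∨ j + 1 = i) => hG.hc.adj' h
  obtain ⟨y0, hy0⟩ := h0
  obtain ⟨y1, hy1⟩ := h1
  obtain ⟨y2, hy2⟩ := h2
  obtain ⟨y3, hy3⟩ := h3
  obtain ⟨y, hy, hya, hyb⟩ := hG.norm hy0
  have k0 : Ch G c 0 y := Ch_congr hG.hc hy0 rfl hy.symm
  have k2 : Ch G c 2 y := Ch_congr hG.hc hy2 rfl (c3 hG k0 hy2)
  have k13 : c y3 = c y1 := c3 hG hy1 hy3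
  have k3 : Ch G c 3 y1 := Ch_congr hG.hc hy3 rfl k13
  obtain ⟨y', hy', hya', hyb'⟩ := hG.norm k2
  have hyy : y' = y := hG.hc.eq_of_lt hy' (by omega) (by omega)
  subst hyy
  rcases c2 hG k0 hy1 with h | h | h
  · have k1 := Ch_congr hG.hc hy1 rfl h
    have k3' := Ch_congr hG.hc k3 rfl h
    refine noH11 hG (-2) 0 1 (y' - 1) (-1) (-2) y' (y' + 1) (y' - 2) (y' - 3) 3 4 ?_ ?_
      (A (by omega)) k1.1 (A (by omega)) (A (by omega)) k0.1 (A (by omega))
      (A (by omega)) (A (by omega)) k3'.1.symm (A (by omega))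
    · simp only [List.mem_cons, List.not_mem_nil, or_false, forall_eq_or_imp, forall_eq]
      omega
    · simp only [List.nodup_cons, List.mem_cons, List.not_mem_nil, or_false, not_or,
        List.nodup_nil, and_true, not_false_eq_true]
      omega
  · have k3' := Ch_congr hG.hc k3 rfl h
    have m0 := Ch.symm hG.hc k0
    have m3 := Ch.symm hG.hc k3'
    rcases hG.r1 _ ⟨0, m0⟩ with ⟨t, ht⟩ | ⟨t, ht⟩
    · have ht' : Ch G c (y' - 1 + 1) 0 := by rwa [sub_add_cancel]
      have ht3 : Ch G c (y' - 1 + 1) 3 := by rwa [sub_add_cancel]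
      obtain ⟨δ, d1, d2, d3⟩ := c2' hG ht ht'
      obtain ⟨ε, e1, e2, e3⟩ := c2' hG ht ht3
      have f1 := hG.hc.add_eq d3 (ε - δ)
      rw [show t + δ + (ε - δ) = t + ε by ring, ← e3] at f1
      have := hG.hc.eq_of_lt f1 (by omega) (by omega)
      omega
    · obtain ⟨δ, d1, d2, d3⟩ := c2' hG m0 ht
      obtain ⟨ε, e1, e2, e3⟩ := c2' hG m3 ht
      rw [d3] at e3
      have := hG.hc.eq_of_lt e3 (by omega) (by omega)
      omega
  · have k1 := Ch_congr hG.hc hy1 rfl h
    have k3' := Ch_congr hG.hc k3 rfl h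
    refine noH11 hG (-2) 0 1 (y' + 1) (-1) (-2) y' (y' - 1) (y' + 2) (y' + 3) 3 4 ?_ ?_
      (A (by omega)) k1.1 (A (by omega)) (A (by omega)) k0.1 (A (by omega))
      (A (by omega)) (A (by omega)) k3'.1.symm (A (by omega))
    · simp only [List.mem_cons, List.not_mem_nil, or_false, forall_eq_or_imp, forall_eq]
      omega
    · simp only [List.nodup_cons, List.mem_cons, List.not_mem_nil, or_false, not_or,
        List.nodup_nil, and_true, not_false_eq_true]
      omega

/-- At most three consecutive positions carry chords. -/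
theorem no_four (hG : Good G n c 6) {i : ℤ} (h0 : Fr G c i) (h1 : Fr G c (i + 1))
    (h2 : Fr G c (i + 2)) (h3 : Fr G c (i + 3)) : False := by
  refine no_four_aux (hG.shift i) ?_ ?_ ?_ ?_
  · rwa [Fr_shift, zero_add]
  · rwa [Fr_shift, add_comm]
  · rwa [Fr_shift, add_comm]
  · rwa [Fr_shift, add_comm]

end H87.HC
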