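import Mathlib
import Pool.Agent.H87.HC.Struct
import Pool.Agent.H87.HC.Gadget

/-!
# Runs of vertices of degree at least three
-/

namespace H87.HC

open SimpleGraph

variable {V : Type} {G : SimpleGraph V} {n : ℕ} {c : ℤ → V} {M : ℕ}

theorem Fr_congr (hc : HamC G n c) {i j : ℤ} (h : Fr G c i) (hij : c i = c j) : Fr G c j := by
  obtain ⟨t, ht⟩ := h
  exact ⟨t, Ch_congr hc ht hij rfl⟩

theorem twoN_of_not_fr (hG : Good G n c M) {i : ℤ} (h : ¬ Fr G c i) : TwoN G (c i) := by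
  have hn := hG.hn
  refine ⟨c (i - 1), c (i + 1), ?_, ?_⟩
  · intro h'
    have := hG.hc.eq_of_lt h' (by omega) (by omega)
    omega
  · intro u
    constructor
    · intro hu
      obtain ⟨j, rfl⟩ := hG.hc.surj u
      by_contra hcon
      push Not at hcon
      exact h ⟨j, hu, hcon.1, hcon.2⟩
    · rintro (rfl | rfl)
      · exact hG.hc.adj' (Or.inr (by ring))
      · exact hG.hc.adj' (Or.inl rfl)

/-- A maximal interval of positions which carry chords. -/
def Run (G : SimpleGraph V) (c : ℤ → V) (i k : ℤ) : Prop :=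
  (k = 1 ∨ k = 2) ∧ ¬ Fr G c (i - 1) ∧ (∀ p, i ≤ p → p ≤ i + k → Fr G c p) ∧
    ¬ Fr G c (i + k + 1)

theorem exists_run (hG : Good G n c 6) {p : ℤ} (h : Fr G c p) :
    ∃ i k, Run G c i k ∧ i ≤ p ∧ p ≤ i + k := by
  have four := fun (i a b d : ℤ) (ha : a = i + 1) (hb : b = i + 2) (hd : d = i + 3)
    (h0 : Fr G c i) (h1 : Fr G c a) (h2 : Fr G c b) (h3 : Fr G c d) =>
    no_four hG h0 (ha ▸ h1) (hb ▸ h2) (hd ▸ h3)
  by_cases h1 : Fr G c (p - 1)
  · by_cases h2 : Fr G c (p - 2)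
    · refine ⟨p - 2, 2, ⟨Or.inr rfl, ?_, ?_, ?_⟩, by omega, by omega⟩
      · intro h'
        exact four (p - 2 - 1) _ _ _ (by ring) (by ring) (by ring) h' h2 h1 h
      · intro q hq1 hq2
        obtain rfl | rfl | rfl : q = p - 2 ∨ q = p - 1 ∨ q = p := by omega
        · exact h2
        · exact h1
        · exact h
      · intro h'
        exact four (p - 2) _ _ _ (by ring) (by ring) (by ring) h2 h1 h h'
    · by_cases h3 : Fr G c (p + 1)
      · refine ⟨p - 1, 2, ⟨Or.inr rfl, ?_, ?_, ?_⟩, by omega, by omega⟩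
        · rwa [show p - 1 - 1 = p - 2 by ring]
        · intro q hq1 hq2
          obtain rfl | rfl | rfl : q = p - 1 ∨ q = p ∨ q = p + 1 := by omega
          · exact h1
          · exact h
          · exact h3
        · intro h'
          exact four (p - 1) _ _ _ (by ring) (by ring) (by ring) h1 h h3 h'
      · refine ⟨p - 1, 1, ⟨Or.inl rfl, ?_, ?_, ?_⟩, by omega, by omega⟩
        · rwa [show p - 1 - 1 = p - 2 by ring]
        · intro q hq1 hq2
          obtain rfl | rfl : q = p - 1 ∨ q = p := by omega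
          · exact h1
          · exact h
        · rwa [show p - 1 + 1 + 1 = p + 1 by ring]
  · have h2 : Fr G c (p + 1) := (hG.r1 p h).resolve_left h1
    by_cases h3 : Fr G c (p + 2)
    · refine ⟨p, 2, ⟨Or.inr rfl, h1, ?_, ?_⟩, by omega, by omega⟩
      · intro q hq1 hq2
        obtain rfl | rfl | rfl : q = p ∨ q = p + 1 ∨ q = p + 2 := by omega
        · exact h
        · exact h2
        · exact h3
      · intro h'
        exact four p _ _ _ (by ring) (by ring) (by ring) h h2 h3 h'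
    · refine ⟨p, 1, ⟨Or.inl rfl, h1, ?_, ?_⟩, by omega, by omega⟩
      · intro q hq1 hq2
        obtain rfl | rfl : q = p ∨ q = p + 1 := by omega
        · exact h
        · exact h2
      · rwa [show p + 1 + 1 = p + 2 by ring]

/-- The position `y` lies in the interval, up to multiples of the period. -/
def In (c : ℤ → V) (j l y : ℤ) : Prop := ∃ q, j ≤ q ∧ q ≤ j + l ∧ c y = c q

theorem in_step (hG : Good G n c 6) {j l p y z : ℤ} (hR : Run G c j l) (hy : Ch G c p y)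
    (hz : Ch G c (p + 1) z) : In c j l y ↔ In c j l z := by
  obtain ⟨δ, d1, d2, d3⟩ := c2' hG hy hz
  have fy : Fr G c y := ⟨p, Ch.symm hG.hc hy⟩
  have fz : Fr G c z := ⟨p + 1, Ch.symm hG.hc hz⟩
  constructor
  · rintro ⟨q, q1, q2, q3⟩
    have e : c z = c (q + δ) := by rw [d3, hG.hc.add_eq q3 δ]
    have f := Fr_congr hG.hc fz e
    refine ⟨q + δ, ?_, ?_, e⟩
    · by_contra hcon
      have : q + δ = j - 1 := by omega
      rw [this] at f
      exact hR.2.1 f
    · by_contra hcon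
      have : q + δ = j + l + 1 := by omega
      rw [this] at f
      exact hR.2.2.2 f
  · rintro ⟨q, q1, q2, q3⟩
    have e : c y = c (q - δ) := by
      have h1 : c (y + δ) = c q := by rw [← d3, q3]
      have h2 := hG.hc.add_eq h1 (-δ)
      rwa [add_neg_cancel_right, ← sub_eq_add_neg] at h2
    have f := Fr_congr hG.hc fy e
    refine ⟨q - δ, ?_, ?_, e⟩
    · by_contra hcon
      have : q - δ = j - 1 := by omega
      rw [this] at f
      exact hR.2.1 f
    · by_contra hcon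
      have : q - δ = j + l + 1 := by omega
      rw [this] at f
      exact hR.2.2.2 f

/-- All chords from one run end in the same run. -/
theorem run_closed (hG : Good G n c 6) {i k j l p y : ℤ} (hR : Run G c i k) (hR' : Run G c j l)
    (hp1 : i ≤ p) (hp2 : p ≤ i + k) (hy : Ch G c p y) (hin : In c j l y) {p' y' : ℤ}
    (hp1' : i ≤ p') (hp2' : p' ≤ i + k) (hy' : Ch G c p' y') : In c j l y' := by
  have up : ∀ p y, Ch G c p y → In c j l y → ∀ z, Ch G c (p + 1) z → In c j l z :=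
    fun p y h1 h2 z h3 => (in_step hG hR' h1 h3).1 h2
  have down : ∀ p z, Ch G c (p + 1) z → In c j l z → ∀ y, Ch G c p y → In c j l y :=
    fun p z h1 h2 y h3 => (in_step hG hR' h3 h1).2 h2
  have hfr := hR.2.2.1
  have hk := hR.1
  have mid : ∀ z, Ch G c (i + 1) z → In c j l z := by
    intro z hz
    obtain h | h | h : p = i ∨ p = i + 1 ∨ p = i + 2 := by omega
    · subst h
      exact up p y hy hin z hz
    · subst h
      obtain ⟨x, hx⟩ := hfr i le_rfl (by omega)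
      exact up i x hx (down i y hy hin x hx) z hz
    · subst h
      exact down (i + 1) y (by rwa [show i + 1 + 1 = i + 2 by ring]) hin z hz
  obtain ⟨z, hz⟩ := hfr (i + 1) (by omega) (by omega)
  have hz' := mid z hz
  obtain h | h | h : p' = i ∨ p' = i + 1 ∨ p' = i + 2 := by omega
  · subst h
    exact down p' z hz hz' y' hy'
  · subst h
    exact mid y' hy'
  · subst h
    exact up (i + 1) z hz hz' y' (by rwa [show i + 1 + 1 = i + 2 by ring])

/-- Two runs whose chords go from one to the other. -/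
structure Pair (G : SimpleGraph V) (n : ℕ) (c : ℤ → V) (i k j l : ℤ) : Prop where
  r : Run G c i k
  r' : Run G c j l
  cl : ∀ p y, i ≤ p → p ≤ i + k → Ch G c p y → In c j l y
  cl' : ∀ p y, j ≤ p → p ≤ j + l → Ch G c p y → In c i k y
  sep : ∀ p q, i ≤ p → p ≤ i + k → j ≤ q → q ≤ j + l → c p ≠ c q

theorem Pair.symm {i k j l : ℤ} (h : Pair G n c i k j l) : Pair G n c j l i k :=
  ⟨h.r', h.r, h.cl', h.cl, fun p q h1 h2 h3 h4 h' => h.sep q p h3 h4 h1 h2 h'.symm⟩

theorem exists_pair (hG : Good G n c 6) {i k : ℤ} (hR : Run G c i k) :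
    ∃ j l, Pair G n c i k j l := by
  have hn := hG.hn
  have hk := hR.1
  obtain ⟨y0, hy0⟩ := hR.2.2.1 i le_rfl (by omega)
  obtain ⟨y, hy, hy1, hy2⟩ := hG.norm hy0
  have hch : Ch G c i y := Ch_congr hG.hc hy0 rfl hy.symm
  obtain ⟨j, l, hR', hj1, hj2⟩ := exists_run hG ⟨i, Ch.symm hG.hc hch⟩
  have hl := hR'.1
  refine ⟨j, l, hR, hR', ?_, ?_, ?_⟩
  · intro p y' h1 h2 h3
    exact run_closed hG hR hR' le_rfl (by omega) hch ⟨y, hj1, hj2, rfl⟩ h1 h2 h3
  · intro p y' h1 h2 h3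
    exact run_closed hG hR' hR hj1 hj2 (Ch.symm hG.hc hch) ⟨i, le_rfl, by omega, rfl⟩ h1 h2 h3
  · intro p q h1 h2 h3 h4 h
    have := hG.hc.eq_of_lt h (by omega) (by omega)
    omega

/-- The vertex set of a pair of runs. -/
def KS (c : ℤ → V) (i k j l : ℤ) : Set V :=
  {v | ∃ p, ((i ≤ p ∧ p ≤ i + k) ∨ (j ≤ p ∧ p ≤ j + l)) ∧ v = c p}

theorem KS_comm {i k j l : ℤ} : KS c i k j l = KS c j l i k := by
  unfold KS
  ext v
  simp only [Set.mem_ofPred_eq]
  constructor <;> rintro ⟨p, h, rfl⟩ <;> exact ⟨p, h.symm, rfl⟩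

theorem not_mem_KS (hG : Good G n c 6) {i k j l : ℤ} (h : Pair G n c i k j l) {t : ℤ}
    (ht : ¬ Fr G c t) : c t ∉ KS c i k j l := by
  rintro ⟨p, hp, he⟩
  apply ht
  rcases hp with ⟨h1, h2⟩ | ⟨h1, h2⟩
  · exact Fr_congr hG.hc (h.r.2.2.1 p h1 h2) he.symm
  · exact Fr_congr hG.hc (h.r'.2.2.1 p h1 h2) he.symm

theorem Pair.endL (hG : Good G n c 6) {i k j l : ℤ} (h : Pair G n c i k j l) :
    ∃ o, o ∉ KS c i k j l ∧ TwoN G o ∧ ∀ u, u ∉ KS c i k j l → (G.Adj (c i) u ↔ u = o) := by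
  have hk := h.r.1
  refine ⟨c (i - 1), not_mem_KS hG h h.r.2.1, twoN_of_not_fr hG h.r.2.1, ?_⟩
  intro u hu
  constructor
  · intro hadj
    obtain ⟨t, rfl⟩ := hG.hc.surj u
    by_contra hcon
    by_cases h1 : c t = c (i + 1)
    · exact hu ⟨i + 1, Or.inl ⟨by omega, by omega⟩, h1⟩
    · obtain ⟨q, q1, q2, q3⟩ := h.cl i t le_rfl (by omega) ⟨hadj, hcon, h1⟩
      exact hu ⟨q, Or.inr ⟨q1, q2⟩, q3⟩
  · rintro rfl
    exact hG.hc.adj' (Or.inr (by ring))

theorem Pair.endR (hG : Good G n c 6) {i k j l : ℤ} (h : Pair G n c i k j l) :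
    ∃ o, o ∉ KS c i k j l ∧ TwoN G o ∧
      ∀ u, u ∉ KS c i k j l → (G.Adj (c (i + k)) u ↔ u = o) := by
  have hk := h.r.1
  refine ⟨c (i + k + 1), not_mem_KS hG h h.r.2.2.2, twoN_of_not_fr hG h.r.2.2.2, ?_⟩
  intro u hu
  constructor
  · intro hadj
    obtain ⟨t, rfl⟩ := hG.hc.surj u
    by_contra hcon
    by_cases h1 : c t = c (i + k - 1)
    · exact hu ⟨i + k - 1, Or.inl ⟨by omega, by omega⟩, h1⟩
    · obtain ⟨q, q1, q2, q3⟩ := h.cl (i + k) t (by omega) (by omega) ⟨hadj, h1, hcon⟩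
      exact hu ⟨q, Or.inr ⟨q1, q2⟩, q3⟩
  · rintro rfl
    exact hG.hc.adj' (Or.inl rfl)

theorem Pair.mid (hG : Good G n c 6) {i k j l : ℤ} (h : Pair G n c i k j l) {p : ℤ}
    (hp1 : i < p) (hp2 : p < i + k) : ∀ u, u ∉ KS c i k j l → ¬ G.Adj (c p) u := by
  intro u hu hadj
  obtain ⟨t, rfl⟩ := hG.hc.surj u
  by_cases h1 : c t = c (p - 1)
  · exact hu ⟨p - 1, Or.inl ⟨by omega, by omega⟩, h1⟩
  by_cases h2 : c t = c (p + 1)
  · exact hu ⟨p + 1, Or.inl ⟨by omega, by omega⟩, h2⟩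
  obtain ⟨q, q1, q2, q3⟩ := h.cl p t (by omega) (by omega) ⟨hadj, h1, h2⟩
  exact hu ⟨q, Or.inr ⟨q1, q2⟩, q3⟩

/-- A gadget from an enumeration of the positions. -/
theorem isG_of_pos (hG : Good G n c 6) {i k j l : ℤ} (h : Pair G n c i k j l) (τ : GType)
    (pos : ℕ → ℤ) (hinj : ∀ a < τ.k, ∀ b < τ.k, pos a = pos b → a = b)
    (hin : ∀ a < τ.k, (i ≤ pos a ∧ pos a ≤ i + k) ∨ (j ≤ pos a ∧ pos a ≤ j + l))
    (hsurj : ∀ p, ((i ≤ p ∧ p ≤ i + k) ∨ (j ≤ p ∧ p ≤ j + l)) → ∃ a < τ.k, p = pos a)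
    (h1 : ∀ e ∈ τ.p1, G.Adj (c (pos e.1)) (c (pos e.2)))
    (h2 : ∀ e ∈ τ.p2, G.Adj (c (pos e.1)) (c (pos e.2)))
    (h3 : ∀ a ∈ τ.ts, pos a = i ∨ pos a = i + k ∨ pos a = j ∨ pos a = j + l)
    (h4 : ∀ a ∈ τ.is, (i < pos a ∧ pos a < i + k) ∨ (j < pos a ∧ pos a < j + l)) :
    IsG G τ (fun a => c (pos a)) := by
  have hn := hG.hn
  have hk := h.r.1
  have hl := h.r'.1
  have hK : ∀ u, (∀ b < τ.k, u ≠ c (pos b)) ↔ u ∉ KS c i k j l := by
    intro u
    constructor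
    · rintro hu ⟨p, hp, rfl⟩
      obtain ⟨a, ha, rfl⟩ := hsurj p hp
      exact hu a ha rfl
    · rintro hu b hb rfl
      exact hu ⟨_, hin b hb, rfl⟩
  refine ⟨?_, h1, h2, ?_, ?_⟩
  · intro a ha b hb hab
    apply hinj a ha b hb
    rcases hin a ha with ha' | ha' <;> rcases hin b hb with hb' | hb'
    · exact hG.hc.eq_of_lt hab (by omega) (by omega)
    · exact absurd hab (h.sep _ _ ha'.1 ha'.2 hb'.1 hb'.2)
    · exact absurd hab.symm (h.sep _ _ hb'.1 hb'.2 ha'.1 ha'.2)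
    · exact hG.hc.eq_of_lt hab (by omega) (by omega)
  · intro a ha
    have key : ∃ o, o ∉ KS c i k j l ∧ TwoN G o ∧
        ∀ u, u ∉ KS c i k j l → (G.Adj (c (pos a)) u ↔ u = o) := by
      rcases h3 a ha with e | e | e | e <;> rw [e]
      · exact h.endL hG
      · exact h.endR hG
      · rw [KS_comm]; exact h.symm.endL hG
      · rw [KS_comm]; exact h.symm.endR hG
    obtain ⟨o, o1, o2, o3⟩ := key
    exact ⟨o, (hK o).2 o1, o2, fun u hu => o3 u ((hK u).1 hu)⟩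
  · intro a ha u hu
    rw [hK] at hu
    rcases h4 a ha with e | e
    · exact h.mid hG e.1 e.2 u hu
    · rw [KS_comm] at hu
      exact h.symm.mid hG e.1 e.2 u hu

end H87.HC
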