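import Mathlib
import Pool.Agent.H87.HC.Runs

/-!
# Each pair of runs is a gadget
-/

namespace H87.HC

open SimpleGraph

variable {V : Type} {G : SimpleGraph V} {n : ℕ} {c : ℤ → V} {M : ℕ}

theorem Pair.tot (hG : Good G n c 6) {i k j l : ℤ} (h : Pair G n c i k j l) {p : ℤ}
    (hp1 : i ≤ p) (hp2 : p ≤ i + k) : ∃ q, j ≤ q ∧ q ≤ j + l ∧ Ch G c p q := by
  obtain ⟨y, hy⟩ := h.r.2.2.1 p hp1 hp2
  obtain ⟨q, q1, q2, q3⟩ := h.cl p y hp1 hp2 hy
  exact ⟨q, q1, q2, Ch_congr hG.hc hy rfl q3⟩

theorem Pair.uniq (hG : Good G n c 6) {i k j l : ℤ} (h : Pair G n c i k j l) {p q q' : ℤ}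
    (hq1 : j ≤ q) (hq2 : q ≤ j + l) (hq1' : j ≤ q') (hq2' : q' ≤ j + l) (h1 : Ch G c p q)
    (h2 : Ch G c (p + 2) q') : q = q' := by
  have hn := hG.hn
  have hl := h.r'.1
  exact (hG.hc.eq_of_lt (c3 hG h1 h2) (by omega) (by omega)).symm

/-- The alternating four-cycle. -/
theorem Pair.cross (hG : Good G n c 6) {i k j l : ℤ} (h : Pair G n c i k j l) :
    ((Ch G c i j ∧ Ch G c (i + 1) (j + 1)) ∨ (Ch G c i (j + 1) ∧ Ch G c (i + 1) j)) ∧
      (k = 2 → l = 2 → Ch G c i (j + 1) ∧ Ch G c (i + 1) j) := by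
  have hk := h.r.1
  have hl := h.r'.1
  have sw : ∀ {a b : ℤ}, Ch G c a b → Ch G c b a := fun h => Ch.symm hG.hc h
  rcases hk with rfl | rfl <;> rcases hl with rfl | rfl
  · refine ⟨?_, by intro h; omega⟩
    obtain ⟨q0, a0, b0, h0⟩ := h.tot hG (p := i) (by omega) (by omega)
    obtain ⟨q1, a1, b1, h1⟩ := h.tot hG (p := i + 1) (by omega) (by omega)
    obtain ⟨p0, a2, b2, h2⟩ := h.symm.tot hG (p := j) (by omega) (by omega)
    obtain ⟨p1, a3, b3, h3⟩ := h.symm.tot hG (p := j + 1) (by omega) (by omega)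
    replace h2 := sw h2
    replace h3 := sw h3
    obtain rfl | rfl : q0 = j ∨ q0 = j + 1 := by omega
    · obtain rfl | rfl : q1 = q0 ∨ q1 = q0 + 1 := by omega
      · obtain rfl | rfl : p1 = i ∨ p1 = i + 1 := by omega
        · exact Or.inr ⟨h3, h1⟩
        · exact Or.inl ⟨h0, h3⟩
      · exact Or.inl ⟨h0, h1⟩
    · obtain rfl | rfl : q1 = j ∨ q1 = j + 1 := by omega
      · exact Or.inr ⟨h0, h1⟩
      · obtain rfl | rfl : p0 = i ∨ p0 = i + 1 := by omega
        · exact Or.inl ⟨h2, h1⟩
        · exact Or.inr ⟨h0, h2⟩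
  · refine ⟨?_, by intro h; omega⟩
    obtain ⟨p0, a0, b0, h0⟩ := h.symm.tot hG (p := j) (by omega) (by omega)
    obtain ⟨p1, a1, b1, h1⟩ := h.symm.tot hG (p := j + 1) (by omega) (by omega)
    obtain ⟨p2, a2, b2, h2⟩ := h.symm.tot hG (p := j + 2) (by omega) (by omega)
    have e02 := h.symm.uniq hG a0 b0 a2 b2 h0 h2
    subst e02
    obtain ⟨q0, a3, b3, h3⟩ := h.tot hG (p := i) (by omega) (by omega)
    obtain ⟨q1, a4, b4, h4⟩ := h.tot hG (p := i + 1) (by omega) (by omega)
    replace h3 := sw h3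
    replace h4 := sw h4
    have key : ∀ p q, Ch G c q p → i ≤ p → p ≤ i + 1 → j ≤ q → q ≤ j + 2 → p ≠ p0 → q = j + 1 := by
      intro p q hpq hp1 hp2 hq1 hq2 hne
      by_contra hcon
      obtain rfl | rfl : q = j ∨ q = j + 2 := by omega
      · exact hne (h.symm.uniq hG hp1 hp2 a2 b2 hpq h2)
      · exact hne (h.symm.uniq hG a0 b0 hp1 hp2 h0 hpq).symm
    obtain rfl | rfl : p0 = i ∨ p0 = i + 1 := by omega
    · have := key _ _ h4 (by omega) (by omega) a4 b4 (by omega)
      subst this
      exact Or.inl ⟨sw h0, sw h4⟩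
    · have := key _ _ h3 (by omega) (by omega) a3 b3 (by omega)
      subst this
      exact Or.inr ⟨sw h3, sw h0⟩
  · refine ⟨?_, by intro _ h; omega⟩
    obtain ⟨q0, a0, b0, h0⟩ := h.tot hG (p := i) (by omega) (by omega)
    obtain ⟨q1, a1, b1, h1⟩ := h.tot hG (p := i + 1) (by omega) (by omega)
    obtain ⟨q2, a2, b2, h2⟩ := h.tot hG (p := i + 2) (by omega) (by omega)
    have e02 := h.uniq hG a0 b0 a2 b2 h0 h2
    subst e02
    obtain ⟨p0, a3, b3, h3⟩ := h.symm.tot hG (p := j) (by omega) (by omega)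
    obtain ⟨p1, a4, b4, h4⟩ := h.symm.tot hG (p := j + 1) (by omega) (by omega)
    replace h3 := sw h3
    replace h4 := sw h4
    have key : ∀ q p, Ch G c p q → j ≤ q → q ≤ j + 1 → i ≤ p → p ≤ i + 2 → q ≠ q0 → p = i + 1 := by
      intro q p hpq hq1 hq2 hp1 hp2 hne
      by_contra hcon
      obtain rfl | rfl : p = i ∨ p = i + 2 := by omega
      · exact hne (h.uniq hG hq1 hq2 a2 b2 hpq h2)
      · exact hne (h.uniq hG a0 b0 hq1 hq2 h0 hpq).symm
    obtain rfl | rfl : q0 = j ∨ q0 = j + 1 := by omega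
    · have := key _ _ h4 (by omega) (by omega) a4 b4 (by omega)
      subst this
      exact Or.inl ⟨h0, h4⟩
    · have := key _ _ h3 (by omega) (by omega) a3 b3 (by omega)
      subst this
      exact Or.inr ⟨h0, h3⟩
  · obtain ⟨q0, a0, b0, h0⟩ := h.tot hG (p := i) (by omega) (by omega)
    obtain ⟨q2, a2, b2, h2⟩ := h.tot hG (p := i + 2) (by omega) (by omega)
    have e02 := h.uniq hG a0 b0 a2 b2 h0 h2
    subst e02
    obtain ⟨p0, a3, b3, h3⟩ := h.symm.tot hG (p := j) (by omega) (by omega)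
    obtain ⟨p2, a5, b5, h5⟩ := h.symm.tot hG (p := j + 2) (by omega) (by omega)
    have e35 := h.symm.uniq hG a3 b3 a5 b5 h3 h5
    subst e35
    have hq0 : q0 = j + 1 := by
      by_contra hcon
      obtain rfl | rfl : q0 = j ∨ q0 = j + 2 := by omega
      · have r1 := h.symm.uniq hG (q := i) (by omega) (by omega) a5 b5 (sw h0) h5
        have r2 := h.symm.uniq hG (q := i + 2) (by omega) (by omega) a5 b5 (sw h2) h5
        omega
      · have r1 := h.symm.uniq hG (q' := i) a3 b3 (by omega) (by omega) h3 (sw h0)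
        have r2 := h.symm.uniq hG (q' := i + 2) a3 b3 (by omega) (by omega) h3 (sw h2)
        omega
    have hp0 : p0 = i + 1 := by
      by_contra hcon
      obtain rfl | rfl : p0 = i ∨ p0 = i + 2 := by omega
      · have r1 := h.uniq hG (q := j) (by omega) (by omega) a2 b2 (sw h3) h2
        have r2 := h.uniq hG (q := j + 2) (by omega) (by omega) a2 b2 (sw h5) h2
        omega
      · have r1 := h.uniq hG (q' := j) a0 b0 (by omega) (by omega) h0 (sw h3)
        have r2 := h.uniq hG (q' := j + 2) a0 b0 (by omega) (by omega) h0 (sw h5)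
        omega
    subst hq0 hp0
    exact ⟨Or.inr ⟨h0, sw h3⟩, fun _ _ => ⟨h0, sw h3⟩⟩

/-- Positions given by a list. -/
def posL (l : List ℤ) (a : ℕ) : ℤ := l.getD a 0

/-- The pair with two runs of length two. -/
theorem gadA_of_pair (hG : Good G n c 6) {i j : ℤ} (h : Pair G n c i 1 j 1) :
    ∃ pos : ℕ → ℤ, IsG G tyA (fun a => c (pos a)) ∧
      ∀ p, i ≤ p → p ≤ i + 1 → ∃ a < tyA.k, p = pos a := by
  have A := fun {i j : ℤ} (h : i + 1 = j ∨ j + 1 = i) => hG.hc.adj' h
  have hsep : ∀ p q, i ≤ p → p ≤ i + 1 → j ≤ q → q ≤ j + 1 → p ≠ q := by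
    intro p q h1 h2 h3 h4 h5
    exact h.sep p q h1 h2 h3 h4 (by rw [h5])
  have s0 := hsep i j (by omega) (by omega) (by omega) (by omega)
  have s1 := hsep i (j + 1) (by omega) (by omega) (by omega) (by omega)
  have s2 := hsep (i + 1) j (by omega) (by omega) (by omega) (by omega)
  have s3 := hsep (i + 1) (j + 1) (by omega) (by omega) (by omega) (by omega)
  rcases (h.cross hG).1 with ⟨h1, h2⟩ | ⟨h1, h2⟩
  · refine ⟨posL [i, i + 1, j, j + 1], isG_of_pos hG h tyA _ ?_ ?_ ?_ ?_ ?_ ?_ ?_, ?_⟩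
    · intro a ha b hb
      simp only [tyA] at ha hb
      interval_cases a <;> interval_cases b <;> intro hab <;>
        first
        | rfl
        | (exfalso; simp only [posL, List.getD_cons_zero, List.getD_cons_succ] at hab; omega)
    · intro a ha
      simp only [tyA] at ha
      interval_cases a <;> simp only [posL, List.getD_cons_zero, List.getD_cons_succ] <;>
        omega
    · intro p hp
      obtain h | h | h | h : p = i ∨ p = i + 1 ∨ p = j ∨ p = j + 1 := by omega
      · exact ⟨0, by decide, h⟩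
      · exact ⟨1, by decide, h⟩
      · exact ⟨2, by decide, h⟩
      · exact ⟨3, by decide, h⟩
    · simp only [tyA, List.mem_cons, List.not_mem_nil, or_false, forall_eq_or_imp, forall_eq,
        posL, List.getD_cons_zero, List.getD_cons_succ]
      exact ⟨A (by omega), A (by omega)⟩
    · simp only [tyA, List.mem_cons, List.not_mem_nil, or_false, forall_eq_or_imp, forall_eq,
        posL, List.getD_cons_zero, List.getD_cons_succ]
      exact ⟨h1.1, h2.1⟩
    · simp [tyA, posL]
    · simp [tyA]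
    · intro p hp1 hp2
      obtain h | h : p = i ∨ p = i + 1 := by omega
      · exact ⟨0, by decide, h⟩
      · exact ⟨1, by decide, h⟩
  · refine ⟨posL [i, i + 1, j + 1, j], isG_of_pos hG h tyA _ ?_ ?_ ?_ ?_ ?_ ?_ ?_, ?_⟩
    · intro a ha b hb
      simp only [tyA] at ha hb
      interval_cases a <;> interval_cases b <;> intro hab <;>
        first
        | rfl
        | (exfalso; simp only [posL, List.getD_cons_zero, List.getD_cons_succ] at hab; omega)
    · intro a ha
      simp only [tyA] at ha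
      interval_cases a <;> simp only [posL, List.getD_cons_zero, List.getD_cons_succ] <;>
        omega
    · intro p hp
      obtain h | h | h | h : p = i ∨ p = i + 1 ∨ p = j ∨ p = j + 1 := by omega
      · exact ⟨0, by decide, h⟩
      · exact ⟨1, by decide, h⟩
      · exact ⟨3, by decide, h⟩
      · exact ⟨2, by decide, h⟩
    · simp only [tyA, List.mem_cons, List.not_mem_nil, or_false, forall_eq_or_imp, forall_eq,
        posL, List.getD_cons_zero, List.getD_cons_succ]
      exact ⟨A (by omega), A (by omega)⟩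
    · simp only [tyA, List.mem_cons, List.not_mem_nil, or_false, forall_eq_or_imp, forall_eq,
        posL, List.getD_cons_zero, List.getD_cons_succ]
      exact ⟨h1.1, h2.1⟩
    · simp [tyA, posL]
    · simp [tyA]
    · intro p hp1 hp2
      obtain h | h : p = i ∨ p = i + 1 := by omega
      · exact ⟨0, by decide, h⟩
      · exact ⟨1, by decide, h⟩

/-- A run of length three and a run of length two. -/
theorem gadB_of_pair (hG : Good G n c 6) {i j : ℤ} (h : Pair G n c i 2 j 1) :
    ∃ pos : ℕ → ℤ, IsG G tyB (fun a => c (pos a)) ∧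
      ∀ p, ((i ≤ p ∧ p ≤ i + 2) ∨ (j ≤ p ∧ p ≤ j + 1)) → ∃ a < tyB.k, p = pos a := by
  have A := fun {i j : ℤ} (h : i + 1 = j ∨ j + 1 = i) => hG.hc.adj' h
  have hsep : ∀ p q, i ≤ p → p ≤ i + 2 → j ≤ q → q ≤ j + 1 → p ≠ q := by
    intro p q h1 h2 h3 h4 h5
    exact h.sep p q h1 h2 h3 h4 (by rw [h5])
  have s0 := hsep i j (by omega) (by omega) (by omega) (by omega)
  have s1 := hsep i (j + 1) (by omega) (by omega) (by omega) (by omega)
  have s2 := hsep (i + 1) j (by omega) (by omega) (by omega) (by omega)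
  have s3 := hsep (i + 1) (j + 1) (by omega) (by omega) (by omega) (by omega)
  have s4 := hsep (i + 2) j (by omega) (by omega) (by omega) (by omega)
  have s5 := hsep (i + 2) (j + 1) (by omega) (by omega) (by omega) (by omega)
  rcases (h.cross hG).1 with ⟨h1, h2⟩ | ⟨h1, h2⟩
  · have hs : ∀ p, ((i ≤ p ∧ p ≤ i + 2) ∨ (j ≤ p ∧ p ≤ j + 1)) →
        ∃ a < tyB.k, p = posL [i, i + 1, i + 2, j, j + 1] a := by
      intro p hp
      obtain h | h | h | h | h : p = i ∨ p = i + 1 ∨ p = i + 2 ∨ p = j ∨ p = j + 1 := by omega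
      · exact ⟨0, by decide, h⟩
      · exact ⟨1, by decide, h⟩
      · exact ⟨2, by decide, h⟩
      · exact ⟨3, by decide, h⟩
      · exact ⟨4, by decide, h⟩
    refine ⟨posL [i, i + 1, i + 2, j, j + 1], isG_of_pos hG h tyB _ ?_ ?_ hs ?_ ?_ ?_ ?_, hs⟩
    · intro a ha b hb
      simp only [tyB] at ha hb
      interval_cases a <;> interval_cases b <;> intro hab <;>
        first
        | rfl
        | (exfalso; simp only [posL, List.getD_cons_zero, List.getD_cons_succ] at hab; omega)
    · intro a ha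
      simp only [tyB] at ha
      interval_cases a <;> simp only [posL, List.getD_cons_zero, List.getD_cons_succ] <;>
        omega
    · simp only [tyB, List.mem_cons, List.not_mem_nil, or_false, forall_eq_or_imp, forall_eq,
        posL, List.getD_cons_zero, List.getD_cons_succ]
      exact ⟨A (by omega), A (by omega), A (by omega)⟩
    · simp only [tyB, List.mem_cons, List.not_mem_nil, or_false, forall_eq_or_imp, forall_eq,
        posL, List.getD_cons_zero, List.getD_cons_succ]
      exact ⟨h1.1, h2.1, A (by omega)⟩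
    · simp [tyB, posL]
    · simp only [tyB, List.mem_cons, List.not_mem_nil, or_false, forall_eq,
        posL, List.getD_cons_zero, List.getD_cons_succ]
      omega
  · have hs : ∀ p, ((i ≤ p ∧ p ≤ i + 2) ∨ (j ≤ p ∧ p ≤ j + 1)) →
        ∃ a < tyB.k, p = posL [i, i + 1, i + 2, j + 1, j] a := by
      intro p hp
      obtain h | h | h | h | h : p = i ∨ p = i + 1 ∨ p = i + 2 ∨ p = j ∨ p = j + 1 := by omega
      · exact ⟨0, by decide, h⟩
      · exact ⟨1, by decide, h⟩
      · exact ⟨2, by decide, h⟩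
      · exact ⟨4, by decide, h⟩
      · exact ⟨3, by decide, h⟩
    refine ⟨posL [i, i + 1, i + 2, j + 1, j], isG_of_pos hG h tyB _ ?_ ?_ hs ?_ ?_ ?_ ?_, hs⟩
    · intro a ha b hb
      simp only [tyB] at ha hb
      interval_cases a <;> interval_cases b <;> intro hab <;>
        first
        | rfl
        | (exfalso; simp only [posL, List.getD_cons_zero, List.getD_cons_succ] at hab; omega)
    · intro a ha
      simp only [tyB] at ha
      interval_cases a <;> simp only [posL, List.getD_cons_zero, List.getD_cons_succ] <;>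
        omega
    · simp only [tyB, List.mem_cons, List.not_mem_nil, or_false, forall_eq_or_imp, forall_eq,
        posL, List.getD_cons_zero, List.getD_cons_succ]
      exact ⟨A (by omega), A (by omega), A (by omega)⟩
    · simp only [tyB, List.mem_cons, List.not_mem_nil, or_false, forall_eq_or_imp, forall_eq,
        posL, List.getD_cons_zero, List.getD_cons_succ]
      exact ⟨h1.1, h2.1, A (by omega)⟩
    · simp [tyB, posL]
    · simp only [tyB, List.mem_cons, List.not_mem_nil, or_false, forall_eq,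
        posL, List.getD_cons_zero, List.getD_cons_succ]
      omega

/-- Two runs of length three. -/
theorem gadC_of_pair (hG : Good G n c 6) {i j : ℤ} (h : Pair G n c i 2 j 2) :
    ∃ pos : ℕ → ℤ, IsG G tyC (fun a => c (pos a)) ∧
      ∀ p, ((i ≤ p ∧ p ≤ i + 2) ∨ (j ≤ p ∧ p ≤ j + 2)) → ∃ a < tyC.k, p = pos a := by
  have A := fun {i j : ℤ} (h : i + 1 = j ∨ j + 1 = i) => hG.hc.adj' h
  have hsep : ∀ p q, i ≤ p → p ≤ i + 2 → j ≤ q → q ≤ j + 2 → p ≠ q := by
    intro p q h1 h2 h3 h4 h5
    exact h.sep p q h1 h2 h3 h4 (by rw [h5])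
  have s0 := hsep i j (by omega) (by omega) (by omega) (by omega)
  have s1 := hsep i (j + 1) (by omega) (by omega) (by omega) (by omega)
  have s2 := hsep i (j + 2) (by omega) (by omega) (by omega) (by omega)
  have s3 := hsep (i + 1) j (by omega) (by omega) (by omega) (by omega)
  have s4 := hsep (i + 1) (j + 1) (by omega) (by omega) (by omega) (by omega)
  have s5 := hsep (i + 1) (j + 2) (by omega) (by omega) (by omega) (by omega)
  have s6 := hsep (i + 2) j (by omega) (by omega) (by omega) (by omega)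
  have s7 := hsep (i + 2) (j + 1) (by omega) (by omega) (by omega) (by omega)
  have s8 := hsep (i + 2) (j + 2) (by omega) (by omega) (by omega) (by omega)
  obtain ⟨h1, h2⟩ := (h.cross hG).2 rfl rfl
  have hs : ∀ p, ((i ≤ p ∧ p ≤ i + 2) ∨ (j ≤ p ∧ p ≤ j + 2)) →
      ∃ a < tyC.k, p = posL [i, i + 1, i + 2, j, j + 1, j + 2] a := by
    intro p hp
    obtain h | h | h | h | h | h : p = i ∨ p = i + 1 ∨ p = i + 2 ∨ p = j ∨ p = j + 1 ∨
      p = j + 2 := by omega
    · exact ⟨0, by decide, h⟩
    · exact ⟨1, by decide, h⟩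
    · exact ⟨2, by decide, h⟩
    · exact ⟨3, by decide, h⟩
    · exact ⟨4, by decide, h⟩
    · exact ⟨5, by decide, h⟩
  refine ⟨posL [i, i + 1, i + 2, j, j + 1, j + 2], isG_of_pos hG h tyC _ ?_ ?_ hs ?_ ?_ ?_ ?_,
    hs⟩
  · intro a ha b hb
    simp only [tyC] at ha hb
    interval_cases a <;> interval_cases b <;> intro hab <;>
        first
        | rfl
        | (exfalso; simp only [posL, List.getD_cons_zero, List.getD_cons_succ] at hab; omega)
  · intro a ha
    simp only [tyC] at ha
    interval_cases a <;> simp only [posL, List.getD_cons_zero, List.getD_cons_succ] <;>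
        omega
  · simp only [tyC, List.mem_cons, List.not_mem_nil, or_false, forall_eq_or_imp, forall_eq,
      posL, List.getD_cons_zero, List.getD_cons_succ]
    exact ⟨A (by omega), A (by omega), A (by omega), A (by omega)⟩
  · simp only [tyC, List.mem_cons, List.not_mem_nil, or_false, forall_eq_or_imp, forall_eq,
      posL, List.getD_cons_zero, List.getD_cons_succ]
    exact ⟨h1.1, A (by omega), h2.1, A (by omega)⟩
  · simp [tyC, posL]
  · simp only [tyC, List.mem_cons, List.not_mem_nil, or_false, forall_eq_or_imp, forall_eq,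
      posL, List.getD_cons_zero, List.getD_cons_succ]
    omega

/-- The structure theorem: in an irreducible long-`H`-free graph with a Hamiltonian cycle each
vertex has degree two or lies in a gadget. -/
theorem tee_of_good (hG : Good G n c 6) : Tee G := by
  intro v
  obtain ⟨p, rfl⟩ := hG.hc.surj v
  by_cases hp : Fr G c p
  · right
    obtain ⟨i, k, hR, hp1, hp2⟩ := exists_run hG hp
    obtain ⟨j, l, hP⟩ := exists_pair hG hR
    have hk := hP.r.1
    have hl := hP.r'.1
    rcases hk with rfl | rfl <;> rcases hl with rfl | rfl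
    · obtain ⟨pos, h1, h2⟩ := gadA_of_pair hG hP
      obtain ⟨a, ha, rfl⟩ := h2 p hp1 hp2
      exact ⟨tyA, by simp, _, h1, a, ha, rfl⟩
    · obtain ⟨pos, h1, h2⟩ := gadB_of_pair hG hP.symm
      obtain ⟨a, ha, rfl⟩ := h2 p (Or.inr ⟨hp1, hp2⟩)
      exact ⟨tyB, by simp, _, h1, a, ha, rfl⟩
    · obtain ⟨pos, h1, h2⟩ := gadB_of_pair hG hP
      obtain ⟨a, ha, rfl⟩ := h2 p (Or.inl ⟨hp1, hp2⟩)
      exact ⟨tyB, by simp, _, h1, a, ha, rfl⟩
    · obtain ⟨pos, h1, h2⟩ := gadC_of_pair hG hP
      obtain ⟨a, ha, rfl⟩ := h2 p (Or.inl ⟨hp1, hp2⟩)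
      exact ⟨tyC, by simp, _, h1, a, ha, rfl⟩
  · exact Or.inl (twoN_of_not_fr hG hp)

end H87.HC
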