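import Mathlib
import Pool.Agent.H87.HC.Cross

/-!
# The two reduction rules
-/

namespace H87.HC

open SimpleGraph

variable {V : Type} {G : SimpleGraph V} {n : ℕ} {c : ℤ → V} {M : ℕ}

/-- Delete one edge. -/
def del (G : SimpleGraph V) (a b : V) : SimpleGraph V where
  Adj x y := G.Adj x y ∧ ¬ ((x = a ∧ y = b) ∨ (x = b ∧ y = a))
  symm := ⟨fun _ _ h => ⟨h.1.symm, by tauto⟩⟩
  loopless := ⟨fun a h => G.loopless.irrefl a h.1⟩

/-- Rule one: the vertex `a` has two neighbours of degree two, both other than `b`. -/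
def Rem1 (G : SimpleGraph V) (a b : V) : Prop :=
  ∃ x y, x ≠ y ∧ TwoN G x ∧ TwoN G y ∧ G.Adj a x ∧ G.Adj a y ∧ b ≠ x ∧ b ≠ y

/-- Rule two: `a` and `b` lie on a path, all neighbours of whose inner vertices are on it. -/
def Rem2 (G : SimpleGraph V) (a b : V) : Prop :=
  ∃ (k : ℕ) (f : ℕ → V) (i j : ℕ), 2 ≤ k ∧ k ≤ 8 ∧
    (∀ x ≤ k, ∀ y ≤ k, f x = f y → x = y) ∧ (∀ x < k, G.Adj (f x) (f (x + 1))) ∧
    (∀ x, 0 < x → x < k → ∀ u, G.Adj (f x) u → ∃ y ≤ k, u = f y) ∧
    i + 2 ≤ j ∧ j ≤ k ∧ ((a = f i ∧ b = f j) ∨ (a = f j ∧ b = f i))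

/-- No rule applies. -/
def Irr (G : SimpleGraph V) : Prop := ∀ a b, G.Adj a b → ¬ Rem1 G a b ∧ ¬ Rem2 G a b

theorem twoN_pos (hc : HamC G n c) {q : ℤ} (h : TwoN G (c q)) {u : V} (hu : G.Adj (c q) u) :
    u = c (q - 1) ∨ u = c (q + 1) := by
  obtain ⟨x, y, hxy, hN⟩ := h
  have h3 := hc.three
  have h1 := (hN _).1 (hc.adj' (i := q) (j := q - 1) (Or.inr (by ring)))
  have h2 := (hN _).1 (hc.adj' (i := q) (j := q + 1) (Or.inl rfl))
  have hne : c (q - 1) ≠ c (q + 1) := by
    intro h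
    have := hc.eq_of_lt h (by omega) (by omega)
    omega
  rw [hN] at hu
  grind

theorem rem1_sound (hc : HamC G n c) {a b : V} (h : Rem1 G a b) : HamC (del G a b) n c := by
  obtain ⟨x, y, hxy, hx, hy, hax, hay, hbx, hby⟩ := h
  refine hc.mono fun i => ⟨hc.adj i, ?_⟩
  obtain ⟨p, rfl⟩ := hc.surj a
  have key : ∀ z, TwoN G z → G.Adj (c p) z → z = c (p - 1) ∨ z = c (p + 1) := by
    intro z hz hpz
    obtain ⟨q, rfl⟩ := hc.surj z
    rcases twoN_pos hc hz hpz.symm with h | h
    · right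
      have := hc.add_eq h 1
      rw [sub_add_cancel] at this
      exact this.symm
    · left
      have := hc.add_eq h (-1)
      rw [add_neg_cancel_right, ← sub_eq_add_neg] at this
      exact this.symm
  have kx := key x hx hax
  have ky := key y hy hay
  have kb : b ≠ c (p - 1) ∧ b ≠ c (p + 1) := by
    grind
  rintro (⟨h1, h2⟩ | ⟨h1, h2⟩)
  · apply kb.2
    rw [← h2]
    exact hc.add_eq h1 1
  · apply kb.1
    rw [← h1]
    have := hc.add_eq h2 (-1)
    rwa [add_neg_cancel_right, ← sub_eq_add_neg] at this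

/-- A position in `[0, n)` for each vertex. -/
theorem HamC.pos (hc : HamC G n c) (v : V) : ∃ p : ℤ, 0 ≤ p ∧ p < n ∧ c p = v := by
  obtain ⟨i, rfl⟩ := hc.surj v
  have h3 := hc.three
  have h0 : (0 : ℤ) < n := by omega
  refine ⟨i % n, Int.emod_nonneg i (ne_of_gt h0), Int.emod_lt_of_pos i h0, ?_⟩
  rw [hc.inj]
  exact ⟨-(i / n), by linarith [Int.emod_add_mul_ediv i n]⟩

/-- A predicate which does not change between consecutive positions is constant. -/
theorem const_on {P : ℤ → Prop} {x y : ℤ}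
    (h : ∀ p, x ≤ p → p < y → (P p ↔ P (p + 1))) : ∀ p q, x ≤ p → p ≤ y → x ≤ q → q ≤ y →
    (P p ↔ P q) := by
  have key : ∀ (m : ℕ), x + m ≤ y → (P x ↔ P (x + m)) := by
    intro m
    induction m with
    | zero => simp
    | succ m ih =>
      intro hm
      push_cast at hm
      rw [ih (by omega), h (x + m) (by omega) (by omega)]
      rw [show x + (m : ℤ) + 1 = x + ((m + 1 : ℕ) : ℤ) by push_cast; ring]
  intro p q hp1 hp2 hq1 hq2
  obtain ⟨a, rfl⟩ : ∃ a : ℕ, p = x + a := ⟨(p - x).toNat, by omega⟩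
  obtain ⟨b, rfl⟩ : ∃ b : ℕ, q = x + b := ⟨(q - x).toNat, by omega⟩
  rw [← key a hp2, ← key b hq2]

/-- Rerouting the cycle along a closed path, when the path occupies the right positions. -/
theorem reroute (hc : HamC G n c) {k : ℕ} {f : ℕ → V} (hk : 2 ≤ k) (hn : k + 1 < n)
    (hinj : ∀ x ≤ k, ∀ y ≤ k, f x = f y → x = y) (hadj : ∀ x < k, G.Adj (f x) (f (x + 1)))
    (h0 : c 0 = f 0) (hkk : c k = f k)
    (hin : ∀ p : ℤ, 0 < p → p < k → ∃ x, 0 < x ∧ x < k ∧ c p = f x)
    (hin' : ∀ x, 0 < x → x < k → ∃ p : ℤ, 0 < p ∧ p < k ∧ c p = f x)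
    {i j : ℕ} (hij : i + 2 ≤ j) (hj : j ≤ k) {a b : V}
    (hab : (a = f i ∧ b = f j) ∨ (a = f j ∧ b = f i)) : ∃ c', HamC (del G a b) n c' := by
  have h3 := hc.three
  have hn0 : (0 : ℤ) < n := by omega
  have hfc : ∀ x ≤ k, ∃ p : ℤ, 0 ≤ p ∧ p ≤ k ∧ c p = f x := by
    intro x hx
    rcases Nat.eq_zero_or_pos x with rfl | hx0
    · exact ⟨0, le_rfl, by omega, h0⟩
    rcases Nat.eq_or_lt_of_le hx with rfl | hx1
    · exact ⟨x, by omega, le_rfl, hkk⟩
    · obtain ⟨p, p1, p2, p3⟩ := hin' x hx0 hx1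
      exact ⟨p, by omega, by omega, p3⟩
  have hcf : ∀ p : ℤ, 0 ≤ p → p ≤ k → ∃ x ≤ k, c p = f x := by
    intro p hp0 hpk
    rcases eq_or_lt_of_le hp0 with rfl | hp1
    · exact ⟨0, by omega, h0⟩
    rcases eq_or_lt_of_le hpk with rfl | hp2
    · exact ⟨k, le_rfl, hkk⟩
    · obtain ⟨x, x1, x2, x3⟩ := hin p hp1 hp2
      exact ⟨x, by omega, x3⟩
  have hout : ∀ p : ℤ, (k : ℤ) < p → p < n → ∀ x ≤ k, c p ≠ f x := by
    intro p hp1 hp2 x hx h
    obtain ⟨q, q1, q2, q3⟩ := hfc x hx
    rw [← q3] at h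
    have := hc.eq_of_lt h (by omega) (by omega)
    omega
  let e : ℤ → V := fun i => if i % n ≤ k then f (i % n).toNat else c (i % n)
  have e1 : ∀ i r : ℤ, i % n = r → r ≤ k → e i = f r.toNat := by
    intro i r h h'
    show (if i % n ≤ k then f (i % n).toNat else c (i % n)) = _
    rw [h, if_pos h']
  have e2 : ∀ i r : ℤ, i % n = r → (k : ℤ) < r → e i = c r := by
    intro i r h h'
    show (if i % n ≤ k then f (i % n).toNat else c (i % n)) = _
    rw [h, if_neg (by omega)]
  refine ⟨e, hc.three, ?_, ?_, ?_⟩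
  · intro x y
    have x1 := Int.emod_nonneg x (ne_of_gt hn0)
    have x2 := Int.emod_lt_of_pos x hn0
    have y1 := Int.emod_nonneg y (ne_of_gt hn0)
    have y2 := Int.emod_lt_of_pos y hn0
    rw [← Int.emod_eq_emod_iff_emod_sub_eq_zero.trans (Int.dvd_iff_emod_eq_zero).symm]
    obtain ⟨r, hr⟩ : ∃ r, x % n = r := ⟨_, rfl⟩
    obtain ⟨r', hr'⟩ : ∃ r', y % n = r' := ⟨_, rfl⟩
    rw [hr] at x1 x2
    rw [hr'] at y1 y2
    rw [hr, hr']
    constructor
    · intro h
      by_cases hrk : r ≤ k <;> by_cases hrk' : r' ≤ k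
      · rw [e1 x r hr hrk, e1 y r' hr' hrk'] at h
        have := hinj _ (by omega) _ (by omega) h
        omega
      · rw [e1 x r hr hrk, e2 y r' hr' (by omega)] at h
        exact absurd h.symm (hout _ (by omega) y2 _ (by omega))
      · rw [e2 x r hr (by omega), e1 y r' hr' hrk'] at h
        exact absurd h (hout _ (by omega) x2 _ (by omega))
      · rw [e2 x r hr (by omega), e2 y r' hr' (by omega)] at h
        exact hc.eq_of_lt h (by omega) (by omega)
    · rintro rfl
      by_cases hrk : r ≤ k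
      · rw [e1 x r hr hrk, e1 y r hr' hrk]
      · rw [e2 x r hr (by omega), e2 y r hr' (by omega)]
  · intro v
    obtain ⟨p, p1, p2, rfl⟩ := hc.pos v
    by_cases hpk : p ≤ k
    · obtain ⟨x, hx, hx'⟩ := hcf p p1 hpk
      refine ⟨x, ?_⟩
      rw [e1 x x (Int.emod_eq_of_lt (by omega) (by omega)) (by omega), hx']
      simp
    · refine ⟨p, ?_⟩
      rw [e2 p p (Int.emod_eq_of_lt (by omega) (by omega)) (by omega)]
  · intro x
    have x1 := Int.emod_nonneg x (ne_of_gt hn0)
    have x2 := Int.emod_lt_of_pos x hn0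
    obtain ⟨r, hr⟩ : ∃ r, x % n = r := ⟨_, rfl⟩
    rw [hr] at x1 x2
    have hsucc : r + 1 < n → (x + 1) % n = r + 1 := by
      intro h
      rw [Int.add_emod, hr, Int.emod_eq_of_lt (a := 1) (by omega) (by omega)]
      exact Int.emod_eq_of_lt (by omega) h
    have hlast : r + 1 = n → (x + 1) % n = 0 := by
      intro h
      rw [Int.add_emod, hr, Int.emod_eq_of_lt (a := 1) (by omega) (by omega), h, Int.emod_self]
    have hneab : ∀ p : ℤ, (k : ℤ) < p → p < n → c p ≠ a ∧ c p ≠ b := by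
      intro p hp1 hp2
      rcases hab with ⟨rfl, rfl⟩ | ⟨rfl, rfl⟩
      · exact ⟨hout p hp1 hp2 i (by omega), hout p hp1 hp2 j (by omega)⟩
      · exact ⟨hout p hp1 hp2 j (by omega), hout p hp1 hp2 i (by omega)⟩
    by_cases h1 : r < k
    · rw [e1 x r hr (by omega), e1 (x + 1) (r + 1) (hsucc (by omega)) (by omega)]
      obtain ⟨m, rfl⟩ : ∃ m : ℕ, r = m := ⟨r.toNat, by omega⟩
      have hm : m < k := by omega
      rw [show ((m : ℤ) + 1).toNat = m + 1 by omega, show ((m : ℤ)).toNat = m by omega]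
      refine ⟨hadj m hm, ?_⟩
      have i1 : ∀ y ≤ k, f m = f y → m = y := fun y hy h => hinj m (by omega) y hy h
      have i2 : ∀ y ≤ k, f (m + 1) = f y → m + 1 = y := fun y hy h => hinj (m + 1) (by omega) y hy h
      rcases hab with ⟨rfl, rfl⟩ | ⟨rfl, rfl⟩
      · rintro (⟨h, h'⟩ | ⟨h, h'⟩)
        · have := i1 i (by omega) h; have := i2 j hj h'; omega
        · have := i1 j hj h; have := i2 i (by omega) h'; omega
      · rintro (⟨h, h'⟩ | ⟨h, h'⟩)
        · have := i1 j hj h; have := i2 i (by omega) h'; omega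
        · have := i1 i (by omega) h; have := i2 j hj h'; omega
    by_cases h2 : r = k
    · subst h2
      rw [e1 x k hr le_rfl, e2 (x + 1) (k + 1) (hsucc (by omega)) (by omega)]
      rw [show ((k : ℤ)).toNat = k by omega, ← hkk]
      refine ⟨hc.adj k, ?_⟩
      have := hneab ((k : ℤ) + 1) (by omega) (by omega)
      rintro (⟨h, h'⟩ | ⟨h, h'⟩)
      · exact this.2 h'
      · exact this.1 h'
    have hr' := hneab r (by omega) (by omega)
    by_cases h4 : r + 1 = n
    · rw [e2 x r hr (by omega), e1 (x + 1) 0 (hlast h4) (by omega)]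
      show (del G a b).Adj (c r) (f 0)
      rw [← h0]
      refine ⟨?_, ?_⟩
      · have := hc.adj r
        rw [h4] at this
        rwa [show c n = c 0 by rw [hc.inj]; simp] at this
      · rintro (⟨h, h'⟩ | ⟨h, h'⟩)
        · exact hr'.1 h
        · exact hr'.2 h
    · rw [e2 x r hr (by omega), e2 (x + 1) (r + 1) (hsucc (by omega)) (by omega)]
      refine ⟨hc.adj r, ?_⟩
      rintro (⟨h, h'⟩ | ⟨h, h'⟩)
      · exact hr'.1 h
      · exact hr'.2 h

/-- Rerouting, when the inner vertices of the path occupy an interval of positions. -/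
theorem reroute' (hc : HamC G n c) {k : ℕ} {f : ℕ → V} (hk : 2 ≤ k) (hn : k + 1 < n)
    (hinj : ∀ x ≤ k, ∀ y ≤ k, f x = f y → x = y) (hadj : ∀ x < k, G.Adj (f x) (f (x + 1)))
    {m : ℤ} (hm0 : 0 < m) (hmn : m < n)
    (h0 : c 0 = f 0) (hkk : c m = f k)
    (hin : ∀ p : ℤ, 0 < p → p < m → ∃ x, 0 < x ∧ x < k ∧ c p = f x)
    (hin' : ∀ x, 0 < x → x < k → ∃ p : ℤ, 0 < p ∧ p < m ∧ c p = f x)
    {i j : ℕ} (hij : i + 2 ≤ j) (hj : j ≤ k) {a b : V}
    (hab : (a = f i ∧ b = f j) ∨ (a = f j ∧ b = f i)) : ∃ c', HamC (del G a b) n c' := by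
  classical
  have hmk : m = k := by
    have h1 : (Finset.Ioo (0 : ℤ) m).image c = (Finset.Ioo 0 k).image f := by
      ext v
      simp only [Finset.mem_image, Finset.mem_Ioo]
      constructor
      · rintro ⟨p, ⟨p1, p2⟩, rfl⟩
        obtain ⟨x, x1, x2, x3⟩ := hin p p1 p2
        exact ⟨x, ⟨x1, x2⟩, x3.symm⟩
      · rintro ⟨x, ⟨x1, x2⟩, rfl⟩
        obtain ⟨p, p1, p2, p3⟩ := hin' x x1 x2
        exact ⟨p, ⟨p1, p2⟩, p3⟩
    have h2 : ((Finset.Ioo (0 : ℤ) m).image c).card = (m - 1).toNat := by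
      rw [Finset.card_image_of_injOn]
      · rw [Int.card_Ioo]
        congr 1
        ring
      · intro p hp q hq hpq
        simp only [Finset.coe_Ioo, Set.mem_Ioo] at hp hq
        exact hc.eq_of_lt hpq (by omega) (by omega)
    have h3 : ((Finset.Ioo 0 k).image f).card = k - 1 := by
      rw [Finset.card_image_of_injOn]
      · simp
      · intro p hp q hq hpq
        simp only [Finset.coe_Ioo, Set.mem_Ioo] at hp hq
        exact hinj p (by omega) q (by omega) hpq
    rw [h1, h3] at h2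
    omega
  subst hmk
  exact reroute hc hk hn hinj hadj h0 hkk hin hin' hij hj hab

theorem rem2_sound (hc : HamC G n c) (hn : 60 ≤ n) {a b : V} (h : Rem2 G a b) :
    ∃ c', HamC (del G a b) n c' := by
  classical
  obtain ⟨k, f, i, j, hk2, hk8, hinj, hadj, hclosed, hij, hj, hab⟩ := h
  -- move `f 0` to position zero
  obtain ⟨p0, hp0⟩ := hc.surj (f 0)
  wlog h0 : c 0 = f 0 generalizing c p0
  · exact this (hc.shift p0) 0 (by simpa using hp0) (by simpa using hp0)
  clear hp0 p0
  obtain ⟨m, hm1, hm2, hm⟩ := hc.pos (f k)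
  have hm0 : 0 < m := by
    rcases eq_or_lt_of_le hm1 with rfl | h
    · rw [h0] at hm
      have := hinj 0 (by omega) k le_rfl hm
      omega
    · exact h
  -- inner positions
  have hstep : ∀ p q : ℤ, G.Adj (c p) (c q) → 0 < q → q < n → q ≠ m →
      (∃ x, 0 < x ∧ x < k ∧ c p = f x) → ∃ x, 0 < x ∧ x < k ∧ c q = f x := by
    rintro p q hpq hq0 hqn hqm ⟨x, x1, x2, x3⟩
    rw [x3] at hpq
    obtain ⟨y, y1, y2⟩ := hclosed x x1 x2 _ hpq
    refine ⟨y, ?_, ?_, y2⟩
    · rcases Nat.eq_zero_or_pos y with rfl | h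
      · rw [← h0] at y2
        have := hc.eq_of_lt y2 (by omega) (by omega)
        omega
      · exact h
    · rcases Nat.eq_or_lt_of_le y1 with rfl | h
      · rw [← hm] at y2
        exact absurd (hc.eq_of_lt y2 (by omega) (by omega)) hqm
      · exact h
  have hiff : ∀ p q : ℤ, G.Adj (c p) (c q) → 0 < p → p < n → p ≠ m → 0 < q → q < n → q ≠ m →
      ((∃ x, 0 < x ∧ x < k ∧ c p = f x) ↔ ∃ x, 0 < x ∧ x < k ∧ c q = f x) :=
    fun p q h p1 p2 p3 q1 q2 q3 => ⟨hstep p q h q1 q2 q3, hstep q p h.symm p1 p2 p3⟩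
  have hS1 := const_on (P := fun p => ∃ x, 0 < x ∧ x < k ∧ c p = f x) (x := 1) (y := m - 1)
    (fun p hp1 hp2 => hiff p (p + 1) (hc.adj p) (by omega) (by omega) (by omega) (by omega)
      (by omega) (by omega))
  have hS2 := const_on (P := fun p => ∃ x, 0 < x ∧ x < k ∧ c p = f x) (x := m + 1) (y := n - 1)
    (fun p hp1 hp2 => hiff p (p + 1) (hc.adj p) (by omega) (by omega) (by omega) (by omega)
      (by omega) (by omega))
  -- a position in the inside and one in the outside
  obtain ⟨qi, qi1, qi2, qi3⟩ := hc.pos (f 1)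
  have qi0 : qi ≠ 0 := by
    rintro rfl
    rw [h0] at qi3
    have := hinj 0 (by omega) 1 (by omega) qi3
    omega
  have qim : qi ≠ m := by
    rintro rfl
    rw [hm] at qi3
    have := hinj k le_rfl 1 (by omega) qi3
    omega
  have hout : ∃ q : ℤ, 0 ≤ q ∧ q < n ∧ ∀ x ≤ k, c q ≠ f x := by
    by_contra hcon
    push Not at hcon
    have h1 : (Finset.Ico (0 : ℤ) n).image c ⊆ (Finset.range (k + 1)).image f := by
      intro v hv
      simp only [Finset.mem_image, Finset.mem_Ico, Finset.mem_range] at hv ⊢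
      obtain ⟨p, ⟨p1, p2⟩, rfl⟩ := hv
      obtain ⟨x, x1, x2⟩ := hcon p p1 p2
      exact ⟨x, by omega, x2.symm⟩
    have h2 := Finset.card_le_card h1
    rw [Finset.card_image_of_injOn] at h2
    · have h3 := Finset.card_image_le (s := Finset.range (k + 1)) (f := f)
      rw [Int.card_Ico] at h2
      rw [Finset.card_range] at h3
      omega
    · intro p hp q hq hpq
      simp only [Finset.coe_Ico, Set.mem_Ico] at hp hq
      exact hc.eq_of_lt hpq (by omega) (by omega)
  obtain ⟨qo, qo1, qo2, qo3⟩ := hout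
  have qo0 : qo ≠ 0 := by
    rintro rfl
    exact qo3 0 (by omega) h0
  have qom : qo ≠ m := by
    rintro rfl
    exact qo3 k le_rfl hm
  have qoP : ¬ ∃ x, 0 < x ∧ x < k ∧ c qo = f x := by
    rintro ⟨x, x1, x2, x3⟩
    exact qo3 x (by omega) x3
  have qiP : ∃ x, 0 < x ∧ x < k ∧ c qi = f x := ⟨1, by omega, by omega, qi3⟩
  have hfpos : ∀ x, 0 < x → x < k → ∃ p : ℤ, 0 < p ∧ p < n ∧ p ≠ m ∧ c p = f x := by
    intro x x1 x2
    obtain ⟨p, p1, p2, p3⟩ := hc.pos (f x)
    refine ⟨p, ?_, p2, ?_, p3⟩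
    · rcases eq_or_lt_of_le p1 with rfl | h
      · rw [h0] at p3
        have := hinj 0 (by omega) x (by omega) p3
        omega
      · exact h
    · rintro rfl
      rw [hm] at p3
      have := hinj k le_rfl x (by omega) p3
      omega
  by_cases hcase : qi < m
  · -- the inside is the first segment
    have hqo : m < qo := by
      by_contra hcon
      exact qoP ((hS1 qi qo (by omega) (by omega) (by omega) (by omega)).1 qiP)
    have in1 : ∀ p : ℤ, 0 < p → p < m → ∃ x, 0 < x ∧ x < k ∧ c p = f x := fun p p1 p2 =>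
      (hS1 qi p (by omega) (by omega) (by omega) (by omega)).1 qiP
    refine reroute' hc hk2 (by omega) hinj hadj hm0 hm2 h0 hm in1 ?_ hij hj hab
    intro x x1 x2
    obtain ⟨p, p1, p2, p3, p4⟩ := hfpos x x1 x2
    refine ⟨p, p1, ?_, p4⟩
    by_contra hcon
    exact qoP ((hS2 p qo (by omega) (by omega) (by omega) (by omega)).1 ⟨x, x1, x2, p4⟩)
  · -- the inside is the second segment
    have hqo : qo < m := by
      by_contra hcon
      exact qoP ((hS2 qi qo (by omega) (by omega) (by omega) (by omega)).1 qiP)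
    have in2 : ∀ p : ℤ, m < p → p < n → ∃ x, 0 < x ∧ x < k ∧ c p = f x := fun p p1 p2 =>
      (hS2 qi p (by omega) (by omega) (by omega) (by omega)).1 qiP
    have hper : ∀ p : ℤ, c (-p) = c (n - p) := by
      intro p
      rw [hc.inj]
      exact ⟨-1, by ring⟩
    refine reroute' (m := n - m) hc.reflect hk2 (by omega) hinj hadj (by omega) (by omega)
      (by simpa using h0) ?_ ?_ ?_ hij hj hab
    · show c (-(n - m)) = f k
      rw [hper, ← hm]
      congr 1
      ring
    · intro p p1 p2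
      obtain ⟨x, x1, x2, x3⟩ := in2 (n - p) (by omega) (by omega)
      exact ⟨x, x1, x2, by show c (-p) = f x; rw [hper, x3]⟩
    · intro x x1 x2
      obtain ⟨p, p1, p2, p3, p4⟩ := hfpos x x1 x2
      refine ⟨n - p, by omega, ?_, ?_⟩
      · by_contra hcon
        exact qoP ((hS1 p qo (by omega) (by omega) (by omega) (by omega)).1 ⟨x, x1, x2, p4⟩)
      · show c (-(n - p)) = f x
        rw [hper, ← p4]
        congr 1
        ring

/-- The removal of a removable edge does not destroy all Hamiltonian cycles. -/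
theorem rem_sound (hc : HamC G n c) (hn : 60 ≤ n) {a b : V} (h : Rem1 G a b ∨ Rem2 G a b) :
    ∃ c', HamC (del G a b) n c' := by
  rcases h with h | h
  · exact ⟨c, rem1_sound hc h⟩
  · exact rem2_sound hc hn h

/-- The standing assumptions hold in an irreducible graph. -/
theorem good_of_irr (hc : HamC G n c) (hn : 60 ≤ n) (hF : longH.Free G) (hI : Irr G) :
    Good G n c 2 := by
  refine ⟨hc, hn, hF, ?_, ?_, ?_⟩
  · intro v hv
    by_contra hcon
    push Not at hcon
    obtain ⟨t, ht⟩ := hv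
    have two : ∀ i, ¬ Fr G c i → TwoN G (c i) := by
      intro i h
      refine ⟨c (i - 1), c (i + 1), ?_, ?_⟩
      · intro h'
        have := hc.eq_of_lt h' (by omega) (by omega)
        omega
      · intro u
        constructor
        · intro hu
          obtain ⟨j, rfl⟩ := hc.surj u
          by_contra hcon
          push Not at hcon
          exact h ⟨j, hu, hcon.1, hcon.2⟩
        · rintro (rfl | rfl)
          · exact hc.adj' (Or.inr (by ring))
          · exact hc.adj' (Or.inl rfl)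
    refine (hI _ _ ht.1).1 ⟨c (v - 1), c (v + 1), ?_, two _ hcon.1, two _ hcon.2,
      hc.adj' (Or.inr (by ring)), hc.adj' (Or.inl rfl), ht.2.1, ht.2.2⟩
    intro h'
    have := hc.eq_of_lt h' (by omega) (by omega)
    omega
  · intro p q i j h1 h2 h3 h4 h5 h6
    by_contra hcon
    push Not at hcon
    refine (hI _ _ h6).2 ⟨(q - p).toNat, fun x => c (p + x), (i - p).toNat, (j - p).toNat,
      by omega, by omega, ?_, ?_, ?_, by omega, by omega, Or.inl ⟨?_, ?_⟩⟩
    · intro x hx y hy hxy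
      have := hc.eq_of_lt hxy (by omega) (by omega)
      omega
    · intro x hx
      exact hc.adj' (Or.inl (by push_cast; ring))
    · intro x hx1 hx2 u hu
      obtain ⟨t, rfl⟩ := hc.surj u
      obtain ⟨s, s1, s2, s3⟩ := hcon (p + x) t (by omega) (by omega) hu
      refine ⟨(s - p).toNat, by omega, ?_⟩
      show c t = c (p + ((s - p).toNat : ℤ))
      rw [← s3]
      congr 1
      omega
    · show c i = c (p + ((i - p).toNat : ℤ))
      congr 1
      omega
    · show c j = c (p + ((j - p).toNat : ℤ))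
      congr 1
      omega
  · intro i j _ h
    push_cast
    exact h

/-- The structure theorem. -/
theorem tee_of_irr (hc : HamC G n c) (hn : 60 ≤ n) (hF : longH.Free G) (hI : Irr G) : Tee G :=
  tee_of_good (good_of_irr hc hn hF hI).six

end H87.HC
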