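import Mathlib
import Pool.Agent.H87.HC.Rules

/-!
# The branching step
-/

namespace H87.HC

open SimpleGraph

variable {V : Type} {G : SimpleGraph V} {n : ℕ} {c : ℤ → V} {M : ℕ}

/-- The vertices `a` and `b` are consecutive on the segment `g 0, ..., g 6`. -/
def Cons (g : ℕ → V) (a b : V) : Prop :=
  ∃ i < 6, (a = g i ∧ b = g (i + 1)) ∨ (a = g (i + 1) ∧ b = g i)

/-- The vertex `a` is an inner vertex of the segment `g 0, ..., g 6`. -/
def Inn (g : ℕ → V) (a : V) : Prop := ∃ i, 1 ≤ i ∧ i ≤ 5 ∧ a = g i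

/-- The edge `a b` is kept. -/
def Keep (g : ℕ → V) (a b : V) : Prop := Cons g a b ∨ (¬ Inn g a ∧ ¬ Inn g b)

theorem Keep.symm {g : ℕ → V} {a b : V} (h : Keep g a b) : Keep g b a := by
  rcases h with ⟨i, hi, h⟩ | ⟨h1, h2⟩
  · exact Or.inl ⟨i, hi, by tauto⟩
  · exact Or.inr ⟨h2, h1⟩

/-- Keep only the segment edges at the inner vertices of the eleven segments. -/
def brk (G : SimpleGraph V) (s : ℕ → ℕ → V) : SimpleGraph V where
  Adj a b := G.Adj a b ∧ ∀ r < 11, Keep (s r) a b
  symm := ⟨fun _ _ h => ⟨h.1.symm, fun r hr => (h.2 r hr).symm⟩⟩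
  loopless := ⟨fun a h => G.loopless.irrefl a h.1⟩

instance : DecidableRel longH.Adj := fun a b =>
  inferInstanceAs (Decidable ((a, b) ∈ longHEdges ∨ (b, a) ∈ longHEdges))

theorem near_centre (x : Fin 11) : ∃ z : Fin 11, (z = 0 ∨ z = 2) ∧
    (x = z ∨ longH.Adj x z ∨ ∃ y, longH.Adj x y ∧ longH.Adj y z) := by
  revert x
  decide

theorem centre_deg (z : Fin 11) (hz : z = 0 ∨ z = 2) : ∃ a b d : Fin 11,
    a ≠ b ∧ a ≠ d ∧ b ≠ d ∧ longH.Adj z a ∧ longH.Adj z b ∧ longH.Adj z d := by
  rcases hz with rfl | rfl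
  · exact ⟨1, 3, 5, by decide⟩
  · exact ⟨1, 7, 9, by decide⟩

theorem hamC_brk (hc : HamC G n c) (q : ℕ → ℤ) :
    HamC (brk G (fun r i => c (q r + i - 3))) n c := by
  refine hc.mono fun x => ⟨hc.adj x, fun r _ => ?_⟩
  by_cases h1 : Inn (fun i => c (q r + i - 3)) (c x)
  · obtain ⟨i, i1, i2, hi⟩ := h1
    refine Or.inl ⟨i, by omega, Or.inl ⟨hi, ?_⟩⟩
    have := hc.add_eq hi 1
    show c (x + 1) = c (q r + ((i + 1 : ℕ) : ℤ) - 3)
    rw [this]
    congr 1
    push_cast
    ring
  by_cases h2 : Inn (fun i => c (q r + i - 3)) (c (x + 1))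
  · obtain ⟨i, i1, i2, hi⟩ := h2
    refine Or.inl ⟨i - 1, by omega, Or.inl ⟨?_, ?_⟩⟩
    · have := hc.add_eq hi (-1)
      rw [add_neg_cancel_right] at this
      show c x = c (q r + ((i - 1 : ℕ) : ℤ) - 3)
      rw [this]
      congr 1
      omega
    · show c (x + 1) = c (q r + ((i - 1 + 1 : ℕ) : ℤ) - 3)
      rw [hi]
      show c (q r + (i : ℤ) - 3) = _
      congr 1
      omega
  · exact Or.inr ⟨h1, h2⟩

theorem brk_nb (hc : HamC G n c) (hn : 60 ≤ n) (q : ℕ → ℤ) {r : ℕ} (hr : r < 11) {i : ℕ}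
    (i1 : 1 ≤ i) (i2 : i ≤ 5) {u : V}
    (h : (brk G (fun r i => c (q r + i - 3))).Adj (c (q r + i - 3)) u) :
    u = c (q r + (i - 1 : ℕ) - 3) ∨ u = c (q r + (i + 1 : ℕ) - 3) := by
  rcases h.2 r hr with ⟨i', h', ⟨e1, e2⟩ | ⟨e1, e2⟩⟩ | ⟨h1, _⟩
  · have := hc.eq_of_lt e1 (by omega) (by omega)
    have hii : i = i' := by omega
    subst hii
    exact Or.inr e2
  · have := hc.eq_of_lt e1 (by omega) (by omega)
    have hii : i - 1 = i' := by omega
    subst hii
    exact Or.inl e2
  · exact absurd ⟨i, i1, i2, rfl⟩ h1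

/-- If `G` has no two disjoint long-`H`s, then the right choice of the eleven segments leaves a
long-`H`-free graph. -/
theorem exists_branch (hc : HamC G n c) (hn : 60 ≤ n) (hF : (longH ⊕g longH).Free G) :
    ∃ s : ℕ → ℕ → V, HamC (brk G s) n c ∧ longH.Free (brk G s) := by
  by_cases hl : longH.Free G
  · refine ⟨_, hamC_brk hc (fun _ => 0), fun h => hl (h.mono_right ?_)⟩
    intro a b h
    exact h.1
  · obtain ⟨φ0⟩ := not_free.1 hl
    choose q hq using fun r : Fin 11 => hc.surj (φ0 r)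
    refine ⟨_, hamC_brk hc (fun r => q (Fin.ofNat 11 r)), ?_⟩
    rintro ⟨φ⟩
    -- the two copies meet
    have hmeet : ∃ x y, φ x = φ0 y := by
      by_contra hcon
      push Not at hcon
      apply hF
      refine ⟨⟨⟨Sum.elim φ φ0, ?_⟩, ?_⟩⟩
      · rintro (a | a) (b | b) hab
        · exact (φ.toHom.map_adj hab).1
        · exact absurd hab (by simp)
        · exact absurd hab (by simp)
        · exact φ0.toHom.map_adj hab
      · rintro (a | a) (b | b) hab
        · exact congrArg _ (φ.injective hab)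
        · exact absurd hab (hcon a b)
        · exact absurd hab.symm (hcon b a)
        · exact congrArg _ (φ0.injective hab)
    obtain ⟨x, r, hxr⟩ := hmeet
    have hr := r.2
    have hqr : q (Fin.ofNat 11 (r : ℕ)) = q r := by
      congr 1
      ext
      simp
    have nb := fun {i : ℕ} (i1 : 1 ≤ i) (i2 : i ≤ 5) {u : V} =>
      brk_nb (u := u) hc hn (fun r => q (Fin.ofNat 11 r)) hr i1 i2
    have hx3 : φ x = c (q (Fin.ofNat 11 (r : ℕ)) + (3 : ℕ) - 3) := by
      rw [hqr, hxr, ← hq r]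
      congr 1
      push_cast
      ring
    have hadj : ∀ {a b : Fin 11}, longH.Adj a b →
        (brk G (fun r i => c (q (Fin.ofNat 11 r) + i - 3))).Adj (φ a) (φ b) :=
      fun h => φ.toHom.map_adj h
    obtain ⟨z, hz, hpath⟩ := near_centre x
    -- the centre is an inner vertex of the segment
    have hcen : ∃ i, 1 ≤ i ∧ i ≤ 5 ∧ φ z = c (q (Fin.ofNat 11 (r : ℕ)) + (i : ℕ) - 3) := by
      rcases hpath with rfl | h | ⟨y, h1, h2⟩
      · exact ⟨3, by omega, by omega, hx3⟩
      · have h' := hadj h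
        rw [hx3] at h'
        rcases nb (by omega) (by omega) h' with h | h
        · exact ⟨2, by omega, by omega, h⟩
        · exact ⟨4, by omega, by omega, h⟩
      · have h' := hadj h1
        rw [hx3] at h'
        have h'' := hadj h2
        rcases nb (by omega) (by omega) h' with h | h
        · rw [h] at h''
          rcases nb (by omega) (by omega) h'' with h | h
          · exact ⟨1, by omega, by omega, h⟩
          · exact ⟨3, by omega, by omega, h⟩
        · rw [h] at h''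
          rcases nb (by omega) (by omega) h'' with h | h
          · exact ⟨3, by omega, by omega, h⟩
          · exact ⟨5, by omega, by omega, h⟩
    obtain ⟨i, i1, i2, hi⟩ := hcen
    obtain ⟨a, b, d, hab, had, hbd, h1, h2, h3⟩ := centre_deg z hz
    have g1 := hadj h1
    have g2 := hadj h2
    have g3 := hadj h3
    rw [hi] at g1 g2 g3
    have k1 := nb i1 i2 g1
    have k2 := nb i1 i2 g2
    have k3 := nb i1 i2 g3
    have e1 : φ a ≠ φ b := fun h => hab (φ.injective h)
    have e2 : φ a ≠ φ d := fun h => had (φ.injective h)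
    have e3 : φ b ≠ φ d := fun h => hbd (φ.injective h)
    grind

end H87.HC
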