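import Mathlib
import Pool.Agent.H87.HC.Algo
import Pool.Agent.H87.HC.Branch

/-!
# Correctness of the tests
-/

namespace H87.HC

open Pool.Agent.PPS SimpleGraph

variable {n : ℕ} {E : List (ℕ × ℕ)}

theorem adj_symm (E : List (ℕ × ℕ)) (a b : ℕ) : adj E a b = adj E b a := by
  unfold adj
  rw [Bool.or_comm]
  congr 2
  rw [decide_eq_decide]
  exact eq_comm

theorem adj_self (E : List (ℕ × ℕ)) (a : ℕ) : adj E a a = false := by simp [adj]

/-- The graph with edge list `E`. -/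
def gr (n : ℕ) (E : List (ℕ × ℕ)) : SimpleGraph (Fin n) where
  Adj a b := adj E a b = true
  symm := ⟨fun a b h => by rw [adj_symm]; exact h⟩
  loopless := ⟨fun a h => by rw [adj_self] at h; simp at h⟩

theorem gr_adj {a b : Fin n} : (gr n E).Adj a b ↔ adj E a b = true := Iff.rfl

theorem mem_nb {v u : ℕ} : u ∈ nb n E v ↔ u < n ∧ adj E v u = true := by
  simp [nb]

theorem two_iff {v : Fin n} : two n E v = true ↔ TwoN (gr n E) v := by
  have hnd : (nb n E v).Nodup := List.nodup_range.filter _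
  unfold two
  rw [decide_eq_true_iff]
  constructor
  · intro h
    obtain ⟨p, q, hpq⟩ := List.length_eq_two.1 h
    have hp : p ∈ nb n E v := by rw [hpq]; simp
    have hq : q ∈ nb n E v := by rw [hpq]; simp
    rw [hpq] at hnd
    refine ⟨⟨p, (mem_nb.1 hp).1⟩, ⟨q, (mem_nb.1 hq).1⟩, ?_, ?_⟩
    · intro h
      rw [Fin.mk.injEq] at h
      simp [h] at hnd
    · intro u
      rw [gr_adj, Fin.ext_iff, Fin.ext_iff]
      have : adj E v u = true ↔ (u : ℕ) ∈ nb n E v := by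
        rw [mem_nb]
        exact ⟨fun h => ⟨u.2, h⟩, fun h => h.2⟩
      rw [this]
      simp [hpq]
  · rintro ⟨p, q, hpq, h⟩
    have : (nb n E v).toFinset = {(p : ℕ), (q : ℕ)} := by
      ext u
      rw [List.mem_toFinset, mem_nb, Finset.mem_insert, Finset.mem_singleton]
      constructor
      · rintro ⟨h1, h2⟩
        have := (h ⟨u, h1⟩).1 h2
        rwa [Fin.ext_iff, Fin.ext_iff] at this
      · rintro (rfl | rfl)
        · exact ⟨p.2, (h p).2 (Or.inl rfl)⟩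
        · exact ⟨q.2, (h q).2 (Or.inr rfl)⟩
    rw [← List.toFinset_card_of_nodup hnd, this, Finset.card_pair]
    exact fun h => hpq (Fin.ext h)

theorem mem_tuples {k : ℕ} {t : List ℕ} :
    t ∈ tuples n k ↔ t.length = k ∧ ∀ x ∈ t, x < n := by
  induction k generalizing t with
  | zero =>
    simp only [tuples, List.mem_singleton]
    constructor
    · rintro rfl; simp
    · rintro ⟨h, _⟩; exact List.length_eq_zero_iff.1 h
  | succ k ih =>
    simp only [tuples, List.mem_flatMap, List.mem_map, List.mem_range]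
    constructor
    · rintro ⟨t', ht', i, hi, rfl⟩
      rw [ih] at ht'
      exact ⟨by simp [ht'.1], by simpa using ⟨hi, ht'.2⟩⟩
    · rintro ⟨h1, h2⟩
      match t, h1 with
      | i :: t', h1 =>
        exact ⟨t', ih.2 ⟨by simpa using h1, fun x hx => h2 x (List.mem_cons_of_mem _ hx)⟩, i,
          h2 i (by simp), rfl⟩

/-- The first `k` entries agree with the values of `f`. -/
def Ag (k : ℕ) (t : List ℕ) (f : ℕ → Fin n) : Prop := ∀ i < k, at' t i = (f i : ℕ)

theorem exists_ag {k : ℕ} {t : List ℕ} (h : t ∈ tuples n k) (hk : 0 < k) :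
    ∃ f : ℕ → Fin n, Ag k t f := by
  rw [mem_tuples] at h
  have hlt : ∀ i < k, at' t i < n := by
    intro i hi
    unfold at'
    rw [List.getD_eq_getElem _ _ (by omega)]
    exact h.2 _ (List.getElem_mem _)
  exact ⟨fun i => if hi : i < k then ⟨at' t i, hlt i hi⟩ else ⟨at' t 0, hlt 0 hk⟩,
    fun i hi => by simp [hi]⟩

theorem exists_tuple (f : ℕ → Fin n) (k : ℕ) : ∃ t ∈ tuples n k, Ag k t f := by
  refine ⟨(List.range k).map (fun i => (f i : ℕ)), ?_, ?_⟩
  · rw [mem_tuples]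
    refine ⟨by simp, ?_⟩
    intro x hx
    obtain ⟨i, _, rfl⟩ := List.mem_map.1 hx
    exact (f i).2
  · intro i hi
    unfold at'
    rw [List.getD_eq_getElem _ _ (by simpa using hi)]
    simp

theorem Ag.mono {k k' : ℕ} {t : List ℕ} {f : ℕ → Fin n} (h : Ag k t f) (hk : k' ≤ k) :
    Ag k' t f := fun i hi => h i (by omega)

theorem injB_iff {k : ℕ} {t : List ℕ} {f : ℕ → Fin n} (h : Ag k t f) :
    injB k t = true ↔ ∀ a < k, ∀ b < k, f a = f b → a = b := by
  simp only [injB, List.all_eq_true, List.mem_range, Bool.or_eq_true, Bool.not_eq_true',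
    decide_eq_false_iff_not, decide_eq_true_eq]
  constructor
  · intro hi a ha b hb hab
    rcases hi a ha b hb with h' | h'
    · rw [h a ha, h b hb, hab] at h'
      exact absurd rfl h'
    · exact h'
  · intro hi a ha b hb
    by_cases hab : a = b
    · exact Or.inr hab
    · left
      rw [h a ha, h b hb]
      intro h'
      exact hab (hi a ha b hb (Fin.ext h'))

theorem edgesB_iff {k : ℕ} {t : List ℕ} {f : ℕ → Fin n} (h : Ag k t f) {l : List (ℕ × ℕ)}
    (hl : ∀ e ∈ l, e.1 < k ∧ e.2 < k) :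
    edgesB l E t = true ↔ ∀ e ∈ l, (gr n E).Adj (f e.1) (f e.2) := by
  simp only [edgesB, List.all_eq_true]
  constructor
  · intro he e hel
    rw [gr_adj, ← h _ (hl e hel).1, ← h _ (hl e hel).2]
    exact he e hel
  · intro he e hel
    rw [h _ (hl e hel).1, h _ (hl e hel).2]
    exact he e hel

theorem inB_iff {k : ℕ} {t : List ℕ} {f : ℕ → Fin n} (h : Ag k t f) {u : Fin n} :
    inB k t u = true ↔ ∃ y < k, u = f y := by
  simp only [inB, List.any_eq_true, List.mem_range, decide_eq_true_eq]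
  constructor
  · rintro ⟨y, hy, h'⟩
    exact ⟨y, hy, Fin.ext (by rw [h', h y hy])⟩
  · rintro ⟨y, hy, rfl⟩
    exact ⟨y, hy, (h y hy).symm⟩

theorem rem1_iff {a b : Fin n} : rem1B n E a b = true ↔ Rem1 (gr n E) a b := by
  simp only [rem1B, List.any_eq_true, mem_nb, Bool.and_eq_true, Bool.not_eq_true',
    decide_eq_false_iff_not]
  constructor
  · rintro ⟨x, ⟨hx, hax⟩, ⟨⟨h1, h2⟩, y, ⟨hy, hay⟩, ⟨h3, h4⟩, h5⟩⟩
    exact ⟨⟨x, hx⟩, ⟨y, hy⟩, fun h => h3 (by simpa using h), two_iff.1 h1, two_iff.1 h4,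
      hax, hay, fun h => h2 (by simp [h]), fun h => h5 (by simp [h])⟩
  · rintro ⟨x, y, hxy, hx, hy, hax, hay, hbx, hby⟩
    exact ⟨x, ⟨x.2, hax⟩, ⟨⟨two_iff.2 hx, fun h => hbx (Fin.ext h)⟩, y, ⟨y.2, hay⟩,
      ⟨fun h => hxy (Fin.ext h), two_iff.2 hy⟩, fun h => hby (Fin.ext h)⟩⟩

theorem pathB_iff {k : ℕ} {t : List ℕ} {f : ℕ → Fin n} (h : Ag (k + 1) t f) :
    pathB n E t k = true ↔ 2 ≤ k ∧ (∀ x ≤ k, ∀ y ≤ k, f x = f y → x = y) ∧
      (∀ x < k, (gr n E).Adj (f x) (f (x + 1))) ∧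
      (∀ x, 0 < x → x < k → ∀ u, (gr n E).Adj (f x) u → ∃ y ≤ k, u = f y) := by
  simp only [pathB, Bool.and_eq_true, decide_eq_true_eq, injB_iff h, List.all_eq_true,
    List.mem_range, Bool.or_eq_true, mem_nb]
  constructor
  · rintro ⟨⟨⟨h1, h2⟩, h3⟩, h4⟩
    refine ⟨h1, fun x hx y hy => h2 x (by omega) y (by omega), ?_, ?_⟩
    · intro x hx
      rw [gr_adj, ← h x (by omega), ← h (x + 1) (by omega)]
      exact h3 x hx
    · intro x hx0 hx u hu
      rcases h4 x hx with h5 | h5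
      · omega
      · rw [gr_adj, ← h x (by omega)] at hu
        obtain ⟨y, hy, h6⟩ := (inB_iff h).1 (h5 u ⟨u.2, hu⟩)
        exact ⟨y, by omega, h6⟩
  · rintro ⟨h1, h2, h3, h4⟩
    refine ⟨⟨⟨h1, fun x hx y hy => h2 x (by omega) y (by omega)⟩, ?_⟩, ?_⟩
    · intro x hx
      rw [h x (by omega), h (x + 1) (by omega)]
      exact h3 x hx
    · intro x hx
      by_cases hx0 : x = 0
      · exact Or.inl hx0
      · right
        rintro u ⟨hu, hadj⟩
        rw [h x (by omega)] at hadj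
        obtain ⟨y, hy, h6⟩ := h4 x (by omega) hx ⟨u, hu⟩ hadj
        exact (inB_iff (u := ⟨u, hu⟩) h).2 ⟨y, by omega, h6⟩

theorem chordB_iff {k : ℕ} {t : List ℕ} {f : ℕ → Fin n} (h : Ag (k + 1) t f) {a b : Fin n} :
    chordB t k a b = true ↔ ∃ i j, i + 2 ≤ j ∧ j ≤ k ∧
      ((a = f i ∧ b = f j) ∨ (a = f j ∧ b = f i)) := by
  simp only [chordB, List.any_eq_true, List.mem_range, Bool.and_eq_true, Bool.or_eq_true,
    decide_eq_true_eq]
  constructor
  · rintro ⟨i, hi, j, hj, hij, h'⟩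
    refine ⟨i, j, hij, by omega, ?_⟩
    rw [h i hi, h j hj] at h'
    simpa only [Fin.ext_iff] using h'
  · rintro ⟨i, j, hij, hj, h'⟩
    refine ⟨i, by omega, j, by omega, hij, ?_⟩
    rw [h i (by omega), h j (by omega)]
    simpa only [Fin.ext_iff] using h'

theorem rem2_iff {a b : Fin n} : rem2B n E a b = true ↔ Rem2 (gr n E) a b := by
  simp only [rem2B, List.any_eq_true, List.mem_range, Bool.and_eq_true]
  constructor
  · rintro ⟨t, ht, k, hk, h1, h2⟩
    obtain ⟨f, hf⟩ := exists_ag ht (by omega)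
    obtain ⟨a1, a2, a3, a4⟩ := (pathB_iff (hf.mono (by omega))).1 h1
    obtain ⟨i, j, b1, b2, b3⟩ := (chordB_iff (hf.mono (by omega))).1 h2
    exact ⟨k, f, i, j, a1, by omega, a2, a3, a4, b1, b2, b3⟩
  · rintro ⟨k, f, i, j, a1, a1', a2, a3, a4, b1, b2, b3⟩
    obtain ⟨t, ht, hf⟩ := exists_tuple f 9
    exact ⟨t, ht, k, by omega, (pathB_iff (hf.mono (by omega))).2 ⟨a1, a2, a3, a4⟩,
      (chordB_iff (hf.mono (by omega))).2 ⟨i, j, b1, b2, b3⟩⟩

theorem termB_iff {k : ℕ} {t : List ℕ} {f : ℕ → Fin n} (h : Ag k t f) {a : ℕ} (ha : a < k) :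
    termB n E k t a = true ↔ ∃ o, (∀ b < k, o ≠ f b) ∧ TwoN (gr n E) o ∧
      ∀ u, (∀ b < k, u ≠ f b) → ((gr n E).Adj (f a) u ↔ u = o) := by
  simp only [termB, List.any_eq_true, List.mem_range, Bool.and_eq_true, Bool.not_eq_true',
    List.all_eq_true, Bool.or_eq_true, decide_eq_true_eq]
  have hin : ∀ u : Fin n, inB k t u = false ↔ ∀ b < k, u ≠ f b := by
    intro u
    rw [← Bool.not_eq_true, inB_iff h]
    push Not
    rfl
  constructor
  · rintro ⟨o, ho, ⟨h1, h2⟩, h3⟩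
    refine ⟨⟨o, ho⟩, (hin ⟨o, ho⟩).1 h1, two_iff.1 h2, ?_⟩
    intro u hu
    rcases h3 u u.2 with h4 | h4
    · rw [← hin u] at hu
      rw [hu] at h4
      simp at h4
    · rw [gr_adj, ← h a ha, h4, decide_eq_true_iff, Fin.ext_iff]
  · rintro ⟨o, h1, h2, h3⟩
    refine ⟨o, o.2, ⟨(hin o).2 h1, two_iff.2 h2⟩, ?_⟩
    intro u hu
    by_cases h4 : inB k t u = true
    · exact Or.inl h4
    · right
      have h5 := h3 ⟨u, hu⟩ ((hin ⟨u, hu⟩).1 (by simpa using h4))
      rw [gr_adj, ← h a ha, Fin.ext_iff] at h5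
      rw [Bool.eq_iff_iff, decide_eq_true_iff]
      exact h5

theorem innerB_iff {k : ℕ} {t : List ℕ} {f : ℕ → Fin n} (h : Ag k t f) {a : ℕ} (ha : a < k) :
    innerB n E k t a = true ↔ ∀ u, (∀ b < k, u ≠ f b) → ¬ (gr n E).Adj (f a) u := by
  simp only [innerB, List.mem_range, Bool.not_eq_true',
    List.all_eq_true, Bool.or_eq_true]
  have hin : ∀ u : Fin n, inB k t u = false ↔ ∀ b < k, u ≠ f b := by
    intro u
    rw [← Bool.not_eq_true, inB_iff h]
    push Not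
    rfl
  constructor
  · intro h1 u hu
    rw [← hin u] at hu
    rcases h1 u u.2 with h2 | h2
    · rw [hu] at h2
      simp at h2
    · rw [gr_adj, ← h a ha, h2]
      simp
  · intro h1 u hu
    by_cases h4 : inB k t u = true
    · exact Or.inl h4
    · right
      have h5 := h1 ⟨u, hu⟩ ((hin ⟨u, hu⟩).1 (by simpa using h4))
      rw [gr_adj, ← h a ha] at h5
      simpa using h5

theorem gadB_iff {τ : GType} (wf : τ.WF) {t : List ℕ} {f : ℕ → Fin n} (h : Ag τ.k t f) :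
    gadB' τ n E t = true ↔ IsG (gr n E) τ f := by
  obtain ⟨w1, w2, w3, w4, w5, w6⟩ := wf
  simp only [gadB', Bool.and_eq_true, injB_iff h, edgesB_iff h (fun e he => ⟨(w3 e he).1, (w3 e he).2.1⟩),
    edgesB_iff h (fun e he => ⟨(w4 e he).1, (w4 e he).2.1⟩), List.all_eq_true, IsG]
  constructor
  · rintro ⟨⟨⟨⟨h1, h2⟩, h3⟩, h4⟩, h5⟩
    exact ⟨h1, h2, h3, fun a ha => (termB_iff h (w5 a ha).1).1 (h4 a ha),
      fun a ha => (innerB_iff h (w6 a ha).1).1 (h5 a ha)⟩
  · rintro ⟨h1, h2, h3, h4, h5⟩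
    exact ⟨⟨⟨⟨h1, h2⟩, h3⟩, fun a ha => (termB_iff h (w5 a ha).1).2 (h4 a ha)⟩,
      fun a ha => (innerB_iff h (w6 a ha).1).2 (h5 a ha)⟩

theorem inGad_iff {τ : GType} (wf : τ.WF) (hk : τ.k ≤ 6) {v : Fin n} :
    inGad τ n E v = true ↔ ∃ f : ℕ → Fin n, IsG (gr n E) τ f ∧ ∃ a < τ.k, v = f a := by
  simp only [inGad, List.any_eq_true, Bool.and_eq_true]
  constructor
  · rintro ⟨t, ht, h1, h2⟩
    obtain ⟨f, hf⟩ := exists_ag ht (by omega)
    exact ⟨f, (gadB_iff wf (hf.mono hk)).1 h1, (inB_iff (hf.mono hk)).1 h2⟩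
  · rintro ⟨f, h1, h2⟩
    obtain ⟨t, ht, hf⟩ := exists_tuple f 6
    exact ⟨t, ht, (gadB_iff wf (hf.mono hk)).2 h1, (inB_iff (hf.mono hk)).2 h2⟩

theorem teeB_iff : teeB n E = true ↔ Tee (gr n E) := by
  simp only [teeB, List.all_eq_true, List.mem_range, Bool.or_eq_true, Tee]
  constructor
  · intro h v
    rcases h v v.2 with ((h | h) | h) | h
    · exact Or.inl (two_iff.1 h)
    · obtain ⟨f, h1, h2⟩ := (inGad_iff wfA (by decide)).1 h
      exact Or.inr ⟨tyA, by simp, f, h1, h2⟩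
    · obtain ⟨f, h1, h2⟩ := (inGad_iff wfB (by decide)).1 h
      exact Or.inr ⟨tyB, by simp, f, h1, h2⟩
    · obtain ⟨f, h1, h2⟩ := (inGad_iff wfC (by decide)).1 h
      exact Or.inr ⟨tyC, by simp, f, h1, h2⟩
  · intro h v hv
    rcases h ⟨v, hv⟩ with h | ⟨τ, hτ, f, h1, h2⟩
    · exact Or.inl (Or.inl (Or.inl (two_iff.2 h)))
    · simp only [List.mem_cons, List.not_mem_nil, or_false] at hτ
      rcases hτ with rfl | rfl | rfl
      · exact Or.inl (Or.inl (Or.inr ((inGad_iff (v := ⟨v, hv⟩) wfA (by decide)).2 ⟨f, h1, h2⟩)))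
      · exact Or.inl (Or.inr ((inGad_iff (v := ⟨v, hv⟩) wfB (by decide)).2 ⟨f, h1, h2⟩))
      · exact Or.inr ((inGad_iff (v := ⟨v, hv⟩) wfC (by decide)).2 ⟨f, h1, h2⟩)

end H87.HC
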