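import Pool.Agent.H87.PMCSP.Kit
import Pool.Agent.H87.HC.Algo

/-!
# Polynomial time for the components of the algorithm
-/

namespace H87.HC

open Pool.Agent.PPS Pool.Agent.H87.PMCSP

variable {m : Bool} {α β γ δ σ τ : Type} [Rep α] [Rep β] [Rep γ] [Rep δ] [Rep σ] [Rep τ]

theorem PT.any2 {l : α → List β} {f : α → β → Bool} (hl : PT m l)
    (hf : PT m (fun z : α × β => f z.1 z.2)) : PT m (fun a => (l a).any (fun b => f a b)) := by
  have hfold : ∀ (a : α) (l : List β), l.foldr (fun b y => f a b || y) false =
      l.any (fun b => f a b) := by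
    intro a l
    induction l with
    | nil => rfl
    | cons b l ih => rw [List.foldr_cons, ih, List.any_cons]
  have hs : PT m (fun z : α × (β × Bool) => f z.1 z.2.1 || z.2.2) := by
    have h1 : PT m (fun z : α × (β × Bool) => f z.1 z.2.1) :=
      hf.comp (f := fun z : α × (β × Bool) => (z.1, z.2.1)) (by fun_prop)
    exact PT.or' h1 (by fun_prop)
  have := PT.foldr (m := m) (s := fun z : α × (β × Bool) => f z.1 z.2.1 || z.2.2)
    (ini := fun _ => false) hl (by fun_prop) hs 3 (by
      intro a k
      simp only [Polynomial.eval_ofNat]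
      exact size_bool_le _)
  convert this using 2 with a
  exact (hfold a (l a)).symm

theorem PT.all2 {l : α → List β} {f : α → β → Bool} (hl : PT m l)
    (hf : PT m (fun z : α × β => f z.1 z.2)) : PT m (fun a => (l a).all (fun b => f a b)) := by
  have hfold : ∀ (a : α) (l : List β), l.foldr (fun b y => f a b && y) true =
      l.all (fun b => f a b) := by
    intro a l
    induction l with
    | nil => rfl
    | cons b l ih => rw [List.foldr_cons, ih, List.all_cons]
  have hs : PT m (fun z : α × (β × Bool) => f z.1 z.2.1 && z.2.2) := by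
    have h1 : PT m (fun z : α × (β × Bool) => f z.1 z.2.1) :=
      hf.comp (f := fun z : α × (β × Bool) => (z.1, z.2.1)) (by fun_prop)
    exact PT.and' h1 (by fun_prop)
  have := PT.foldr (m := m) (s := fun z : α × (β × Bool) => f z.1 z.2.1 && z.2.2)
    (ini := fun _ => true) hl (by fun_prop) hs 3 (by
      intro a k
      simp only [Polynomial.eval_ofNat]
      exact size_bool_le _)
  convert this using 2 with a
  exact (hfold a (l a)).symm

theorem PT.flatMap2 {l : α → List β} {f : α → β → List γ} (hl : PT m l)
    (hf : PT m (fun z : α × β => f z.1 z.2)) : PT m (fun a => (l a).flatMap (fun b => f a b)) :=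
  PT.flatMap' (f := fun z : α × β => f z.1 z.2) hl hf

theorem PT.map2 {l : α → List β} {f : α → β → γ} (hl : PT m l)
    (hf : PT m (fun z : α × β => f z.1 z.2)) : PT m (fun a => (l a).map (fun b => f a b)) :=
  PT.map' (f := fun z : α × β => f z.1 z.2) hl hf

theorem PT.filter2 {l : α → List β} {f : α → β → Bool} (hl : PT m l)
    (hf : PT m (fun z : α × β => f z.1 z.2)) :
    PT m (fun a => (l a).filter (fun b => f a b)) := by
  have h : ∀ (a : α) (l : List β), l.filter (fun b => f a b) =
      l.flatMap (fun b => if f a b then [b] else []) := by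
    intro a l
    induction l with
    | nil => rfl
    | cons b l ih =>
      rw [List.flatMap_cons, ← ih, List.filter_cons]
      cases f a b <;> simp
  have h1 : PT m (fun z : α × β => if f z.1 z.2 then [z.2] else ([] : List β)) :=
    PT.ite hf (by fun_prop) (by fun_prop)
  have h2 := PT.flatMap2 (f := fun a b => if f a b then [b] else ([] : List β)) hl h1
  convert h2 using 2 with a
  exact h a (l a)

theorem PT.mem2 [DecidableEq β] {x : α → β} {l : α → List β} {inst : ∀ a, Decidable (x a ∈ l a)}
    (hx : PT m x) (hl : PT m l) : PT m (fun a => @decide (x a ∈ l a) (inst a)) := by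
  refine PT.of_eq (PT.mem' hx hl) (fun a => ?_)
  rw [decide_eq_decide]

section

variable {E : α → List (ℕ × ℕ)} {n a b k r v : α → ℕ} {t : α → List ℕ}

@[fun_prop]
theorem PT.adj' (hE : PT m E) (ha : PT m a) (hb : PT m b) :
    PT m (fun x => adj (E x) (a x) (b x)) := by
  unfold adj
  exact PT.and' (PT.not' (ha.decideEq hb))
    (PT.or' (PT.mem2 (ha.prodMk hb) hE) (PT.mem2 (hb.prodMk ha) hE))

@[fun_prop]
theorem PT.nb' (hn : PT m n) (hE : PT m E) (hv : PT m v) :
    PT m (fun x => nb (n x) (E x) (v x)) := by
  unfold nb
  refine PT.filter2 (by fun_prop) ?_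
  have h1 : PT m (fun z : α × ℕ => E z.1) := hE.comp (by fun_prop)
  have h2 : PT m (fun z : α × ℕ => v z.1) := hv.comp (by fun_prop)
  fun_prop

@[fun_prop]
theorem PT.two' (hn : PT m n) (hE : PT m E) (hv : PT m v) :
    PT m (fun x => two (n x) (E x) (v x)) := by
  unfold two
  fun_prop

theorem PT.tuples' (hn : PT m n) (k : ℕ) : PT m (fun x => tuples (n x) k) := by
  induction k with
  | zero => exact PT.const' _
  | succ k ih =>
    simp only [tuples]
    refine PT.flatMap2 ih ?_
    refine PT.map2 (f := fun (z : α × List ℕ) i => i :: z.2) ?_ ?_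
    · have h1 : PT m (fun z : α × List ℕ => n z.1) := hn.comp (by fun_prop)
      fun_prop
    · fun_prop

@[fun_prop]
theorem PT.at2 (ht : PT m t) (hk : PT m k) : PT m (fun x => at' (t x) (k x)) := by
  unfold at'
  fun_prop

end

end H87.HC
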