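import Mathlib
import Pool.Agent.H87.HC.Kit

/-!
# The algorithm runs in polynomial time
-/

namespace H87.HC

open Pool.Agent.PPS Pool.Agent.H87.PMCSP

variable {m : Bool} {α β γ δ σ τ : Type} [Rep α] [Rep β] [Rep γ] [Rep δ] [Rep σ] [Rep τ]

section

variable {E l : α → List (ℕ × ℕ)} {n a b k r v u : α → ℕ} {t : α → List ℕ} {e : α → ℕ × ℕ}
  {w : α → List Bool}

@[fun_prop]
theorem PT.injB' (hk : PT m k) (ht : PT m t) : PT m (fun x => injB (k x) (t x)) := by
  unfold injB
  refine PT.all2 (by fun_prop) ?_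
  refine PT.all2 (f := fun (z : α × ℕ) y => !decide (at' (t z.1) z.2 = at' (t z.1) y) ||
    decide (z.2 = y)) (by fun_prop) ?_
  fun_prop

@[fun_prop]
theorem PT.edgesB' (hl : PT m l) (hE : PT m E) (ht : PT m t) :
    PT m (fun x => edgesB (l x) (E x) (t x)) := by
  unfold edgesB
  exact PT.all2 (by fun_prop) (by fun_prop)

@[fun_prop]
theorem PT.inB' (hk : PT m k) (ht : PT m t) (hu : PT m u) :
    PT m (fun x => inB (k x) (t x) (u x)) := by
  unfold inB
  exact PT.any2 (by fun_prop) (by fun_prop)

@[fun_prop]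
theorem PT.rem1B' (hn : PT m n) (hE : PT m E) (ha : PT m a) (hb : PT m b) :
    PT m (fun x => rem1B (n x) (E x) (a x) (b x)) := by
  unfold rem1B
  refine PT.any2 (by fun_prop) ?_
  refine PT.and' (by fun_prop) ?_
  exact PT.any2 (f := fun (z : α × ℕ) y => !decide (z.2 = y) && two (n z.1) (E z.1) y &&
    !decide (b z.1 = y)) (by fun_prop) (by fun_prop)

@[fun_prop]
theorem PT.pathB' (hn : PT m n) (hE : PT m E) (ht : PT m t) (hk : PT m k) :
    PT m (fun x => pathB (n x) (E x) (t x) (k x)) := by
  unfold pathB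
  refine PT.and' (PT.and' (PT.and' ?_ (by fun_prop)) ?_) ?_
  · exact PT.decideLe (by fun_prop) (by fun_prop)
  · exact PT.all2 (by fun_prop) (by fun_prop)
  · refine PT.all2 (by fun_prop) ?_
    refine PT.or' (by fun_prop) ?_
    exact PT.all2 (f := fun (z : α × ℕ) y => inB (k z.1 + 1) (t z.1) y) (by fun_prop)
      (by fun_prop)

@[fun_prop]
theorem PT.chordB' (ht : PT m t) (hk : PT m k) (ha : PT m a) (hb : PT m b) :
    PT m (fun x => chordB (t x) (k x) (a x) (b x)) := by
  unfold chordB
  refine PT.any2 (by fun_prop) ?_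
  refine PT.any2 (f := fun (z : α × ℕ) j => decide (z.2 + 2 ≤ j) &&
    ((decide (a z.1 = at' (t z.1) z.2) && decide (b z.1 = at' (t z.1) j)) ||
      (decide (a z.1 = at' (t z.1) j) && decide (b z.1 = at' (t z.1) z.2)))) (by fun_prop) ?_
  refine PT.and' (PT.decideLe (by fun_prop) (by fun_prop)) (by fun_prop)

@[fun_prop]
theorem PT.rem2B' (hn : PT m n) (hE : PT m E) (ha : PT m a) (hb : PT m b) :
    PT m (fun x => rem2B (n x) (E x) (a x) (b x)) := by
  unfold rem2B
  refine PT.any2 (PT.tuples' hn 9) ?_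
  exact PT.any2 (f := fun (z : α × List ℕ) k => pathB (n z.1) (E z.1) z.2 k &&
    chordB z.2 k (a z.1) (b z.1)) (by fun_prop) (by fun_prop)

@[fun_prop]
theorem PT.remB' (hn : PT m n) (hE : PT m E) (he : PT m e) :
    PT m (fun x => remB (n x) (E x) (e x)) := by
  unfold remB
  fun_prop

theorem rmv_eq (E l : List (ℕ × ℕ)) : rmv E l =
    if decide (l = []) then E else E.filter (fun x => !decide (x = l.headD (0, 0)) &&
      !decide (x = ((l.headD (0, 0)).2, (l.headD (0, 0)).1))) := by
  cases l with
  | nil => simp [rmv]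
  | cons e l => simp [rmv]

@[fun_prop]
theorem PT.rmv' (hE : PT m E) (hl : PT m l) : PT m (fun x => rmv (E x) (l x)) := by
  simp only [rmv_eq]
  refine PT.ite (by fun_prop) hE ?_
  exact PT.filter2 (by fun_prop) (by fun_prop)

@[fun_prop]
theorem PT.step' (hn : PT m n) (hE : PT m E) : PT m (fun x => step (n x) (E x)) := by
  unfold step
  refine PT.rmv' hE ?_
  exact PT.filter2 (by fun_prop) (by fun_prop)

theorem size_filter_le (p : β → Bool) (l : List β) : size (l.filter p) ≤ size l := by
  induction l with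
  | nil => exact le_rfl
  | cons b l ih =>
    rw [List.filter_cons]
    split
    · rw [size_cons, size_cons]
      omega
    · rw [size_cons]
      omega

theorem size_step_le (n : ℕ) (E : List (ℕ × ℕ)) : size (step n E) ≤ size E := by
  unfold step rmv
  split
  · exact le_rfl
  · exact size_filter_le _ _

@[fun_prop]
theorem PT.clean' (hn : PT m n) (hE : PT m E) : PT m (fun x => clean (n x) (E x)) := by
  obtain ⟨p, hp⟩ := hE.exists_size_le
  unfold clean
  refine PT.iterate (s := fun z : α × List (ℕ × ℕ) => step (n z.1) z.2) (by fun_prop) hE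
    (by fun_prop) p ?_
  intro x k _
  refine le_trans ?_ (hp x)
  show size ((step (n x))^[k] (E x)) ≤ _
  clear hp
  induction k with
  | zero => exact le_rfl
  | succ k ih =>
    rw [Function.iterate_succ_apply']
    exact (size_step_le _ _).trans (ih (by omega))

@[fun_prop]
theorem PT.termB' (hn : PT m n) (hE : PT m E) (hk : PT m k) (ht : PT m t) (ha : PT m a) :
    PT m (fun x => termB (n x) (E x) (k x) (t x) (a x)) := by
  unfold termB
  refine PT.any2 (by fun_prop) ?_
  refine PT.and' (by fun_prop) ?_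
  refine PT.all2 (f := fun (z : α × ℕ) u => inB (k z.1) (t z.1) u ||
    decide (adj (E z.1) (at' (t z.1) (a z.1)) u = decide (u = z.2))) (by fun_prop) ?_
  fun_prop

@[fun_prop]
theorem PT.innerB' (hn : PT m n) (hE : PT m E) (hk : PT m k) (ht : PT m t) (ha : PT m a) :
    PT m (fun x => innerB (n x) (E x) (k x) (t x) (a x)) := by
  unfold innerB
  exact PT.all2 (by fun_prop) (by fun_prop)

@[fun_prop]
theorem PT.gadB (τ : GType) (hn : PT m n) (hE : PT m E) (ht : PT m t) :
    PT m (fun x => gadB' τ (n x) (E x) (t x)) := by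
  unfold gadB'
  refine PT.and' (PT.and' (by fun_prop) ?_) ?_
  · exact PT.all2 (PT.const' _) (by fun_prop)
  · exact PT.all2 (PT.const' _) (by fun_prop)

@[fun_prop]
theorem PT.inGad' (τ : GType) (hn : PT m n) (hE : PT m E) (hv : PT m v) :
    PT m (fun x => inGad τ (n x) (E x) (v x)) := by
  unfold inGad
  exact PT.any2 (PT.tuples' hn 6) (by fun_prop)

@[fun_prop]
theorem PT.teeB' (hn : PT m n) (hE : PT m E) : PT m (fun x => teeB (n x) (E x)) := by
  unfold teeB
  exact PT.all2 (by fun_prop) (by fun_prop)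

@[fun_prop]
theorem PT.grow' {S : α → List ℕ} (hn : PT m n) (hE : PT m E) (hS : PT m S) :
    PT m (fun x => grow (n x) (E x) (S x)) := by
  unfold grow
  refine PT.filter2 (by fun_prop) ?_
  refine PT.or' ?_ ?_
  · exact PT.mem2 (x := fun z : α × ℕ => z.2) (l := fun z : α × ℕ => S z.1) (by fun_prop)
      (by fun_prop)
  · exact PT.any2 (f := fun (z : α × ℕ) u => adj (E z.1) u z.2) (by fun_prop) (by fun_prop)

theorem size_grow_le (n : ℕ) (E : List (ℕ × ℕ)) (S : List ℕ) :
    size (grow n E S) ≤ n * (2 * n + 2) + 1 :=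
  (size_filter_le _ _).trans (size_range_le n)

@[fun_prop]
theorem PT.connB' (hn : PT m n) (hE : PT m E) : PT m (fun x => connB (n x) (E x)) := by
  obtain ⟨p, hp⟩ := hn.exists_size_le
  have key : PT m (fun x => (grow (n x) (E x))^[n x] [0]) := by
    refine PT.iterate (s := fun z : α × List ℕ => grow (n z.1) (E z.1) z.2)
      (ini := fun _ => [0]) hn (by fun_prop) (by fun_prop)
      (p * (2 * p + 2) + 1 + Polynomial.C (size [0])) ?_
    intro x k _
    simp only [Polynomial.eval_add, Polynomial.eval_mul, Polynomial.eval_ofNat,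
      Polynomial.eval_one, Polynomial.eval_C]
    cases k with
    | zero =>
      simp only [Function.iterate_zero, id]
      omega
    | succ k =>
      rw [Function.iterate_succ_apply']
      have h1 := size_grow_le (n x) (E x) ((fun y => grow (n x) (E x) y)^[k] [0])
      have h2 := hp x
      rw [size_nat] at h2
      have h3 : n x ≤ p.eval (size x) := by omega
      have h4 : n x * (2 * n x + 2) ≤ p.eval (size x) * (2 * p.eval (size x) + 2) :=
        Nat.mul_le_mul h3 (by omega)
      omega
  unfold connB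
  refine PT.all2 (by fun_prop) ?_
  exact PT.mem2 (x := fun z : α × ℕ => z.2)
    (l := fun z : α × ℕ => (grow (n z.1) (E z.1))^[n z.1] [0]) (by fun_prop)
    (key.comp (f := fun z : α × ℕ => z.1) (by fun_prop))

@[fun_prop]
theorem PT.consB' (ht : PT m t) (hr : PT m r) (ha : PT m a) (hb : PT m b) :
    PT m (fun x => consB (t x) (r x) (a x) (b x)) := by
  unfold consB
  exact PT.any2 (by fun_prop) (by fun_prop)

@[fun_prop]
theorem PT.innB' (ht : PT m t) (hr : PT m r) (ha : PT m a) :
    PT m (fun x => innB (t x) (r x) (a x)) := by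
  unfold innB
  refine PT.any2 (by fun_prop) ?_
  exact PT.and' (PT.decideLe (by fun_prop) (by fun_prop)) (by fun_prop)

@[fun_prop]
theorem PT.keepB' (ht : PT m t) (he : PT m e) : PT m (fun x => keepB (t x) (e x)) := by
  unfold keepB
  exact PT.all2 (by fun_prop) (by fun_prop)

@[fun_prop]
theorem PT.cut' (ht : PT m t) (hE : PT m E) : PT m (fun x => cut (t x) (E x)) := by
  unfold cut
  exact PT.filter2 hE (by fun_prop)

@[fun_prop]
theorem PT.freeB' (hn : PT m n) (hE : PT m E) : PT m (fun x => freeB (n x) (E x)) := by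
  unfold freeB
  exact PT.all2 (PT.tuples' hn 22) (by fun_prop)

@[fun_prop]
theorem PT.edgesOf' (hn : PT m n) (hw : PT m w) : PT m (fun x => edgesOf (n x) (w x)) := by
  unfold edgesOf
  refine PT.flatMap2 (by fun_prop) ?_
  refine PT.map2 (f := fun (z : α × ℕ) b => (z.2, b)) ?_ (by fun_prop)
  exact PT.filter2 (f := fun (z : α × ℕ) b => bitAt (w z.1) (n z.1 + 1 + (z.2 * n z.1 + b)))
    (by fun_prop) (by fun_prop)

@[fun_prop]
theorem PT.encB' (hn : PT m n) (hE : PT m E) : PT m (fun x => encB (n x) (E x)) := by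
  unfold encB
  refine PT.append' (by fun_prop) ?_
  refine PT.cons' (by fun_prop) ?_
  refine PT.flatMap2 (by fun_prop) ?_
  exact PT.map2 (f := fun (z : α × ℕ) b => adj (E z.1) z.2 b) (by fun_prop) (by fun_prop)

@[fun_prop]
theorem PT.bigB' (hn : PT m n) (hE : PT m E) : PT m (fun x => bigB (n x) (E x)) := by
  unfold bigB
  refine PT.and' (by fun_prop) ?_
  exact PT.any2 (PT.tuples' hn 77) (by fun_prop)

/-- The algorithm runs in polynomial time. -/
theorem PT.decB' (small : List (List Bool)) : PT m (fun w : List Bool => decB small w) := by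
  unfold decB
  refine PT.or' ?_ ?_
  · exact PT.mem2 (x := fun w : List Bool => w) (l := fun _ => small) (by fun_prop) (by fun_prop)
  · exact PT.and' (PT.and' (PT.decideLe (by fun_prop) (by fun_prop)) (by fun_prop)) (by fun_prop)

end

end H87.HC
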