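import Mathlib
import Pool.Agent.H87.HC.Corr

/-!
# Correctness of the algorithm for large graphs
-/

namespace H87.HC

open Pool.Agent.PPS SimpleGraph

variable {n : ℕ} {E : List (ℕ × ℕ)}

/-! ### Connectivity -/

theorem mem_grow {S : List ℕ} {v : ℕ} :
    v ∈ grow n E S ↔ v < n ∧ (v ∈ S ∨ ∃ u ∈ S, adj E u v = true) := by
  simp [grow]

theorem grow_lt (hn : 0 < n) (k : ℕ) : ∀ v ∈ (grow n E)^[k] [0], v < n := by
  cases k with
  | zero => intro v hv; simp only [Function.iterate_zero, id, List.mem_singleton] at hv; omega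
  | succ k =>
    intro v hv
    rw [Function.iterate_succ_apply', mem_grow] at hv
    exact hv.1

theorem grow_reach (hn : 0 < n) (k : ℕ) : ∀ v (hv : v < n), v ∈ (grow n E)^[k] [0] →
    (gr n E).Reachable ⟨0, hn⟩ ⟨v, hv⟩ := by
  induction k with
  | zero =>
    intro v hv h
    simp only [Function.iterate_zero, id, List.mem_singleton] at h
    subst h
    exact Reachable.refl _
  | succ k ih =>
    intro v hv h
    rw [Function.iterate_succ_apply', mem_grow] at h
    rcases h.2 with h | ⟨u, hu, h⟩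
    · exact ih v hv h
    · have hun := grow_lt (E := E) hn k u hu
      exact (ih u hun hu).trans (Adj.reachable (show (gr n E).Adj ⟨u, hun⟩ ⟨v, hv⟩ from h))

theorem grow_mono (hn : 0 < n) (k m : ℕ) {v : ℕ} (h : v ∈ (grow n E)^[k] [0]) :
    v ∈ (grow n E)^[k + m] [0] := by
  induction m with
  | zero => exact h
  | succ m ih =>
    rw [← Nat.add_assoc, Function.iterate_succ_apply', mem_grow]
    exact ⟨grow_lt hn _ _ ih, Or.inl ih⟩

theorem grow_walk (hn : 0 < n) (k : ℕ) : ∀ v : Fin n, (∃ p : (gr n E).Walk v ⟨0, hn⟩, p.length = k) →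
    (v : ℕ) ∈ (grow n E)^[k] [0] := by
  induction k with
  | zero =>
    rintro v ⟨p, hp⟩
    have := Walk.eq_of_length_eq_zero hp
    subst this
    simp
  | succ k ih =>
    rintro v ⟨p, hp⟩
    match p, hp with
    | .cons h q, hp =>
      rename_i u
      rw [Function.iterate_succ_apply', mem_grow]
      refine ⟨v.2, Or.inr ⟨u, ih u ⟨q, by simpa using hp⟩, ?_⟩⟩
      rw [adj_symm]
      exact h

theorem connB_iff (hn : 0 < n) : connB n E = true ↔ (gr n E).Preconnected := by
  simp only [connB, List.all_eq_true, List.mem_range, decide_eq_true_eq]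
  constructor
  · intro h u v
    exact (grow_reach hn n u u.2 (h u u.2)).symm.trans (grow_reach hn n v v.2 (h v v.2))
  · intro h v hv
    obtain ⟨p, hp⟩ := (h ⟨v, hv⟩ ⟨0, hn⟩).exists_isPath
    have hl := hp.length_lt
    rw [Fintype.card_fin] at hl
    have := grow_walk hn p.length ⟨v, hv⟩ ⟨p, rfl⟩
    have h2 := grow_mono hn p.length (n - p.length) this
    rwa [show p.length + (n - p.length) = n by omega] at h2

/-! ### Reduction -/

/-- All entries are below `n`. -/
def Bd (n : ℕ) (E : List (ℕ × ℕ)) : Prop := ∀ e ∈ E, e.1 < n ∧ e.2 < n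

theorem Bd.filter (h : Bd n E) (p : ℕ × ℕ → Bool) : Bd n (E.filter p) :=
  fun e he => h e (List.mem_of_mem_filter he)

theorem adj_iff {a b : ℕ} : adj E a b = true ↔ a ≠ b ∧ ((a, b) ∈ E ∨ (b, a) ∈ E) := by
  simp [adj]

theorem gr_rmv {e : ℕ × ℕ} {l : List (ℕ × ℕ)} (h1 : e.1 < n) (h2 : e.2 < n) :
    gr n (rmv E (e :: l)) = del (gr n E) ⟨e.1, h1⟩ ⟨e.2, h2⟩ := by
  obtain ⟨e1, e2⟩ := e
  ext a b
  show adj _ a b = true ↔ adj E a b = true ∧ _
  rw [adj_iff, adj_iff]
  simp only [rmv, List.mem_filter, Bool.and_eq_true, Bool.not_eq_true', decide_eq_false_iff_not,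
    Prod.mk.injEq, Fin.ext_iff]
  tauto

theorem step_cases (n : ℕ) (E : List (ℕ × ℕ)) :
    (E.filter (remB n E) = [] ∧ step n E = E) ∨
    ((step n E).length < E.length ∧ ∃ e l, E.filter (remB n E) = e :: l) := by
  unfold step
  match h : E.filter (remB n E) with
  | [] => exact Or.inl ⟨rfl, rfl⟩
  | e :: l =>
    right
    refine ⟨?_, e, l, rfl⟩
    have he : e ∈ E := by
      have : e ∈ E.filter (remB n E) := by rw [h]; simp
      exact List.mem_of_mem_filter this
    unfold rmv
    apply List.length_filter_lt_length_iff_exists.2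
    exact ⟨e, he, by simp⟩

theorem bd_step (h : Bd n E) : Bd n (step n E) := by
  unfold step rmv
  split
  · exact h
  · exact h.filter _

theorem step_le : gr n (step n E) ≤ gr n E := by
  intro a b h
  rw [gr_adj, adj_iff] at h ⊢
  refine ⟨h.1, ?_⟩
  have hsub : ∀ x, x ∈ step n E → x ∈ E := by
    intro x hx
    unfold step rmv at hx
    split at hx
    · exact hx
    · exact List.mem_of_mem_filter hx
  exact h.2.imp (hsub _) (hsub _)

theorem step_ham (hn : 60 ≤ n) (hb : Bd n E) {c : ℤ → Fin n} (hc : HamC (gr n E) n c) :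
    ∃ c', HamC (gr n (step n E)) n c' := by
  rcases step_cases n E with ⟨_, h⟩ | ⟨_, e, l, h⟩
  · rw [h]; exact ⟨c, hc⟩
  · have he : e ∈ E.filter (remB n E) := by rw [h]; simp
    rw [List.mem_filter] at he
    obtain ⟨h1, h2⟩ := hb e he.1
    unfold step
    rw [h, gr_rmv h1 h2]
    have hr := he.2
    simp only [remB, Bool.or_eq_true] at hr
    rcases hr with (hr | hr) | hr
    · exact rem_sound hc hn (Or.inl (rem1_iff (a := ⟨e.1, h1⟩) (b := ⟨e.2, h2⟩).1 hr))
    · have := rem_sound hc hn (Or.inl (rem1_iff (a := ⟨e.2, h2⟩) (b := ⟨e.1, h1⟩).1 hr))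
      obtain ⟨c', hc'⟩ := this
      refine ⟨c', hc'.mono fun i => ?_⟩
      have h3 := hc'.adj i
      exact ⟨h3.1, fun h4 => h3.2 h4.symm⟩
    · exact rem_sound hc hn (Or.inr (rem2_iff (a := ⟨e.1, h1⟩) (b := ⟨e.2, h2⟩).1 hr))

theorem iterate_step_spec (hb : Bd n E) (k : ℕ) :
    Bd n ((step n)^[k] E) ∧ gr n ((step n)^[k] E) ≤ gr n E ∧
      (60 ≤ n → (∃ c, HamC (gr n E) n c) → ∃ c', HamC (gr n ((step n)^[k] E)) n c') := by
  induction k with
  | zero => exact ⟨hb, le_rfl, fun _ h => h⟩
  | succ k ih =>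
    rw [Function.iterate_succ_apply']
    refine ⟨bd_step ih.1, step_le.trans ih.2.1, fun hn h => ?_⟩
    obtain ⟨c', hc'⟩ := ih.2.2 hn h
    exact step_ham hn ih.1 hc'

theorem iterate_fix (m : ℕ) : ∀ E : List (ℕ × ℕ), E.length ≤ m →
    step n ((step n)^[m] E) = (step n)^[m] E := by
  induction m with
  | zero =>
    intro E hE
    rcases step_cases n E with ⟨_, h⟩ | ⟨h, _⟩
    · exact h
    · omega
  | succ m ih =>
    intro E hE
    rw [Function.iterate_succ_apply]
    rcases step_cases n E with ⟨_, h⟩ | ⟨h, _⟩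
    · rw [h, Function.iterate_fixed h, h]
    · exact ih _ (by omega)

theorem rem2_symm {V : Type} {G : SimpleGraph V} {a b : V} (h : Rem2 G a b) : Rem2 G b a := by
  obtain ⟨k, f, i, j, h1, h2, h3, h4, h5, h6, h7, h8⟩ := h
  exact ⟨k, f, i, j, h1, h2, h3, h4, h5, h6, h7, by tauto⟩

theorem clean_irr : Irr (gr n (clean n E)) := by
  have hfix := iterate_fix (n := n) E.length E le_rfl
  change step n (clean n E) = clean n E at hfix
  have hnil : (clean n E).filter (remB n (clean n E)) = [] := by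
    rcases step_cases n (clean n E) with ⟨h, _⟩ | ⟨h, _⟩
    · exact h
    · rw [hfix] at h
      omega
  have hall : ∀ x ∈ clean n E, remB n (clean n E) x = false := by
    intro x hx
    rw [← Bool.not_eq_true]
    intro h
    have : x ∈ (clean n E).filter (remB n (clean n E)) := List.mem_filter.2 ⟨hx, h⟩
    rw [hnil] at this
    simp at this
  intro a b hab
  rw [gr_adj, adj_iff] at hab
  rcases hab.2 with h | h
  · have h1 := hall _ h
    simp only [remB, Bool.or_eq_false_iff] at h1
    refine ⟨fun h2 => ?_, fun h2 => ?_⟩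
    · rw [rem1_iff.2 h2] at h1
      simp at h1
    · rw [rem2_iff.2 h2] at h1
      simp at h1
  · have h1 := hall _ h
    simp only [remB, Bool.or_eq_false_iff] at h1
    refine ⟨fun h2 => ?_, fun h2 => ?_⟩
    · rw [rem1_iff.2 h2] at h1
      simp at h1
    · rw [rem2_iff.2 (rem2_symm h2)] at h1
      simp at h1

/-! ### Branching -/

theorem consB_iff {t : List ℕ} {f : ℕ → Fin n} (h : Ag 77 t f) {r : ℕ} (hr : r < 11)
    {a b : Fin n} : consB t r a b = true ↔ Cons (fun i => f (7 * r + i)) a b := by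
  simp only [consB, List.any_eq_true, List.mem_range, Bool.or_eq_true, Bool.and_eq_true,
    decide_eq_true_eq, Cons, Fin.ext_iff]
  constructor
  · rintro ⟨i, hi, h'⟩
    rw [h _ (by omega), h _ (by omega)] at h'
    exact ⟨i, hi, h'⟩
  · rintro ⟨i, hi, h'⟩
    refine ⟨i, hi, ?_⟩
    rw [h _ (by omega), h _ (by omega)]
    exact h'

theorem innB_iff {t : List ℕ} {f : ℕ → Fin n} (h : Ag 77 t f) {r : ℕ} (hr : r < 11)
    {a : Fin n} : innB t r a = true ↔ Inn (fun i => f (7 * r + i)) a := by
  simp only [innB, List.any_eq_true, List.mem_range, Bool.and_eq_true,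
    decide_eq_true_eq, Inn, Fin.ext_iff]
  constructor
  · rintro ⟨i, hi, h1, h'⟩
    rw [h _ (by omega)] at h'
    exact ⟨i, h1, by omega, h'⟩
  · rintro ⟨i, h1, h2, h'⟩
    refine ⟨i, by omega, h1, ?_⟩
    rw [h _ (by omega)]
    exact h'

theorem keepB_iff {t : List ℕ} {f : ℕ → Fin n} (h : Ag 77 t f) {a b : Fin n} :
    keepB t (a, b) = true ↔ ∀ r < 11, Keep (fun i => f (7 * r + i)) a b := by
  simp only [keepB, List.all_eq_true, List.mem_range, Bool.or_eq_true, Bool.and_eq_true,
    Bool.not_eq_true']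
  constructor
  · intro h' r hr
    rcases h' r hr with h1 | ⟨h1, h2⟩
    · exact Or.inl ((consB_iff h hr).1 h1)
    · right
      rw [← innB_iff h hr, ← innB_iff h hr, h1, h2]
      simp
  · intro h' r hr
    rcases h' r hr with h1 | h1
    · exact Or.inl ((consB_iff h hr).2 h1)
    · right
      rw [← innB_iff h hr, ← innB_iff h hr] at h1
      simpa using h1

theorem gr_cut {t : List ℕ} {f : ℕ → Fin n} (h : Ag 77 t f) :
    gr n (cut t E) = brk (gr n E) (fun r i => f (7 * r + i)) := by
  ext a b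
  show adj _ a b = true ↔ adj E a b = true ∧ ∀ r < 11, _
  rw [adj_iff, adj_iff, ← keepB_iff h]
  have hs : keepB t (b, a) = true ↔ keepB t (a, b) = true := by
    rw [keepB_iff h, keepB_iff h]
    exact ⟨fun h' r hr => (h' r hr).symm, fun h' r hr => (h' r hr).symm⟩
  simp only [cut, List.mem_filter, hs]
  tauto

/-! ### Freeness -/

theorem twoEdges_lt : ∀ e ∈ twoEdges, e.1 < 22 ∧ e.2 < 22 := by decide

theorem mem_twoEdges : ∀ e ∈ longHEdges, ((e.1 : ℕ), (e.2 : ℕ)) ∈ twoEdges ∧
    (11 + (e.1 : ℕ), 11 + (e.2 : ℕ)) ∈ twoEdges := by decide +kernel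

theorem twoEdges_cases : ∀ e ∈ twoEdges, ∃ a b : Fin 11, longH.Adj a b ∧
    ((e.1 = a ∧ e.2 = b) ∨ (e.1 = 11 + a ∧ e.2 = 11 + b)) := by decide +kernel

theorem freeB_iff : freeB n E = true ↔ (longH ⊕g longH).Free (gr n E) := by
  have key : (∃ t ∈ tuples n 22, injB 22 t = true ∧ edgesB twoEdges E t = true) ↔
      (longH ⊕g longH) ⊑ gr n E := by
    constructor
    · rintro ⟨t, ht, h1, h2⟩
      obtain ⟨f, hf⟩ := exists_ag ht (by omega)
      rw [injB_iff hf] at h1
      rw [edgesB_iff hf twoEdges_lt] at h2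
      refine ⟨⟨⟨Sum.elim (fun i => f i) (fun i => f (11 + i)), ?_⟩, ?_⟩⟩
      · rintro (a | a) (b | b) hab
        · rcases (show (a, b) ∈ longHEdges ∨ (b, a) ∈ longHEdges from hab) with h | h
          · exact h2 _ (mem_twoEdges _ h).1
          · exact (h2 _ (mem_twoEdges _ h).1).symm
        · exact absurd hab (by simp)
        · exact absurd hab (by simp)
        · rcases (show (a, b) ∈ longHEdges ∨ (b, a) ∈ longHEdges from hab) with h | h
          · exact h2 _ (mem_twoEdges _ h).2
          · exact (h2 _ (mem_twoEdges _ h).2).symm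
      · rintro (a | a) (b | b) hab
        · have := h1 a (by omega) b (by omega) hab
          exact congrArg _ (Fin.ext this)
        · have := h1 a (by omega) (11 + b) (by omega) hab
          omega
        · have := h1 (11 + a) (by omega) b (by omega) hab
          omega
        · have := h1 (11 + a) (by omega) (11 + b) (by omega) hab
          exact congrArg _ (Fin.ext (by omega))
    · rintro ⟨φ⟩
      let f : ℕ → Fin n := fun i => if h : i < 11 then φ (Sum.inl ⟨i, h⟩)
        else φ (Sum.inr (Fin.ofNat 11 (i - 11)))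
      have f1 : ∀ a : Fin 11, f a = φ (Sum.inl a) := by
        intro a
        show (if h : (a : ℕ) < 11 then φ (Sum.inl ⟨a, h⟩) else _) = _
        rw [dif_pos a.2]
      have f2 : ∀ a : Fin 11, f (11 + a) = φ (Sum.inr a) := by
        intro a
        show (if h : 11 + (a : ℕ) < 11 then _ else φ (Sum.inr (Fin.ofNat 11 (11 + a - 11)))) = _
        rw [dif_neg (by omega)]
        congr 2
        ext
        simp
      obtain ⟨t, ht, hf⟩ := exists_tuple f 22
      refine ⟨t, ht, (injB_iff hf).2 ?_, (edgesB_iff hf twoEdges_lt).2 ?_⟩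
      · intro a ha b hb hab
        have hcase : ∀ a : ℕ, a < 22 → ∃ x : Fin 11, (a = (x : ℕ) ∧ f a = φ (Sum.inl x)) ∨
            (a = 11 + (x : ℕ) ∧ f a = φ (Sum.inr x)) := by
          intro a ha
          by_cases h : a < 11
          · exact ⟨⟨a, h⟩, Or.inl ⟨rfl, f1 ⟨a, h⟩⟩⟩
          · refine ⟨⟨a - 11, by omega⟩, Or.inr ⟨by show a = 11 + (a - 11); omega, ?_⟩⟩
            rw [← f2]
            congr 1
            show a = 11 + (a - 11)
            omega
        obtain ⟨x, ⟨hx, hx'⟩ | ⟨hx, hx'⟩⟩ := hcase a ha <;>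
        obtain ⟨y, ⟨hy, hy'⟩ | ⟨hy, hy'⟩⟩ := hcase b hb <;>
        · rw [hx', hy'] at hab
          have := φ.injective hab
          simp at this
          try (subst this; omega)
      · intro e he
        obtain ⟨a, b, hab, ⟨h1, h2⟩ | ⟨h1, h2⟩⟩ := twoEdges_cases e he
        · rw [h1, h2, f1, f1]
          exact φ.toHom.map_adj (show (longH ⊕g longH).Adj (Sum.inl a) (Sum.inl b) from hab)
        · rw [h1, h2, f2, f2]
          exact φ.toHom.map_adj (show (longH ⊕g longH).Adj (Sum.inr a) (Sum.inr b) from hab)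
  unfold Free
  rw [← key]
  simp only [freeB, List.all_eq_true, Bool.not_eq_true', Bool.and_eq_false_iff]
  push Not
  constructor
  · intro h t ht h1
    rcases h t ht with h2 | h2
    · rw [h1] at h2
      simp at h2
    · simpa using h2
  · intro h t ht
    by_cases h1 : injB 22 t = true
    · right
      simpa using h t ht h1
    · left
      simpa using h1

/-! ### Large graphs -/

theorem HamC.preconnected {V : Type} {G : SimpleGraph V} {c : ℤ → V} (hc : HamC G n c) :
    G.Preconnected := by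
  have key : ∀ (k : ℕ) (i : ℤ), G.Reachable (c i) (c (i + k)) := by
    intro k i
    induction k with
    | zero => rw [Nat.cast_zero, add_zero]
    | succ k ih =>
      refine ih.trans (Adj.reachable ?_)
      have := hc.adj (i + k)
      rwa [show i + (k : ℤ) + 1 = i + ((k + 1 : ℕ) : ℤ) by push_cast; ring] at this
  intro u v
  obtain ⟨i, rfl⟩ := hc.surj u
  obtain ⟨j, rfl⟩ := hc.surj v
  rcases le_total i j with h | h
  · have := key (j - i).toNat i
    rwa [show i + ((j - i).toNat : ℤ) = j by omega] at this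
  · have := key (i - j).toNat j
    rw [show j + ((i - j).toNat : ℤ) = i by omega] at this
    exact this.symm

theorem brk_congr {V : Type} {G : SimpleGraph V} {s s' : ℕ → ℕ → V}
    (h : ∀ r < 11, ∀ i < 7, s r i = s' r i) : brk G s = brk G s' := by
  ext a b
  show G.Adj a b ∧ _ ↔ G.Adj a b ∧ _
  have key : ∀ r < 11, (Keep (s r) a b ↔ Keep (s' r) a b) := by
    intro r hr
    have h1 : Cons (s r) a b ↔ Cons (s' r) a b := by
      unfold Cons
      constructor
      · rintro ⟨i, hi, h'⟩
        rw [h r hr i (by omega), h r hr (i + 1) (by omega)] at h'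
        exact ⟨i, hi, h'⟩
      · rintro ⟨i, hi, h'⟩
        rw [← h r hr i (by omega), ← h r hr (i + 1) (by omega)] at h'
        exact ⟨i, hi, h'⟩
    have h2 : ∀ x, Inn (s r) x ↔ Inn (s' r) x := by
      intro x
      unfold Inn
      constructor
      · rintro ⟨i, i1, i2, h'⟩
        rw [h r hr i (by omega)] at h'
        exact ⟨i, i1, i2, h'⟩
      · rintro ⟨i, i1, i2, h'⟩
        rw [← h r hr i (by omega)] at h'
        exact ⟨i, i1, i2, h'⟩
    unfold Keep
    rw [h1, h2, h2]
  constructor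
  · rintro ⟨h1, h2⟩
    exact ⟨h1, fun r hr => (key r hr).1 (h2 r hr)⟩
  · rintro ⟨h1, h2⟩
    exact ⟨h1, fun r hr => (key r hr).2 (h2 r hr)⟩

theorem ham_mono {V : Type} [DecidableEq V] {G G' : SimpleGraph V} (hle : G ≤ G')
    (h : HasHamiltonianCycle G) : HasHamiltonianCycle G' := by
  obtain ⟨a, p, hp⟩ := h
  exact ⟨a, p.map (Hom.ofLE hle), hp.map Function.bijective_id⟩

theorem bigB_iff (hn : 60 ≤ n) (hb : Bd n E) : bigB n E = true ↔
    (longH ⊕g longH).Free (gr n E) ∧ HasHamiltonianCycle (gr n E) := by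
  have hne : Nonempty (Fin n) := ⟨⟨0, by omega⟩⟩
  simp only [bigB, Bool.and_eq_true, List.any_eq_true, freeB_iff, connB_iff (show 0 < n by omega),
    teeB_iff]
  constructor
  · rintro ⟨h1, t, ht, h2, h3⟩
    refine ⟨h1, ?_⟩
    obtain ⟨f, hf⟩ := exists_ag ht (by omega)
    have h4 := hamiltonian_of_covered h2 (covered_of_tee h3)
    have hbc : Bd n (cut t E) := hb.filter _
    refine ham_mono ((iterate_step_spec hbc _).2.1.trans ?_) h4
    intro a b h
    rw [gr_adj, adj_iff] at h ⊢
    exact ⟨h.1, h.2.imp List.mem_of_mem_filter List.mem_of_mem_filter⟩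
  · rintro ⟨h1, h2⟩
    refine ⟨h1, ?_⟩
    obtain ⟨c, hc⟩ := exists_hamC h2
    rw [Fintype.card_fin] at hc
    obtain ⟨s, hs1, hs2⟩ := exists_branch hc hn h1
    obtain ⟨t, ht, hf⟩ := exists_tuple (fun m => s (m / 7) (m % 7)) 77
    have hbc : Bd n (cut t E) := hb.filter _
    have hcut : gr n (cut t E) = brk (gr n E) s := by
      rw [gr_cut hf]
      apply brk_congr
      intro r _ i hi
      congr 1
      · omega
      · omega
    obtain ⟨_, h3, h4⟩ := iterate_step_spec hbc (cut t E).length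
    change gr n (clean n (cut t E)) ≤ _ at h3
    obtain ⟨c', hc'⟩ := h4 hn ⟨c, by rw [hcut]; exact hs1⟩
    change HamC (gr n (clean n (cut t E))) n c' at hc'
    refine ⟨t, ht, hc'.preconnected, tee_of_irr hc' hn ?_ clean_irr⟩
    intro h5
    exact hs2 (h5.mono_right (h3.trans hcut.le))

end H87.HC
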