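import Mathlib
import Pool.Agent.H87.HC.Corr2

/-!
# The encoding of graphs, and correctness of the whole algorithm
-/

namespace H87.HC

open Pool.Agent.PPS SimpleGraph

variable {n : ℕ} {E : List (ℕ × ℕ)}

theorem rows {α : Type} (g : ℕ → ℕ → α) (n m : ℕ) :
    (List.range (m * n)).map (fun k => g (k / n) (k % n)) =
      (List.range m).flatMap (fun a => (List.range n).map (fun b => g a b)) := by
  induction m with
  | zero => simp
  | succ m ih =>
    rw [Nat.succ_mul, List.range_add, List.map_append, ih, List.range_succ, List.flatMap_append,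
      List.flatMap_singleton, List.map_map]
    congr 1
    apply List.map_congr_left
    intro b hb
    rw [List.mem_range] at hb
    show g ((m * n + b) / n) ((m * n + b) % n) = g m b
    have hn : 0 < n := by omega
    rw [Nat.mul_comm m n, Nat.mul_add_div hn, Nat.div_eq_of_lt hb, Nat.mul_add_mod,
      Nat.mod_eq_of_lt hb, Nat.add_zero]

theorem ofFn_range {α : Type} (g : ℕ → α) (N : ℕ) :
    List.ofFn (fun k : Fin N => g k) = (List.range N).map g := by
  apply List.ext_getElem
  · simp
  · intro i h1 h2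
    simp

theorem encode_gr : encode (gr n E) = encB n E := by
  classical
  unfold encode encB
  congr 2
  rw [← rows (fun a b => adj E a b) n n, ← ofFn_range (fun k => adj E (k / n) (k % n)) (n * n)]
  congr 1
  funext k
  rw [Bool.eq_iff_iff, decide_eq_true_iff]
  exact Iff.rfl

theorem lead_encode (G : SimpleGraph (Fin n)) : lead (encode G) = n := lead_append _ _

theorem mem_edgesOf {w : List Bool} {a b : ℕ} :
    (a, b) ∈ edgesOf n w ↔ a < n ∧ b < n ∧ bitAt w (n + 1 + (a * n + b)) = true := by
  simp only [edgesOf, List.mem_flatMap, List.mem_range, List.mem_map, List.mem_filter,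
    Prod.mk.injEq]
  constructor
  · rintro ⟨a', ha, b', ⟨hb, h⟩, rfl, rfl⟩
    exact ⟨ha, hb, h⟩
  · rintro ⟨ha, hb, h⟩
    exact ⟨a, ha, b, ⟨hb, h⟩, rfl, rfl⟩

theorem bd_edgesOf (w : List Bool) : Bd n (edgesOf n w) := by
  rintro ⟨a, b⟩ h
  rw [mem_edgesOf] at h
  exact ⟨h.1, h.2.1⟩

open Classical in
theorem bitAt_encode (G : SimpleGraph (Fin n)) {a b : ℕ} (ha : a < n) (hb : b < n) :
    bitAt (encode G) (n + 1 + (a * n + b)) = decide (G.Adj ⟨a, ha⟩ ⟨b, hb⟩) := by
  have hn : 0 < n := by omega
  have hlt : a * n + b < n * n := by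
    have : (a + 1) * n ≤ n * n := Nat.mul_le_mul_right n ha
    rw [Nat.succ_mul] at this
    omega
  unfold encode
  rw [bitAt_append, List.length_replicate, show decide (n + 1 + (a * n + b) < n) = false by
    rw [decide_eq_false_iff_not]; omega, cond_false,
    show n + 1 + (a * n + b) - n = (a * n + b) + 1 by omega, bitAt_cons_succ]
  unfold bitAt
  rw [List.getD_eq_getElem _ _ (by rw [List.length_ofFn]; exact hlt), List.getElem_ofFn]
  have e1 : (a * n + b) / n = a := by
    rw [Nat.mul_comm a n, Nat.mul_add_div hn, Nat.div_eq_of_lt hb, Nat.add_zero]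
  have e2 : (a * n + b) % n = b := by
    rw [Nat.mul_comm a n, Nat.mul_add_mod, Nat.mod_eq_of_lt hb]
  rw [decide_eq_decide]
  simp only [e1, e2]

theorem gr_edgesOf (G : SimpleGraph (Fin n)) : gr n (edgesOf n (encode G)) = G := by
  classical
  ext a b
  rw [gr_adj, adj_iff, mem_edgesOf, mem_edgesOf, bitAt_encode G a.2 b.2, bitAt_encode G b.2 a.2]
  simp only [Fin.eta, decide_eq_true_eq, Fin.is_lt, true_and]
  constructor
  · rintro ⟨_, h | h⟩
    · exact h
    · exact h.symm
  · intro h
    exact ⟨fun h' => h.ne (Fin.ext h'), Or.inl h⟩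

/-- The words of the language which present graphs with fewer than sixty vertices. -/
def smallSet : Set (List Bool) :=
  {w | ∃ (n : ℕ) (G : SimpleGraph (Fin n)), n < 60 ∧
    w = encode G ∧ (longH ⊕g longH).Free G ∧ HasHamiltonianCycle G}

theorem smallSet_finite : smallSet.Finite := by
  have h : smallSet ⊆ ⋃ n : Fin 60, Set.range (fun G : SimpleGraph (Fin (n : ℕ)) => encode G) := by
    rintro w ⟨n, G, hn, rfl, _⟩
    exact Set.mem_iUnion.2 ⟨⟨n, hn⟩, G, rfl⟩
  exact (Set.finite_iUnion fun n => Set.finite_range _).subset h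

/-- The list of the words in `smallSet`. -/
noncomputable def small : List (List Bool) := smallSet_finite.toFinset.toList

theorem mem_small {w : List Bool} : w ∈ small ↔ w ∈ smallSet := by
  simp [small]

/-- The algorithm is correct. -/
theorem decB_iff {w : List Bool} : decB small w = true ↔ w ∈ HamTwoLongHFree := by
  simp only [decB, Bool.or_eq_true, Bool.and_eq_true, decide_eq_true_eq, mem_small]
  constructor
  · rintro (⟨n, G, _, h⟩ | ⟨⟨h1, h2⟩, h3⟩)
    · exact ⟨n, G, h⟩
    · rw [bigB_iff h1 (bd_edgesOf w)] at h3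
      exact ⟨lead w, gr (lead w) (edgesOf (lead w) w), by rw [encode_gr]; exact h2, h3⟩
  · rintro ⟨n, G, rfl, h1, h2⟩
    by_cases hn : n < 60
    · exact Or.inl ⟨n, G, hn, rfl, h1, h2⟩
    · right
      rw [lead_encode, bigB_iff (by omega) (bd_edgesOf _), ← encode_gr, gr_edgesOf]
      exact ⟨⟨by omega, rfl⟩, h1, h2⟩

end H87.HC
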